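import Pool.Agent.N662.SE.Exp2

/-!
# Deterministic part: comparison of the partition functions of two environments
-/

set_option autoImplicit false

open MeasureTheory ProbabilityTheory Filter Topology

namespace Pool.Agent.Z97H.KZ

open TH967.DP Pool.Agent.N662.SE

variable {d n : ℕ}

/-- the walks which stay within distance `r` of the line of slope `v` -/
def tb (v : Fin d → ℝ) (r : ℝ) (n : ℕ) : Set (Fin n → Step d) :=
  {w | ∀ i : ℕ, i ≤ n → ∀ k, |(pos w i k : ℝ) - i * v k| ≤ r}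

lemma part_congr_tb {β : ℝ} {h v : Fin d → ℝ} {r : ℝ} {η η' : ℕ → (Fin d → ℤ) → ℝ}
    (H : ∀ (i : ℕ) (y : Fin d → ℤ), 1 ≤ i → i ≤ n → (∀ k, |(y k : ℝ) - i * v k| ≤ r) →
      η i y = η' i y) : part β h η n (tb v r n) = part β h η' n (tb v r n) := by
  unfold part
  apply Finset.sum_congr rfl
  intro w _
  by_cases hw : w ∈ tb v r n
  · rw [Set.indicator_of_mem hw, Set.indicator_of_mem hw]
    congr 3
    unfold energy
    apply Finset.sum_congr rfl
    intro i _
    have hi := i.isLt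
    exact H _ _ (by omega) (by omega) (fun k => hw (i.val + 1) (by omega) k)
  · rw [Set.indicator_of_notMem hw, Set.indicator_of_notMem hw]

lemma log_tb (hd : 1 ≤ d) {β : ℝ} {h : Fin d → ℝ} {η : ℕ → (Fin d → ℤ) → ℝ}
    {A : Set (Fin n → Step d)} (hA : 1 / 2 ≤ prob β h η n A) :
    0 < part β h η n A ∧ Real.log (part β h η n A) ≤ Real.log (part β h η n Set.univ) ∧
      Real.log (part β h η n Set.univ) ≤ Real.log (part β h η n A) + Real.log 2 := by
  have p1 := part_univ_pos hd β h η n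
  have h0 : 1 / 2 * part β h η n Set.univ ≤ part β h η n A := by
    unfold prob at hA
    rwa [le_div_iff₀ p1] at hA
  have h1 : 0 < part β h η n A := by linarith
  refine ⟨h1, Real.log_le_log h1 (part_mono _ _ _ (Set.subset_univ _)), ?_⟩
  rw [← Real.log_mul h1.ne' (by norm_num)]
  exact Real.log_le_log p1 (by linarith)

/-- the error in the comparison of two drifts -/
noncomputable def rho (n : ℕ) (r : ℝ) (h h' v v' : Fin d → ℝ) : ℝ :=
  Real.log 2 + (∑ k, |h' k - h k|) * r + n * ∑ k, |h' k - h k| * |v' k - v k|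

lemma sand_aux (hd : 1 ≤ d) {β : ℝ} {h h' v : Fin d → ℝ} {r : ℝ}
    {η : ℕ → (Fin d → ℤ) → ℝ} (h1 : 1 / 2 ≤ prob β h η n (tb v r n)) :
    Real.log (part β h η n Set.univ) + (∑ k, (h' k - h k) * (n * v k)) -
      (∑ k, |h' k - h k|) * r - Real.log 2 ≤ Real.log (part β h' η n Set.univ) := by
  obtain ⟨pA, -, h2⟩ := log_tb hd h1
  have h3 := part_drift_ge (β := β) (h := h) (h' := h') (η := η) (v := v) (r := r)
    (A := tb v r n) (fun w hw => hw n le_rfl)
  have h4 := part_mono β h' η (Set.subset_univ (tb v r n))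
  have h5 := Real.log_le_log (mul_pos (Real.exp_pos _) pA) (h3.trans h4)
  rw [Real.log_mul (Real.exp_pos _).ne' pA.ne', Real.log_exp] at h5
  linarith

lemma sand (hd : 1 ≤ d) {β : ℝ} {h h' v v' : Fin d → ℝ} {r : ℝ}
    {η : ℕ → (Fin d → ℤ) → ℝ} (h1 : 1 / 2 ≤ prob β h η n (tb v r n))
    (h2 : 1 / 2 ≤ prob β h' η n (tb v' r n)) :
    |Real.log (part β h' η n Set.univ) - Real.log (part β h η n Set.univ) -
      ∑ k, (h' k - h k) * (n * v k)| ≤ rho n r h h' v v' := by
  have a1 := sand_aux (h' := h') hd h1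
  have a2 := sand_aux (h' := h) hd h2
  have e1 : ∑ k, |h k - h' k| = ∑ k, |h' k - h k| :=
    Finset.sum_congr rfl fun k _ => abs_sub_comm _ _
  have e2 : ∑ k, (h k - h' k) * (n * v' k) = -(∑ k, (h' k - h k) * (n * v k)) -
      n * ∑ k, (h' k - h k) * (v' k - v k) := by
    rw [Finset.mul_sum, ← Finset.sum_neg_distrib, ← Finset.sum_sub_distrib]
    apply Finset.sum_congr rfl
    intro k _
    ring
  have e3 : |∑ k, (h' k - h k) * (v' k - v k)| ≤ ∑ k, |h' k - h k| * |v' k - v k| := by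
    refine (Finset.abs_sum_le_sum_abs _ _).trans (le_of_eq ?_)
    exact Finset.sum_congr rfl fun k _ => abs_mul _ _
  have hn : (0 : ℝ) ≤ n := Nat.cast_nonneg n
  have e4 : n * ∑ k, (h' k - h k) * (v' k - v k) ≤ n * ∑ k, |h' k - h k| * |v' k - v k| :=
    mul_le_mul_of_nonneg_left ((le_abs_self _).trans e3) hn
  have e5 : (0 : ℝ) ≤ n * ∑ k, |h' k - h k| * |v' k - v k| :=
    mul_nonneg hn (Finset.sum_nonneg fun _ _ => mul_nonneg (abs_nonneg _) (abs_nonneg _))
  rw [e1, e2] at a2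
  unfold rho
  rw [abs_le]
  constructor <;> linarith

/-- The comparison: if the two tubes are disjoint after the time `m`, then resampling the
environment after the time `m` changes `log W_n(h)` by little. -/
lemma close (hd : 1 ≤ d) {β : ℝ} {h h' v v' : Fin d → ℝ} {r : ℝ} {m : ℕ}
    {η ηA ηB : ℕ → (Fin d → ℤ) → ℝ} (hsep : ∃ k, 2 * r < m * |v' k - v k|)
    (hA : ∀ i y, i ≤ m → ηA i y = η i y) (hB1 : ∀ i y, i ≤ m → ηB i y = η i y)
    (hB2 : ∀ (i : ℕ) (y : Fin d → ℤ), m < i → (∀ k, |(y k : ℝ) - i * v k| ≤ r) →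
      ηB i y = ηA i y)
    (hB3 : ∀ (i : ℕ) (y : Fin d → ℤ), m < i → ¬ (∀ k, |(y k : ℝ) - i * v k| ≤ r) →
      ηB i y = η i y)
    (p1 : 1 / 2 ≤ prob β h η n (tb v r n)) (p2 : 1 / 2 ≤ prob β h ηB n (tb v r n))
    (p3 : 1 / 2 ≤ prob β h ηA n (tb v r n)) (p4 : 1 / 2 ≤ prob β h' η n (tb v' r n))
    (p5 : 1 / 2 ≤ prob β h' ηB n (tb v' r n)) :
    |Real.log (part β h η n Set.univ) - Real.log (part β h ηA n Set.univ)| ≤
      2 * rho n r h h' v v' + 2 * Real.log 2 := by
  have c1 : part β h' η n (tb v' r n) = part β h' ηB n (tb v' r n) := by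
    apply part_congr_tb
    intro i y _ _ hy
    rcases Nat.lt_or_ge m i with hi | hi
    · refine (hB3 i y hi ?_).symm
      intro hy2
      obtain ⟨k, hk⟩ := hsep
      have h1 : (i : ℝ) * |v' k - v k| ≤ 2 * r := by
        have e3 : (i : ℝ) * (v' k - v k) = ((y k : ℝ) - i * v k) - ((y k : ℝ) - i * v' k) := by
          ring
        have e4 : |(i : ℝ) * (v' k - v k)| = i * |v' k - v k| := by
          rw [abs_mul, Nat.abs_cast]
        rw [← e4, e3]
        refine (abs_sub _ _).trans ?_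
        linarith [hy k, hy2 k]
      have h2 : (m : ℝ) * |v' k - v k| ≤ i * |v' k - v k| :=
        mul_le_mul_of_nonneg_right (by exact_mod_cast hi.le) (abs_nonneg _)
      linarith
    · exact (hB1 i y hi).symm
  have c2 : part β h ηA n (tb v r n) = part β h ηB n (tb v r n) := by
    apply part_congr_tb
    intro i y _ _ hy
    rcases Nat.lt_or_ge m i with hi | hi
    · exact (hB2 i y hi hy).symm
    · rw [hA i y hi, hB1 i y hi]
  obtain ⟨-, a2, b2⟩ := log_tb hd p2
  obtain ⟨-, a3, b3⟩ := log_tb hd p3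
  obtain ⟨-, a4, b4⟩ := log_tb hd p4
  obtain ⟨-, a5, b5⟩ := log_tb hd p5
  rw [c1] at a4 b4
  rw [c2] at a3 b3
  have s1 := sand hd p1 p4
  have s2 := sand hd p2 p5
  rw [abs_le] at s1 s2
  rw [abs_le]
  constructor <;> linarith

end Pool.Agent.Z97H.KZ
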