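import Pool.Agent.N662.SE.Exp2
import Pool.Agent.N427.SE.UPX

/-!
# Fourth moments
-/

set_option autoImplicit false

open MeasureTheory ProbabilityTheory Filter Topology

namespace Pool.Agent.Z97H.KZ

open TH967.DP Pool.Agent.N662.SE

variable {d : ℕ}

lemma four_of_exp {Ω : Type} [MeasurableSpace Ω] {P : Measure Ω} {Y : Ω → ℝ}
    (hY : Measurable Y) {l C0 : ℝ} (hl : 0 < l)
    (h1 : ∫⁻ x, ENNReal.ofReal (Real.exp (l * |Y x|)) ∂P ≤ ENNReal.ofReal C0) :
    Integrable (fun x => Y x ^ 4) P ∧ ∫ x, Y x ^ 4 ∂P ≤ 24 / l ^ 4 * |C0| := by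
  have hpt : ∀ x, Y x ^ 4 ≤ 24 / l ^ 4 * Real.exp (l * |Y x|) := by
    intro x
    have h2 := Real.pow_div_factorial_le_exp (l * |Y x|) (by positivity) 4
    have h3 : ((4 : ℕ).factorial : ℝ) = 24 := by norm_num [Nat.factorial]
    rw [h3, mul_pow, (by decide : Even 4).pow_abs, div_le_iff₀ (by norm_num)] at h2
    rw [div_mul_eq_mul_div, le_div_iff₀ (by positivity)]
    linarith
  have hexpm : Measurable fun x => Real.exp (l * |Y x|) :=
    Real.measurable_exp.comp ((hY.abs).const_mul l)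
  have hexpi : Integrable (fun x => Real.exp (l * |Y x|)) P := by
    refine ⟨hexpm.aestronglyMeasurable, ?_⟩
    rw [hasFiniteIntegral_iff_norm]
    refine lt_of_le_of_lt (le_of_eq ?_) (lt_of_le_of_lt h1 ENNReal.ofReal_lt_top)
    apply lintegral_congr
    intro x
    rw [Real.norm_eq_abs, abs_of_pos (Real.exp_pos _)]
  have hexpl : ∫ x, Real.exp (l * |Y x|) ∂P ≤ |C0| := by
    rw [integral_eq_lintegral_of_nonneg_ae (Eventually.of_forall fun x => (Real.exp_pos _).le)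
      hexpm.aestronglyMeasurable]
    refine (ENNReal.toReal_mono ENNReal.ofReal_ne_top h1).trans ?_
    rw [ENNReal.toReal_ofReal']
    exact max_le (le_abs_self _) (abs_nonneg _)
  have hint : Integrable (fun x => Y x ^ 4) P := by
    apply (hexpi.const_mul (24 / l ^ 4)).mono' (hY.pow_const 4).aestronglyMeasurable
    refine Eventually.of_forall fun x => ?_
    rw [Real.norm_eq_abs, abs_of_nonneg (by positivity)]
    exact hpt x
  refine ⟨hint, ?_⟩
  calc ∫ x, Y x ^ 4 ∂P ≤ ∫ x, 24 / l ^ 4 * Real.exp (l * |Y x|) ∂P :=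
        integral_mono hint (hexpi.const_mul _) hpt
    _ = 24 / l ^ 4 * ∫ x, Real.exp (l * |Y x|) ∂P := integral_const_mul _ _
    _ ≤ 24 / l ^ 4 * |C0| := mul_le_mul_of_nonneg_left hexpl (by positivity)

lemma int_four (hc : S_CONC) (hd : 1 ≤ d) {Ω : Type} [MeasurableSpace Ω] {P : Measure Ω}
    [IsProbabilityMeasure P] {ω : ℕ → (Fin d → ℤ) → Ω → ℝ} (he : IsEnv P ω)
    (hexp : ∀ b : ℝ, Integrable (fun x => Real.exp (b * ω 1 0 x)) P) (β : ℝ) (h : Fin d → ℝ)
    (n : ℕ) : Integrable (fun x => (lw ω β h 0 0 n x - free P ω β h n) ^ 4) P := by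
  rcases Nat.eq_zero_or_pos n with rfl | hn
  · simp only [Pool.Agent.N427.SE.UPX.lw_z, Pool.Agent.N427.SE.UPX.free_z]
    exact integrable_const _
  · obtain ⟨hmeas, -, -, -⟩ := hc d hd Ω P ω he hexp β h 0 0 n
    have hn0 : (0 : ℝ) < n := by exact_mod_cast hn
    exact (four_of_exp (hmeas.sub_const _) (by positivity)
      (conc_half hc hd he hexp β h (Set.mem_univ _) n hn)).1

/-- fourth moments from concentration -/
lemma fourth (hc : S_CONC) (hd : 1 ≤ d) {Ω : Type} [MeasurableSpace Ω] {P : Measure Ω}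
    [IsProbabilityMeasure P] {ω : ℕ → (Fin d → ℤ) → Ω → ℝ} (he : IsEnv P ω)
    (hexp : ∀ b : ℝ, Integrable (fun x => Real.exp (b * ω 1 0 x)) P) {β : ℝ} {h : Fin d → ℝ}
    {ξ : ℝ} (hξ : Concentrated P ω β h ξ) :
    ∃ C : ℝ, ∀ n : ℕ, 1 ≤ n →
      ∫ x, (lw ω β h 0 0 n x - free P ω β h n) ^ 4 ∂P ≤ C * (n : ℝ) ^ (4 * ξ) := by
  rw [concentrated_iff hd fun h n => (hc d hd Ω P ω he hexp β h 0 0 n).2.1] at hξ
  obtain ⟨U, _, hU, α, C0, hα, hC⟩ := hξ
  refine ⟨24 * |C0| / α ^ 4, fun n hn => ?_⟩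
  have hn0 : (0 : ℝ) < n := by exact_mod_cast hn
  obtain ⟨hmeas, -, -, -⟩ := hc d hd Ω P ω he hexp β h 0 0 n
  set l : ℝ := α * (n : ℝ) ^ (-ξ) with hl
  have hl0 : 0 < l := mul_pos hα (Real.rpow_pos_of_pos hn0 _)
  have h1 := hC h hU n hn
  rw [← hl] at h1
  refine (four_of_exp (hmeas.sub_const _) hl0 h1).2.trans (le_of_eq ?_)
  have h5 : l ^ 4 * (n : ℝ) ^ (4 * ξ) = α ^ 4 := by
    rw [hl, mul_pow, ← Real.rpow_natCast ((n : ℝ) ^ (-ξ)) 4, ← Real.rpow_mul hn0.le,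
      mul_assoc, ← Real.rpow_add hn0]
    have : -ξ * ((4 : ℕ) : ℝ) + 4 * ξ = 0 := by push_cast; ring
    rw [this, Real.rpow_zero, mul_one]
  rw [← h5]
  have h6 : (0 : ℝ) < (n : ℝ) ^ (4 * ξ) := Real.rpow_pos_of_pos hn0 _
  field_simp

/-! ### Jensen -/

lemma int_one {Ω : Type} [MeasurableSpace Ω] {P : Measure Ω} [IsProbabilityMeasure P]
    {g : Ω → ℝ} (hg : AEStronglyMeasurable g P) (h2 : Integrable (fun x => g x ^ 2) P) :
    Integrable g P := by
  apply ((integrable_const (1 : ℝ)).add h2).mono' hg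
  refine Eventually.of_forall fun x => ?_
  rw [Real.norm_eq_abs]
  have h3 : |g x| ^ 2 = g x ^ 2 := sq_abs _
  show |g x| ≤ 1 + g x ^ 2
  rw [← h3]
  nlinarith [sq_nonneg (|g x| - 1)]

lemma int_two {Ω : Type} [MeasurableSpace Ω] {P : Measure Ω} [IsProbabilityMeasure P]
    {g : Ω → ℝ} (hg : AEStronglyMeasurable g P) (h4 : Integrable (fun x => g x ^ 4) P) :
    Integrable (fun x => g x ^ 2) P := by
  apply int_one (hg.pow 2)
  refine h4.congr (Eventually.of_forall fun x => ?_)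
  simp only [Pi.pow_apply]
  ring

lemma jensen_two {Ω : Type} [MeasurableSpace Ω] {P : Measure Ω} [IsProbabilityMeasure P]
    {g : Ω → ℝ} (hg : AEStronglyMeasurable g P) (h2 : Integrable (fun x => g x ^ 2) P) :
    (∫ x, g x ∂P) ^ 2 ≤ ∫ x, g x ^ 2 ∂P := by
  have h1 := int_one hg h2
  set a := ∫ x, g x ∂P with ha
  have h3 : 0 ≤ ∫ x, (g x - a) ^ 2 ∂P := integral_nonneg fun x => sq_nonneg _
  have h4 : ∀ x, (g x - a) ^ 2 = (g x ^ 2 - 2 * a * g x) + a ^ 2 := fun x => by ring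
  simp_rw [h4] at h3
  have i1 : Integrable (fun x => g x ^ 2 - 2 * a * g x) P := h2.sub (h1.const_mul _)
  rw [integral_add i1 (integrable_const _), integral_sub h2 (h1.const_mul _),
    integral_const_mul, ← ha] at h3
  simp only [integral_const, probReal_univ, one_smul] at h3
  nlinarith

lemma jensen_four {Ω : Type} [MeasurableSpace Ω] {P : Measure Ω} [IsProbabilityMeasure P]
    {g : Ω → ℝ} (hg : AEStronglyMeasurable g P) (h4 : Integrable (fun x => g x ^ 4) P) :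
    (∫ x, g x ∂P) ^ 4 ≤ ∫ x, g x ^ 4 ∂P := by
  have h2 := int_two hg h4
  have e1 : ∀ x, g x ^ 4 = (g x ^ 2) ^ 2 := fun x => by ring
  have h5 : Integrable (fun x => (g x ^ 2) ^ 2) P := by simpa only [← e1] using h4
  have a1 := jensen_two hg h2
  have a2 := jensen_two (hg.pow 2) h5
  simp only [Pi.pow_apply] at a2
  simp_rw [e1]
  calc (∫ x, g x ∂P) ^ 4 = ((∫ x, g x ∂P) ^ 2) ^ 2 := by ring
    _ ≤ (∫ x, g x ^ 2 ∂P) ^ 2 := pow_le_pow_left₀ (sq_nonneg _) a1 2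
    _ ≤ _ := a2

/-- the contribution of the first layers -/
lemma first_layers {Ω : Type} [MeasurableSpace Ω] {P : Measure Ω} [IsProbabilityMeasure P]
    {a b : Ω → ℝ} (ha : AEStronglyMeasurable a P) (hb : AEStronglyMeasurable b P)
    (ha4 : Integrable (fun x => a x ^ 4) P) (hb4 : Integrable (fun x => b x ^ 4) P)
    (ha0 : ∫ x, a x ∂P = 0) (hb0 : ∫ x, b x ∂P = 0) {s L Q Q' V : ℝ}
    (hG : ∀ᵐ x ∂P, 0 ≤ a x - b x + s) (hL : 0 < L)
    (hQ : ∫ x, a x ^ 4 ∂P ≤ Q) (hQ' : ∫ x, b x ^ 4 ∂P ≤ Q') (hV : ∫ x, b x ^ 2 ∂P ≤ V) :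
    ∫ x, a x ^ 2 ∂P ≤ 3 * (L * s + 27 * (Q + Q' + s ^ 4) / L ^ 2 + s ^ 2 + V) := by
  have ha2 := int_two ha ha4
  have hb2 := int_two hb hb4
  have ha1 := int_one ha ha2
  have hb1 := int_one hb hb2
  have hpt : ∀ᵐ x ∂P, a x ^ 2 ≤ 3 * (L * (a x - b x + s) +
      27 * (a x ^ 4 + b x ^ 4 + s ^ 4) / L ^ 2 + s ^ 2 + b x ^ 2) := by
    filter_upwards [hG] with x hx
    set G := a x - b x + s with hGd
    have h1 : a x ^ 2 ≤ 3 * (G ^ 2 + s ^ 2 + b x ^ 2) := by
      have : a x = G - s + b x := by rw [hGd]; ring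
      rw [this]
      nlinarith [sq_nonneg (G + s), sq_nonneg (G - b x), sq_nonneg (s + b x)]
    have h2 : G ^ 2 ≤ L * G + G ^ 4 / L ^ 2 := by
      rcases le_total G L with h | h
      · have e1 : G ^ 2 ≤ L * G := by nlinarith
        have e2 : 0 ≤ G ^ 4 / L ^ 2 := by positivity
        linarith
      · have e1 : G ^ 2 ≤ G ^ 4 / L ^ 2 := by
          rw [le_div_iff₀ (by positivity)]
          have e3 : L ^ 2 ≤ G ^ 2 := pow_le_pow_left₀ hL.le h 2
          calc G ^ 2 * L ^ 2 ≤ G ^ 2 * G ^ 2 := mul_le_mul_of_nonneg_left e3 (sq_nonneg _)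
            _ = G ^ 4 := by ring
        have e2 : 0 ≤ L * G := by positivity
        linarith
    have h3 : G ^ 4 ≤ 27 * (a x ^ 4 + b x ^ 4 + s ^ 4) := by
      have e1 : G ^ 2 ≤ 3 * (a x ^ 2 + b x ^ 2 + s ^ 2) := by
        rw [hGd]
        nlinarith [sq_nonneg (a x + b x), sq_nonneg (a x - s), sq_nonneg (s + b x)]
      have e2 : (a x ^ 2 + b x ^ 2 + s ^ 2) ^ 2 ≤ 3 * (a x ^ 4 + b x ^ 4 + s ^ 4) := by
        nlinarith [sq_nonneg (a x ^ 2 - b x ^ 2), sq_nonneg (a x ^ 2 - s ^ 2),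
          sq_nonneg (s ^ 2 - b x ^ 2)]
      calc G ^ 4 = (G ^ 2) ^ 2 := by ring
        _ ≤ (3 * (a x ^ 2 + b x ^ 2 + s ^ 2)) ^ 2 := pow_le_pow_left₀ (sq_nonneg _) e1 2
        _ = 9 * (a x ^ 2 + b x ^ 2 + s ^ 2) ^ 2 := by ring
        _ ≤ _ := by linarith
    have h4 : G ^ 4 / L ^ 2 ≤ 27 * (a x ^ 4 + b x ^ 4 + s ^ 4) / L ^ 2 :=
      div_le_div_of_nonneg_right h3 (by positivity)
    linarith
  have i1 : Integrable (fun x => L * (a x - b x + s)) P :=
    ((ha1.sub hb1).add (integrable_const s)).const_mul L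
  have i2 : Integrable (fun x => 27 * (a x ^ 4 + b x ^ 4 + s ^ 4) / L ^ 2) P :=
    (((ha4.add hb4).add (integrable_const (s ^ 4))).const_mul 27).div_const _
  have i12 : Integrable (fun x => L * (a x - b x + s) +
      27 * (a x ^ 4 + b x ^ 4 + s ^ 4) / L ^ 2) P := i1.add i2
  have i123 : Integrable (fun x => L * (a x - b x + s) +
      27 * (a x ^ 4 + b x ^ 4 + s ^ 4) / L ^ 2 + s ^ 2) P := i12.add (integrable_const _)
  have hle := integral_mono_ae ha2 ((i123.add hb2).const_mul 3) hpt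
  refine hle.trans ?_
  rw [integral_const_mul]
  apply mul_le_mul_of_nonneg_left _ (by norm_num)
  rw [integral_add' i123 hb2, integral_add i12 (integrable_const _), integral_add i1 i2]
  have e1 : ∫ x, L * (a x - b x + s) ∂P = L * s := by
    rw [integral_const_mul, integral_add (f := fun x => a x - b x) (ha1.sub hb1)
      (integrable_const s), integral_sub ha1 hb1, ha0, hb0]
    simp
  have e2 : ∫ x, 27 * (a x ^ 4 + b x ^ 4 + s ^ 4) / L ^ 2 ∂P ≤
      27 * (Q + Q' + s ^ 4) / L ^ 2 := by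
    rw [integral_div, integral_const_mul,
      integral_add (f := fun x => a x ^ 4 + b x ^ 4) (ha4.add hb4) (integrable_const _),
      integral_add ha4 hb4]
    simp only [integral_const, probReal_univ, one_smul]
    apply div_le_div_of_nonneg_right _ (by positivity)
    linarith
  rw [e1]
  simp only [integral_const, probReal_univ, one_smul]
  linarith

end Pool.Agent.Z97H.KZ
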