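import Pool.Agent.Z97H.KZ.Mix
import Pool.Agent.Z97H.KZ.Det
import Pool.Agent.Z97H.KZ.Moment
import Pool.Agent.N50.SE.Sup

/-!
# The average over the environment after the time `m`
-/

set_option autoImplicit false

open MeasureTheory ProbabilityTheory Filter Topology

namespace Pool.Agent.Z97H.KZ

open TH967.DP Pool.Agent.N662.SE

variable {d : ℕ}

/-- the sites after the time `m` -/
def aft (d m : ℕ) : Set (ℕ × (Fin d → ℤ)) := {s | m < s.1}

/-- the sites after the time `m` in the tube -/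
def aftTb (v : Fin d → ℝ) (r : ℝ) (m : ℕ) : Set (ℕ × (Fin d → ℤ)) :=
  {s | m < s.1 ∧ ∀ k, |(s.2 k : ℝ) - s.1 * v k| ≤ r}

/-- `log W_n(h)` of the resampled environment -/
noncomputable def lx {Ω : Type} (A : Set (ℕ × (Fin d → ℤ))) (ω : ℕ → (Fin d → ℤ) → Ω → ℝ)
    (β : ℝ) (h : Fin d → ℝ) (n : ℕ) (p : Ω × Ω) : ℝ :=
  Real.log (part β h (fun i y => mx A ω i y p) n Set.univ)

lemma lw_zero' {Ω : Type} (ω : ℕ → (Fin d → ℤ) → Ω → ℝ) (β : ℝ) (h : Fin d → ℝ) (n : ℕ) (x : Ω) :
    lw ω β h 0 0 n x = Real.log (part β h (fun i y => ω i y x) n Set.univ) :=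
  Pool.Agent.N700.SE.UPD.lw_zero ω β h n x

lemma ident_lx {Ω : Type} [MeasurableSpace Ω] {P : Measure Ω} [IsProbabilityMeasure P]
    {ω : ℕ → (Fin d → ℤ) → Ω → ℝ} (he : IsEnv P ω) (A : Set (ℕ × (Fin d → ℤ))) (β : ℝ)
    (h : Fin d → ℝ) (n : ℕ) :
    IdentDistrib (lx A ω β h n) (lw ω β h 0 0 n) (P.prod P) P := by
  have hF : Measurable (fun η : Site d n → ℝ => Real.log (zz β h Set.univ η)) :=
    Real.measurable_log.comp (measurable_zz β h Set.univ)
  have h1 := (ident_mx he A n).comp hF
  have e1 : (fun η : Site d n → ℝ => Real.log (zz β h Set.univ η)) ∘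
      (fun p : Ω × Ω => res n (fun i y => mx A ω i y p)) = lx A ω β h n := by
    funext p
    simp only [Function.comp_apply, lx, part_eq_zz]
  have e2 : (fun η : Site d n → ℝ => Real.log (zz β h Set.univ η)) ∘
      (fun x => res n (fun i y => ω i y x)) = lw ω β h 0 0 n := by
    funext x
    rw [lw_zero']
    simp only [Function.comp_apply, part_eq_zz]
  rwa [e1, e2] at h1

lemma measurable_lx {Ω : Type} [MeasurableSpace Ω]
    {ω : ℕ → (Fin d → ℤ) → Ω → ℝ} (hm : ∀ i y, Measurable (ω i y)) (A : Set (ℕ × (Fin d → ℤ)))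
    (β : ℝ) (h : Fin d → ℝ) (n : ℕ) : Measurable (lx A ω β h n) := by
  have e1 : lx A ω β h n = fun p => Real.log (zz β h Set.univ
      (res n (fun i y => mx A ω i y p))) := by
    funext p
    simp only [lx, part_eq_zz]
  rw [e1]
  exact Real.measurable_log.comp ((measurable_zz β h Set.univ).comp
    (measurable_res (measurable_mx A hm) n))

lemma ident_prob {Ω : Type} [MeasurableSpace Ω] {P : Measure Ω} [IsProbabilityMeasure P]
    {ω : ℕ → (Fin d → ℤ) → Ω → ℝ} (he : IsEnv P ω) (A : Set (ℕ × (Fin d → ℤ))) (β : ℝ)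
    (h : Fin d → ℝ) (n : ℕ) (T : Set (Fin n → Step d)) :
    IdentDistrib (fun p => prob β h (fun i y => mx A ω i y p) n T)
      (fun x => prob β h (fun i y => ω i y x) n T) (P.prod P) P := by
  have hF : Measurable (fun η : Site d n → ℝ => zz β h T η / zz β h Set.univ η) :=
    (measurable_zz β h T).div (measurable_zz β h Set.univ)
  have h1 := (ident_mx he A n).comp hF
  have e1 : (fun η : Site d n → ℝ => zz β h T η / zz β h Set.univ η) ∘
      (fun p : Ω × Ω => res n (fun i y => mx A ω i y p)) =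
      fun p => prob β h (fun i y => mx A ω i y p) n T := by
    funext p
    simp only [Function.comp_apply, prob, part_eq_zz]
  have e2 : (fun η : Site d n → ℝ => zz β h T η / zz β h Set.univ η) ∘
      (fun x => res n (fun i y => ω i y x)) = fun x => prob β h (fun i y => ω i y x) n T := by
    funext x
    simp only [Function.comp_apply, prob, part_eq_zz]
  rwa [e1, e2] at h1

/-! ### Jensen for the environment after the time `m` -/

lemma part_congr {n : ℕ} {β : ℝ} {h : Fin d → ℝ} {η η' : ℕ → (Fin d → ℤ) → ℝ}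
    (H : ∀ (i : ℕ) (y : Fin d → ℤ), 1 ≤ i → i ≤ n → η i y = η' i y)
    (T : Set (Fin n → Step d)) : part β h η n T = part β h η' n T := by
  unfold part
  apply Finset.sum_congr rfl
  intro w _
  by_cases hw : w ∈ T
  · rw [Set.indicator_of_mem hw, Set.indicator_of_mem hw]
    congr 3
    unfold energy
    apply Finset.sum_congr rfl
    intro i _
    have hi := i.isLt
    exact H _ _ (by omega) (by omega)
  · rw [Set.indicator_of_notMem hw, Set.indicator_of_notMem hw]

lemma wt_congr {n : ℕ} {β : ℝ} {h : Fin d → ℝ} {η η' : ℕ → (Fin d → ℤ) → ℝ}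
    (H : ∀ (i : ℕ) (y : Fin d → ℤ), 1 ≤ i → i ≤ n → η i y = η' i y)
    (u : Fin n → Step d) : Pool.Agent.N50.SE.SUP.wt β h η u = Pool.Agent.N50.SE.SUP.wt β h η' u := by
  unfold Pool.Agent.N50.SE.SUP.wt energy
  congr 3
  apply Finset.sum_congr rfl
  intro i _
  have hi := i.isLt
  exact H _ _ (by omega) (by omega)

open Pool.Agent.N50.SE.SUP in
lemma lx_ge (hd : 1 ≤ d) {Ω : Type} (ω : ℕ → (Fin d → ℤ) → Ω → ℝ) (β : ℝ) (h : Fin d → ℝ)
    (m k : ℕ) (x x' : Ω) :
    lw ω β h 0 0 m x + ∑ u : Fin m → Step d,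
      (wt β h (fun i y => ω i y x) u / part β h (fun i y => ω i y x) m Set.univ) *
        lw ω β h m (pos u m) k x' ≤ lx (aft d m) ω β h (m + k) (x, x') := by
  have h1 := log_ge hd β h (fun i y => mx (aft d m) ω i y (x, x')) m k
  have c1 : part β h (fun i y => mx (aft d m) ω i y (x, x')) m Set.univ =
      part β h (fun i y => ω i y x) m Set.univ := by
    apply part_congr
    intro i y _ hi
    exact mx_of_notMem (by simp [aft]; omega) _
  have c2 : ∀ u : Fin m → Step d, wt β h (fun i y => mx (aft d m) ω i y (x, x')) u =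
      wt β h (fun i y => ω i y x) u := by
    intro u
    apply wt_congr
    intro i y _ hi
    exact mx_of_notMem (by simp [aft]; omega) _
  have c3 : ∀ u : Fin m → Step d,
      Real.log (part β h (fun i y => mx (aft d m) ω (m + i) (pos u m + y) (x, x')) k Set.univ) =
      lw ω β h m (pos u m) k x' := by
    intro u
    unfold lw
    congr 1
    apply part_congr
    intro i y hi _
    exact mx_of_mem (by simp [aft]; omega) _
  rw [c1] at h1
  simp only [c2, c3] at h1
  rw [lw_zero']
  exact h1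

/-- the average over the environment after the time `m` -/
noncomputable def av {Ω : Type} [MeasurableSpace Ω] (P : Measure Ω)
    (ω : ℕ → (Fin d → ℤ) → Ω → ℝ) (β : ℝ) (h : Fin d → ℝ) (m n : ℕ) (x : Ω) : ℝ :=
  ∫ x', lx (aft d m) ω β h n (x, x') ∂P

open Pool.Agent.N50.SE.SUP in
lemma av_ge (hc : S_CONC) (hd : 1 ≤ d) {Ω : Type} [MeasurableSpace Ω] {P : Measure Ω}
    [IsProbabilityMeasure P] {ω : ℕ → (Fin d → ℤ) → Ω → ℝ} (he : IsEnv P ω)
    (hexp : ∀ b : ℝ, Integrable (fun x => Real.exp (b * ω 1 0 x)) P) (β : ℝ) (h : Fin d → ℝ)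
    (m k : ℕ) : ∀ᵐ x ∂P, lw ω β h 0 0 m x + free P ω β h k ≤ av P ω β h m (m + k) x := by
  have hC := fun m z n => hc d hd Ω P ω he hexp β h m z n
  have hint : Integrable (lx (aft d m) ω β h (m + k)) (P.prod P) :=
    (ident_lx he (aft d m) β h (m + k)).integrable_iff.2 (hC 0 0 (m + k)).2.1
  filter_upwards [hint.prod_right_ae] with x hx
  have hsum : Integrable (fun x' => ∑ u : Fin m → Step d,
      (wt β h (fun i y => ω i y x) u / part β h (fun i y => ω i y x) m Set.univ) *
        lw ω β h m (pos u m) k x') P :=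
    integrable_finset_sum _ fun u _ => ((hC m (pos u m) k).2.1).const_mul _
  have h1 : ∫ x', (lw ω β h 0 0 m x + ∑ u : Fin m → Step d,
      (wt β h (fun i y => ω i y x) u / part β h (fun i y => ω i y x) m Set.univ) *
        lw ω β h m (pos u m) k x') ∂P ≤ av P ω β h m (m + k) x :=
    integral_mono ((integrable_const _).add hsum) hx fun x' => lx_ge hd ω β h m k x x'
  refine le_trans (le_of_eq ?_) h1
  rw [integral_add (integrable_const _) hsum,
    integral_finset_sum _ (fun u _ => ((hC m (pos u m) k).2.1).const_mul _)]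
  simp only [integral_const_mul, integral_const, probReal_univ, one_smul]
  have e1 : ∀ u : Fin m → Step d, ∫ x', lw ω β h m (pos u m) k x' ∂P = free P ω β h k :=
    fun u => (hC m (pos u m) k).2.2.1
  simp only [e1]
  rw [← Finset.sum_mul, ← Finset.sum_div, ← part_eq,
    div_self (Pool.Agent.N50.SE.SUP.part_pos hd _ _ _ _).ne', one_mul]

end Pool.Agent.Z97H.KZ
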