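import Pool.Agent.Z97H.KZ.Split

/-!
# The core estimate
-/

set_option autoImplicit false

open MeasureTheory ProbabilityTheory Filter Topology

namespace Pool.Agent.Z97H.KZ

open TH967.DP Pool.Agent.N662.SE

variable {d : ℕ}

/-- The conditions at the drift `h` and the slope `v`. -/
structure Cond {Ω : Type} [MeasurableSpace Ω] (P : Measure Ω)
    (ω : ℕ → (Fin d → ℤ) → Ω → ℝ) (β : ℝ) (φ : (Fin d → ℝ) → ℝ) (b κ ξ t0 M : ℝ)
    (h v : Fin d → ℝ) : Prop where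
  conf : ∀ n : ℕ, 1 ≤ n → 1 - M * (n : ℝ) ^ (-κ) ≤
      ∫ x, prob β h (fun i y => ω i y x) n (tb v ((n : ℝ) ^ b) n) ∂P
  four : ∀ n : ℕ, 1 ≤ n →
      ∫ x, (lw ω β h 0 0 n x - free P ω β h n) ^ 4 ∂P ≤ M * (n : ℝ) ^ (4 * ξ)
  rate : ∀ n : ℕ, 1 ≤ n → n * φ h ≤ free P ω β h n + M * (n : ℝ) ^ ξ
  var : ∀ n : ℕ, M ≤ n → (n : ℝ) ^ (2 * t0) ≤
      ∫ x, (lw ω β h 0 0 n x - free P ω β h n) ^ 2 ∂P

lemma core_est (hc : S_CONC) (hsup : S_SUP) (hd : 1 ≤ d) {Ω : Type} [MeasurableSpace Ω]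
    {P : Measure Ω} [IsProbabilityMeasure P] {ω : ℕ → (Fin d → ℤ) → Ω → ℝ} (he : IsEnv P ω)
    (hexp : ∀ b : ℝ, Integrable (fun x => Real.exp (b * ω 1 0 x)) P) (β : ℝ)
    {φ : (Fin d → ℝ) → ℝ} (hfr : ∀ (h : Fin d → ℝ) (n : ℕ), free P ω β h n ≤ n * φ h)
    {b κ ξ t0 γ e M K J : ℝ} (hb0 : 0 ≤ b) (hb1 : b ≤ 1) (hγ : 0 < γ) (hξ : 0 < ξ)
    (hM : 0 ≤ M) (hK : 0 ≤ K) (hJ : 0 ≤ J)
    (c1 : 2 * (2 * ((1 + γ) * b) - 1 + γ) ≤ e) (c0 : 0 ≤ e)
    (c2 : (1 + γ) * (2 * ξ - κ / 2) ≤ e) (c3 : ξ * (2 + 4 * γ / 3) ≤ e) :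
    ∃ C : ℝ, ∀ m : ℕ, 1 ≤ m → ∀ h h' v v' : Fin d → ℝ,
      Cond P ω β φ b κ ξ t0 M h v → Cond P ω β φ b κ ξ t0 M h' v' →
      9 * (m : ℝ) ^ ((1 + γ) * b - 1) ≤ ‖v' - v‖ →
      ‖v' - v‖ ≤ J * (9 * (m : ℝ) ^ ((1 + γ) * b - 1)) →
      ‖h' - h‖ ≤ K * ‖v' - v‖ →
      ∃ n : ℕ, (m : ℝ) ^ (1 + γ) ≤ n ∧
        ∫ x, (lw ω β h 0 0 n x - free P ω β h n) ^ 2 ∂P ≤ C * (m : ℝ) ^ e := by
  set B : ℝ := e / 2 with hB
  have hB0 : 0 ≤ B := by rw [hB]; linarith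
  set R0 : ℝ := 4 + 72 * (d * K * J) + 648 * (d * K * J ^ 2) with hR0
  set a : ℝ := 2 * ξ - κ / 2 with ha
  refine ⟨2 * (R0 ^ 2 + 13 * M * 4 ^ |a|) + 6 * (2 * M + 27 * (M * 4 ^ (4 * ξ) + M + 16 * M ^ 4) +
    4 * M ^ 2 + (M + 1)), ?_⟩
  intro m hm h h' v v' hC hC' hT1 hT2 hhK
  set x : ℝ := (m : ℝ) with hx
  have hx1 : 1 ≤ x := by rw [hx]; exact_mod_cast hm
  have hx0 : 0 < x := by linarith
  have hd0 : (0 : ℝ) ≤ d := Nat.cast_nonneg d
  set g : ℝ := (1 + γ) * b with hg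
  -- the splitting
  set q : ℕ := ⌈x ^ γ⌉₊ with hq
  have hxγ : 1 ≤ x ^ γ := Real.one_le_rpow hx1 hγ.le
  have hq1 : x ^ γ ≤ q := Nat.le_ceil _
  have hq2 : (q : ℝ) ≤ 2 * x ^ γ := by
    have := Nat.ceil_lt_add_one (show 0 ≤ x ^ γ by positivity)
    linarith
  have hq3 : 1 ≤ q := by
    have : (1 : ℝ) ≤ q := hxγ.trans hq1
    exact_mod_cast this
  have hs := hsup d hd Ω P ω he hexp β h
  obtain ⟨j, hj1, hj2, hj3⟩ := split (f := free P ω β h) (Pool.Agent.N427.SE.UPX.free_z P ω β h)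
    hs (hfr h) m hq3 (hC.rate m hm)
  set n : ℕ := m + j * m with hn
  set s : ℝ := free P ω β h n - free P ω β h m - free P ω β h (j * m) with hsd
  have hs0 : 0 ≤ s := by
    have := hs m (j * m)
    rw [hsd]
    linarith
  have hncast : (n : ℝ) = (1 + j) * x := by
    rw [hn, hx]; push_cast; ring
  have hxg1 : x ^ (1 + γ) = x ^ γ * x := by
    rw [Real.rpow_add hx0, Real.rpow_one, mul_comm]
  have hn1 : x ^ (1 + γ) ≤ n := by
    rw [hncast, hxg1]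
    apply mul_le_mul_of_nonneg_right _ hx0.le
    have : (q : ℝ) ≤ j := by exact_mod_cast hj1
    linarith
  have hn2 : (n : ℝ) ≤ 4 * x ^ (1 + γ) := by
    rw [hncast, hxg1, ← mul_assoc]
    apply mul_le_mul_of_nonneg_right _ hx0.le
    have : (1 : ℝ) + j ≤ 2 * q := by
      have h1 : 1 + j ≤ 2 * q := by omega
      exact_mod_cast h1
    linarith
  have hN1 : 1 ≤ x ^ (1 + γ) := Real.one_le_rpow hx1 (by linarith)
  have hnp : (1 : ℝ) ≤ n := hN1.trans hn1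
  have hn0 : (0 : ℝ) < n := by linarith
  have hnn : 1 ≤ n := by exact_mod_cast hnp
  have hmono : ∀ {p p' : ℝ}, p ≤ p' → x ^ p ≤ x ^ p' := fun hpp =>
    Real.rpow_le_rpow_of_exponent_le hx1 hpp
  have hpow : ∀ p : ℝ, 0 ≤ p → (n : ℝ) ^ p ≤ 4 ^ p * x ^ ((1 + γ) * p) := by
    intro p hp
    calc (n : ℝ) ^ p ≤ (4 * x ^ (1 + γ)) ^ p := Real.rpow_le_rpow hn0.le hn2 hp
      _ = 4 ^ p * x ^ ((1 + γ) * p) := by
        rw [Real.mul_rpow (by norm_num) (by positivity), ← Real.rpow_mul hx0.le]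
  -- the radius
  have hr : (n : ℝ) ^ b ≤ 4 * x ^ g := by
    refine (hpow b hb0).trans ?_
    apply mul_le_mul_of_nonneg_right _ (by positivity)
    calc (4 : ℝ) ^ b ≤ 4 ^ (1 : ℝ) := Real.rpow_le_rpow_of_exponent_le (by norm_num) hb1
      _ = 4 := Real.rpow_one _
  have hxx : x * x ^ (g - 1) = x ^ g := by
    nth_rewrite 1 [← Real.rpow_one x]
    rw [← Real.rpow_add hx0]
    congr 1
    ring
  have hsep : ∃ k, 2 * (n : ℝ) ^ b < m * |v' k - v k| := by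
    obtain ⟨k, hk⟩ := exists_coord (x := v' - v) (by positivity) hT1
    refine ⟨k, ?_⟩
    have h1 : x * (9 * x ^ (g - 1)) ≤ x * |v' k - v k| := mul_le_mul_of_nonneg_left hk hx0.le
    have h2 : x * (9 * x ^ (g - 1)) = 9 * x ^ g := by rw [← hxx]; ring
    have h3 : 0 < x ^ g := by positivity
    linarith
  -- the variance of the first part
  have hV : ∫ y, (lw ω β h 0 0 m y - free P ω β h m) ^ 2 ∂P ≤ (M + 1) * x ^ (2 * ξ) := by
    have hm4 := int_four hc hd he hexp β h m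
    have hms : AEStronglyMeasurable (fun y => lw ω β h 0 0 m y - free P ω β h m) P :=
      ((hc d hd Ω P ω he hexp β h 0 0 m).1.sub_const _).aestronglyMeasurable
    have h2 := int_two hms hm4
    have e1 : ∀ y, (lw ω β h 0 0 m y - free P ω β h m) ^ 4 =
        ((lw ω β h 0 0 m y - free P ω β h m) ^ 2) ^ 2 := fun y => by ring
    have h5 : Integrable (fun y => ((lw ω β h 0 0 m y - free P ω β h m) ^ 2) ^ 2) P := by
      simpa only [← e1] using hm4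
    have h6 := jensen_two (hms.pow 2) h5
    simp only [Pi.pow_apply] at h6
    simp_rw [← e1] at h6
    have h7 := h6.trans (hC.four m hm)
    have h8 : M * x ^ (4 * ξ) ≤ ((M + 1) * x ^ (2 * ξ)) ^ 2 := by
      have e2 : (x ^ (2 * ξ)) ^ 2 = x ^ (4 * ξ) := by
        rw [← Real.rpow_natCast, ← Real.rpow_mul hx0.le]
        congr 1
        push_cast
        ring
      rw [mul_pow, e2]
      apply mul_le_mul_of_nonneg_right _ (by positivity)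
      nlinarith
    exact abs_le_of_sq_le_sq' (h7.trans h8) (by positivity) |>.2
  -- the main bound
  have hvb := var_bound (m := m) (k := j * m) hc hd he hexp β (h := h) (h' := h') (v := v)
    (v' := v') (r := (n : ℝ) ^ b) hsep (ε := M * (n : ℝ) ^ (-κ)) (Q := M * (n : ℝ) ^ (4 * ξ))
    (Q' := M * x ^ (4 * ξ)) (V := (M + 1) * x ^ (2 * ξ)) (L := x ^ (ξ * (1 + 4 * γ / 3)))
    (L2 := (n : ℝ) ^ (2 * ξ + κ / 2)) (hC.conf n hnn) (hC'.conf n hnn) (hC.four n hnn)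
    (hC.four m hm) hV (by positivity) (by positivity)
  rw [← hn, ← hsd] at hvb
  refine ⟨n, hn1, hvb.trans ?_⟩
  -- the estimates
  have hxe : 1 ≤ x ^ e := Real.one_le_rpow hx1 c0
  have hlog2 : Real.log 2 ≤ 1 := by
    have := Real.log_two_lt_d9
    linarith
  have hlog0 : 0 ≤ Real.log 2 := Real.log_nonneg (by norm_num)
  have hxB : 1 ≤ x ^ B := Real.one_le_rpow hx1 hB0
  have hT2' : ‖v' - v‖ ≤ 9 * J * x ^ (g - 1) := by linarith
  have hrho := rho_le (n := n) (r := (n : ℝ) ^ b) (by positivity) hK hT2' hhK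
  have r1 : d * K * (9 * J * x ^ (g - 1)) * (n : ℝ) ^ b ≤ 36 * (d * K * J) * x ^ B := by
    calc d * K * (9 * J * x ^ (g - 1)) * (n : ℝ) ^ b ≤
          d * K * (9 * J * x ^ (g - 1)) * (4 * x ^ g) :=
          mul_le_mul_of_nonneg_left hr (by positivity)
      _ = 36 * (d * K * J) * x ^ (g - 1 + g) := by rw [Real.rpow_add hx0]; ring
      _ ≤ _ := by
        apply mul_le_mul_of_nonneg_left _ (by positivity)
        apply hmono
        rw [hB]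
        linarith
  have r2 : n * (d * K * (9 * J * x ^ (g - 1)) * (9 * J * x ^ (g - 1))) ≤
      324 * (d * K * J ^ 2) * x ^ B := by
    calc n * (d * K * (9 * J * x ^ (g - 1)) * (9 * J * x ^ (g - 1))) ≤
          4 * x ^ (1 + γ) * (d * K * (9 * J * x ^ (g - 1)) * (9 * J * x ^ (g - 1))) :=
          mul_le_mul_of_nonneg_right hn2 (by positivity)
      _ = 324 * (d * K * J ^ 2) * x ^ ((1 + γ) + (g - 1) + (g - 1)) := by
        rw [Real.rpow_add hx0 (1 + γ + (g - 1)), Real.rpow_add hx0 (1 + γ)]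
        ring
      _ ≤ _ := by
        apply mul_le_mul_of_nonneg_left _ (by positivity)
        apply hmono
        rw [hB]
        linarith
  have hrho0 : 0 ≤ rho n ((n : ℝ) ^ b) h h' v v' := by
    unfold rho
    have : 0 ≤ ∑ k, |h' k - h k| := Finset.sum_nonneg fun _ _ => abs_nonneg _
    have : 0 ≤ ∑ k, |h' k - h k| * |v' k - v k| :=
      Finset.sum_nonneg fun _ _ => mul_nonneg (abs_nonneg _) (abs_nonneg _)
    positivity
  have r3 : 2 * rho n ((n : ℝ) ^ b) h h' v v' + 2 * Real.log 2 ≤ R0 * x ^ B := by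
    have e1 : R0 * x ^ B = 4 * x ^ B + 72 * (d * K * J) * x ^ B +
        648 * (d * K * J ^ 2) * x ^ B := by rw [hR0]; ring
    rw [e1]
    linarith only [hrho, r1, r2, hlog2, hxB]
  have r4 : (2 * rho n ((n : ℝ) ^ b) h h' v v' + 2 * Real.log 2) ^ 2 ≤ R0 ^ 2 * x ^ e := by
    refine (pow_le_pow_left₀ (by positivity) r3 2).trans (le_of_eq ?_)
    rw [mul_pow, ← Real.rpow_natCast (x ^ B) 2, ← Real.rpow_mul hx0.le]
    congr 2
    rw [hB]
    push_cast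
    ring
  have r5 : 8 * (M * (n : ℝ) ^ (4 * ξ)) / (n : ℝ) ^ (2 * ξ + κ / 2) = 8 * M * (n : ℝ) ^ a := by
    rw [mul_div_assoc, mul_div_assoc, ← Real.rpow_sub hn0, ← mul_assoc]
    congr 2
    rw [ha]
    ring
  have r6 : 5 * (n : ℝ) ^ (2 * ξ + κ / 2) * (M * (n : ℝ) ^ (-κ)) = 5 * M * (n : ℝ) ^ a := by
    have : (n : ℝ) ^ (2 * ξ + κ / 2) * (n : ℝ) ^ (-κ) = (n : ℝ) ^ a := by
      rw [← Real.rpow_add hn0]
      congr 1
      rw [ha]
      ring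
    rw [← this]
    ring
  have r7 : (n : ℝ) ^ a ≤ 4 ^ |a| * x ^ e := by
    rcases le_total 0 a with h0 | h0
    · rw [abs_of_nonneg h0]
      exact (hpow a h0).trans (mul_le_mul_of_nonneg_left (hmono c2) (by positivity))
    · calc (n : ℝ) ^ a ≤ 1 := Real.rpow_le_one_of_one_le_of_nonpos hnp h0
        _ ≤ 4 ^ |a| * x ^ e :=
          one_le_mul_of_one_le_of_one_le (Real.one_le_rpow (by norm_num) (abs_nonneg _)) hxe
  have r7' : 13 * M * (n : ℝ) ^ a ≤ 13 * M * 4 ^ |a| * x ^ e := by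
    rw [mul_assoc (13 * M)]
    exact mul_le_mul_of_nonneg_left r7 (by positivity)
  have hs2 : s ≤ 2 * M * x ^ ξ := by linarith
  have r8 : x ^ (ξ * (1 + 4 * γ / 3)) * s ≤ 2 * M * x ^ e := by
    calc x ^ (ξ * (1 + 4 * γ / 3)) * s ≤ x ^ (ξ * (1 + 4 * γ / 3)) * (2 * M * x ^ ξ) :=
          mul_le_mul_of_nonneg_left hs2 (by positivity)
      _ = 2 * M * x ^ (ξ * (1 + 4 * γ / 3) + ξ) := by rw [Real.rpow_add hx0]; ring
      _ ≤ _ := by
        apply mul_le_mul_of_nonneg_left _ (by positivity)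
        apply hmono
        linarith only [c3]
  have hγξ : 0 < γ * ξ := mul_pos hγ hξ
  have hexp4 : 4 * ξ ≤ (1 + γ) * (4 * ξ) := by linarith only [hγξ]
  have r9 : M * (n : ℝ) ^ (4 * ξ) ≤ M * 4 ^ (4 * ξ) * x ^ ((1 + γ) * (4 * ξ)) := by
    rw [mul_assoc M]
    exact mul_le_mul_of_nonneg_left (hpow (4 * ξ) (by linarith)) hM
  have r10 : M * x ^ (4 * ξ) ≤ M * x ^ ((1 + γ) * (4 * ξ)) :=
    mul_le_mul_of_nonneg_left (hmono hexp4) hM
  have r11 : s ^ 4 ≤ 16 * M ^ 4 * x ^ ((1 + γ) * (4 * ξ)) := by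
    calc s ^ 4 ≤ (2 * M * x ^ ξ) ^ 4 := pow_le_pow_left₀ hs0 hs2 4
      _ = 16 * M ^ 4 * x ^ (4 * ξ) := by
        rw [mul_pow, ← Real.rpow_natCast (x ^ ξ) 4, ← Real.rpow_mul hx0.le]
        have : ξ * ((4 : ℕ) : ℝ) = 4 * ξ := by push_cast; ring
        rw [this]
        ring
      _ ≤ _ := mul_le_mul_of_nonneg_left (hmono hexp4) (by positivity)
  have hL2 : (x ^ (ξ * (1 + 4 * γ / 3))) ^ 2 = x ^ (2 * (ξ * (1 + 4 * γ / 3))) := by
    rw [← Real.rpow_natCast, ← Real.rpow_mul hx0.le]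
    congr 1
    push_cast
    ring
  have r12 : 27 * (M * (n : ℝ) ^ (4 * ξ) + M * x ^ (4 * ξ) + s ^ 4) /
      (x ^ (ξ * (1 + 4 * γ / 3))) ^ 2 ≤ 27 * (M * 4 ^ (4 * ξ) + M + 16 * M ^ 4) * x ^ e := by
    rw [hL2, div_le_iff₀ (by positivity), mul_assoc, ← Real.rpow_add hx0]
    have h1 : x ^ ((1 + γ) * (4 * ξ)) ≤ x ^ (e + 2 * (ξ * (1 + 4 * γ / 3))) := by
      apply hmono
      have e1 : (1 + γ) * (4 * ξ) = ξ * (2 + 4 * γ / 3) + 2 * (ξ * (1 + 4 * γ / 3)) := by ring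
      linarith only [e1, c3]
    calc 27 * (M * (n : ℝ) ^ (4 * ξ) + M * x ^ (4 * ξ) + s ^ 4) ≤
          27 * (M * 4 ^ (4 * ξ) + M + 16 * M ^ 4) * x ^ ((1 + γ) * (4 * ξ)) := by
          linarith only [r9, r10, r11]
      _ ≤ _ := mul_le_mul_of_nonneg_left h1 (by positivity)
  have hxi : x ^ (2 * ξ) ≤ x ^ e := by
    apply hmono
    linarith only [hγξ, c3]
  have r13 : s ^ 2 ≤ 4 * M ^ 2 * x ^ e := by
    calc s ^ 2 ≤ (2 * M * x ^ ξ) ^ 2 := pow_le_pow_left₀ hs0 hs2 2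
      _ = 4 * M ^ 2 * x ^ (2 * ξ) := by
        rw [mul_pow, ← Real.rpow_natCast (x ^ ξ) 2, ← Real.rpow_mul hx0.le]
        have : ξ * ((2 : ℕ) : ℝ) = 2 * ξ := by push_cast; ring
        rw [this]
        ring
      _ ≤ _ := mul_le_mul_of_nonneg_left hxi (by positivity)
  have r14 : (M + 1) * x ^ (2 * ξ) ≤ (M + 1) * x ^ e :=
    mul_le_mul_of_nonneg_left hxi (by linarith)
  rw [r5, r6]
  linarith only [r4, r7', r8, r12, r13, r14]

end Pool.Agent.Z97H.KZ
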