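import Pool.Agent.N662.SE.Exp

/-!
# The exponents in the scaling relation
-/

set_option autoImplicit false

open MeasureTheory

namespace Pool.Agent.Z97H.KZ

open TH967.DP (Step pos energy)
open Pool.Agent.N662.SE

variable {d : ℕ}

/-- The largest distance of the walk from the line of slope `v`: `max_{0 ≤ i ≤ n} ‖S_i - i v‖`
(`dev v w i` is the Euclidean norm of `S_i - i v`). -/
noncomputable def maxDev (v : Fin d → ℝ) {n : ℕ} (w : Fin n → Step d) : ℝ :=
  (Finset.range (n + 1)).sup' Finset.nonempty_range_add_one fun i => dev v w i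

/-- The expectation `E_n F` of a function of the walk under the polymer measure with drift `h`. -/
noncomputable def polymerE (β : ℝ) (h : Fin d → ℝ) (η : ℕ → (Fin d → ℤ) → ℝ) (n : ℕ)
    (F : (Fin n → Step d) → ℝ) : ℝ :=
  (∑ w : Fin n → Step d, F w * weight β h η w) / ∑ w : Fin n → Step d, weight β h η w

/-- The wandering exponent of order `p` of the polymer with drift `h` around the line of slope
`v`: the infimum of the `b > 0` such that for some `C`, `E E_n max_{i ≤ n} ‖S_i - i v‖^p ≤ C n^(pb)`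
for all `n ≥ 1`. -/
noncomputable def wanderP {Ω : Type} [MeasurableSpace Ω] (P : Measure Ω)
    (ω : ℕ → (Fin d → ℤ) → Ω → ℝ) (β p : ℝ) (h v : Fin d → ℝ) : ℝ :=
  sInf {b : ℝ | 0 < b ∧ ∃ C : ℝ, ∀ n : ℕ, 1 ≤ n →
    ∫ x, polymerE β h (fun i y => ω i y x) n (fun w => maxDev v w ^ p) ∂P ≤ C * (n : ℝ) ^ (p * b)}

/-- The upper fluctuation exponent at the drift `h`: the infimum of the `ξ > 0` such that for every
order `k` there is `C` with `E |log Z_n - E log Z_n|^k ≤ C n^(kξ)` for all `n ≥ 1`. -/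
noncomputable def flucUp {Ω : Type} [MeasurableSpace Ω] (P : Measure Ω)
    (ω : ℕ → (Fin d → ℤ) → Ω → ℝ) (β : ℝ) (h : Fin d → ℝ) : ℝ :=
  sInf {ξ : ℝ | 0 < ξ ∧ ∀ k : ℕ, ∃ C : ℝ, ∀ n : ℕ, 1 ≤ n →
    ∫ x, |logZ β h (fun i y => ω i y x) n - ∫ x', logZ β h (fun i y => ω i y x') n ∂P| ^ k ∂P ≤
      C * (n : ℝ) ^ (k * ξ)}

end Pool.Agent.Z97H.KZ
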