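import Pool.Agent.Z97H.KZ.Fin

/-!
# The scaling relation: the diffusive lower bound and the upper bound
-/

set_option autoImplicit false

open MeasureTheory ProbabilityTheory Filter Topology

namespace Pool.Agent.Z97H.KZ

open TH967.DP (Step pos energy)
open Pool.Agent.N662.SE

variable {d : ℕ}

/-- the concentration rate -/
theorem ratex : S_RATEX :=
  Pool.Agent.N316.SE.Ratex.main Pool.Agent.Z97H.DP.rate
    (Pool.Agent.N803.SE.DBLX.main Pool.Agent.Z97H.DP.conc Pool.Agent.N951.SE.t)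

/-- The second exceptional set of slopes. -/
def Nset2 {Ω : Type} [MeasurableSpace Ω] (P : Measure Ω)
    (ω : ℕ → (Fin d → ℤ) → Ω → ℝ) (β : ℝ) : Set (Fin d → ℝ) :=
  {v : Fin d → ℝ | ∃ h : Fin d → ℝ, ∃ η : ℝ, 0 < η ∧ ∀ ε : ℝ, 0 < ε → ∀ᶠ n : ℕ in atTop,
      η ≤ ∫ x, prob β h (fun i y => ω i y x) n (Pool.Agent.Z97H.DP.box v (ε * Real.sqrt n) n) ∂P}

/-- the diffusive lower bound -/
theorem half_le (hd : 1 ≤ d) {Ω : Type} [MeasurableSpace Ω]
    {P : Measure Ω} [IsProbabilityMeasure P] {ω : ℕ → (Fin d → ℤ) → Ω → ℝ} (he : IsEnv P ω)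
    (β : ℝ) {h v : Fin d → ℝ} {p : ℝ} (hp : 0 < p) (hv : v ∉ Nset2 P ω β) :
    1 / 2 ≤ wanderP P ω β p h v := by
  by_contra hcon
  push Not at hcon
  obtain ⟨b₀, ⟨hb₀0, C₀, hC₀⟩, hb₀⟩ :=
    exists_lt_of_csInf_lt ⟨2, two_mem_wP (P := P) hd he.meas β h v hp⟩ hcon
  obtain ⟨b, hb1, hb2⟩ := exists_between hb₀
  apply hv
  refine ⟨h, 1 / 2, by norm_num, fun ε hε => ?_⟩
  have hk : 0 < p * (b - b₀) := mul_pos hp (by linarith)
  have ev1 : ∀ᶠ n : ℕ in atTop, C₀ * (n : ℝ) ^ (-(p * (b - b₀))) ≤ 1 / 2 := by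
    have e1 : Tendsto (fun n : ℕ => C₀ * (n : ℝ) ^ (-(p * (b - b₀)))) atTop (𝓝 0) := by
      have := ((tendsto_rpow_neg_atTop hk).comp tendsto_natCast_atTop_atTop).const_mul C₀
      rw [mul_zero] at this
      exact this
    exact (e1.eventually (gt_mem_nhds (by norm_num : (0 : ℝ) < 1 / 2))).mono fun n hn => hn.le
  filter_upwards [ev1, pow_dom' hb2 (1 / ε), eventually_ge_atTop 1] with n h1 h2 hn
  have h3 := conf_of_moment hd he.meas hp hC₀ b n hn
  have h4 : (n : ℝ) ^ b ≤ ε * Real.sqrt n := by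
    rw [Real.sqrt_eq_rpow]
    rw [div_mul_eq_mul_div, one_mul, div_le_iff₀ hε] at h2
    linarith
  have h5 : tb v ((n : ℝ) ^ b) n ⊆ Pool.Agent.Z97H.DP.box v (ε * Real.sqrt n) n :=
    fun w hw k => (hw n le_rfl k).trans h4
  have h6 := Pool.Agent.Z97H.DP.integral_prob_mono (P := P) hd he.meas β h h5
  linarith

/-- the upper bound -/
theorem upper_rel (hd : 1 ≤ d) {Ω : Type} [MeasurableSpace Ω]
    {P : Measure Ω} [IsProbabilityMeasure P] {ω : ℕ → (Fin d → ℤ) → Ω → ℝ} (he : IsEnv P ω)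
    (hexp : ∀ b : ℝ, Integrable (fun x => Real.exp (b * ω 1 0 x)) P) (β : ℝ) :
    ∀ᵐ h : Fin d → ℝ, ∃ v : Fin d → ℝ, ∀ p : ℝ, 0 < p →
      2 * wanderP P ω β p h v - 1 ≤ chiUp P ω β h := by
  have hc : S_CONC := Pool.Agent.Z97H.DP.conc
  filter_upwards [upE hc Pool.Agent.N951.SE.t ratex Pool.Agent.N281.SE.curv
    Pool.Agent.N340.SE.pp hd P ω he hexp β] with h hh
  obtain ⟨v, hv⟩ := hh
  refine ⟨v, fun p hp => ?_⟩
  have key : ∀ ξ : ℝ, 0 < ξ → ξ < 1 → Concentrated P ω β h ξ →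
      wanderP P ω β p h v ≤ (1 + ξ) / 2 := by
    intro ξ hξ0 hξ1 hξ
    by_contra hcon
    push Not at hcon
    obtain ⟨b, hb1, hb2⟩ := exists_between (lt_min hcon (by linarith : (1 + ξ) / 2 < 1))
    have hb3 := lt_min_iff.1 hb2
    rw [concentrated_iff hd fun h n => (hc d hd Ω P ω he hexp β h 0 0 n).2.1] at hξ
    obtain ⟨U, hU, hhU, α, C0, hα, hC⟩ := hξ
    obtain ⟨C, hCC⟩ := hv U hU hhU ξ α C0 hξ0 hξ1 hα hC b hb1 hb3.2.le p
    have h1 : wanderP P ω β p h v ≤ b :=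
      csInf_le ⟨0, fun _ hξ => hξ.1.le⟩
        ⟨by linarith, moment_of_conf hd he.meas hp (by linarith) hCC⟩
    linarith [hb3.1]
  apply le_csInf
  · exact ⟨1 / 2, by norm_num, concentrated_half hc hd he hexp β h⟩
  · rintro ξ ⟨hξ0, hξ⟩
    rcases lt_or_ge ξ 1 with h1 | h1
    · have := key ξ hξ0 h1 hξ
      linarith
    · have := key (1 / 2) (by norm_num) (by norm_num) (concentrated_half hc hd he hexp β h)
      linarith

/-- The scaling relation. -/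
theorem relation (hd : 1 ≤ d) {Ω : Type} [MeasurableSpace Ω]
    (P : Measure Ω) [IsProbabilityMeasure P] (ω : ℕ → (Fin d → ℤ) → Ω → ℝ) (he : IsEnv P ω)
    (hexp : ∀ b : ℝ, Integrable (fun x => Real.exp (b * ω 1 0 x)) P) (β : ℝ) :
    ∃ N : Set (Fin d → ℝ), volume N = 0 ∧
      (∀ v, v ∉ N → ∀ (h : Fin d → ℝ) (p : ℝ), 0 < p →
        1 / 2 ≤ wanderP P ω β p h v ∧
        chiUp P ω β h * (chi P ω β h - (2 * wanderP P ω β p h v - 1)) ≤
          (6 + 8 * chiUp P ω β h / p) * (chiUp P ω β h - chi P ω β h) ∧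
        (chi P ω β h = chiUp P ω β h → chi P ω β h ≤ 2 * wanderP P ω β p h v - 1)) ∧
      ∀ᵐ h : Fin d → ℝ, ∃ v : Fin d → ℝ,
        (∀ p : ℝ, 0 < p → 2 * wanderP P ω β p h v - 1 ≤ chiUp P ω β h) ∧
        (v ∉ N → chi P ω β h = chiUp P ω β h →
          ∀ p : ℝ, 0 < p → chi P ω β h = 2 * wanderP P ω β p h v - 1) := by
  have hc : S_CONC := Pool.Agent.Z97H.DP.conc
  obtain ⟨φ, -, hfr, hrate⟩ := ratex d hd Ω P ω he hexp β
  obtain ⟨φ', C', -, hφ'⟩ := Pool.Agent.Z97H.DP.rate d hd Ω P ω he hexp β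
  have hN2 : volume (Nset2 P ω β) = 0 :=
    Pool.Agent.Z97H.DP.null hd P ω he hexp β (fun h n => (hφ' h n).1) (fun h n => (hφ' h n).2)
  have hN1 := Nset_null hd he hexp β hfr
  set N : Set (Fin d → ℝ) := Nset P ω β φ ∪ Nset2 P ω β with hN
  have hN0 : volume N = 0 := measure_union_null hN1 hN2
  have part1 : ∀ v, v ∉ N → ∀ (h : Fin d → ℝ) (p : ℝ), 0 < p →
        1 / 2 ≤ wanderP P ω β p h v ∧
        chiUp P ω β h * (chi P ω β h - (2 * wanderP P ω β p h v - 1)) ≤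
          (6 + 8 * chiUp P ω β h / p) * (chiUp P ω β h - chi P ω β h) ∧
        (chi P ω β h = chiUp P ω β h → chi P ω β h ≤ 2 * wanderP P ω β p h v - 1) := by
    intro v hv h p hp
    have v1 : v ∉ Nset P ω β φ := fun hh => hv (Or.inl hh)
    have v2 : v ∉ Nset2 P ω β := fun hh => hv (Or.inr hh)
    have a1 := half_le hd he β hp v2 (h := h)
    have a2 := main_ineq hd he hexp β hrate hp v1 a1
    refine ⟨a1, a2, fun heq => ?_⟩
    have h0 : 0 ≤ chi P ω β h := Real.sSup_nonneg fun t ht => ht.1.le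
    rcases h0.lt_or_eq with h3 | h3
    · rw [← heq, sub_self, mul_zero] at a2
      by_contra hcon
      push Not at hcon
      have : 0 < chi P ω β h * (chi P ω β h - (2 * wanderP P ω β p h v - 1)) :=
        mul_pos h3 (by linarith)
      linarith
    · linarith
  refine ⟨N, hN0, part1, ?_⟩
  filter_upwards [upper_rel hd he hexp β] with h hh
  obtain ⟨v, hv⟩ := hh
  refine ⟨v, hv, fun hvN heq p hp => ?_⟩
  obtain ⟨-, -, a3⟩ := part1 v hvN h p hp
  have a4 := hv p hp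
  have a5 := a3 heq
  linarith

end Pool.Agent.Z97H.KZ
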