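import Pool.Agent.N662.SE.Exp2

/-!
# Resampling a part of the environment

`mx A ω` is the environment `ω` in which the sites in `A` are resampled: it lives on `Ω × Ω`.
-/

set_option autoImplicit false

open MeasureTheory ProbabilityTheory Filter Topology

namespace Pool.Agent.Z97H.KZ

open TH967.DP Pool.Agent.N662.SE

variable {d : ℕ}

open Classical in
/-- the environment with the sites of `A` resampled -/
noncomputable def mx {Ω : Type} (A : Set (ℕ × (Fin d → ℤ))) (ω : ℕ → (Fin d → ℤ) → Ω → ℝ) :
    ℕ → (Fin d → ℤ) → Ω × Ω → ℝ := fun i y p => if (i, y) ∈ A then ω i y p.2 else ω i y p.1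

lemma mx_of_mem {Ω : Type} {A : Set (ℕ × (Fin d → ℤ))} {ω : ℕ → (Fin d → ℤ) → Ω → ℝ} {i : ℕ}
    {y : Fin d → ℤ} (h : (i, y) ∈ A) (p : Ω × Ω) : mx A ω i y p = ω i y p.2 := if_pos h

lemma mx_of_notMem {Ω : Type} {A : Set (ℕ × (Fin d → ℤ))} {ω : ℕ → (Fin d → ℤ) → Ω → ℝ} {i : ℕ}
    {y : Fin d → ℤ} (h : (i, y) ∉ A) (p : Ω × Ω) : mx A ω i y p = ω i y p.1 := if_neg h

lemma measurable_mx {Ω : Type} [MeasurableSpace Ω] (A : Set (ℕ × (Fin d → ℤ)))
    {ω : ℕ → (Fin d → ℤ) → Ω → ℝ} (hm : ∀ i y, Measurable (ω i y)) (i : ℕ) (y : Fin d → ℤ) :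
    Measurable (mx A ω i y) := by
  by_cases h : (i, y) ∈ A
  · have : mx A ω i y = fun p => ω i y p.2 := funext fun p => mx_of_mem h p
    rw [this]
    exact (hm i y).comp measurable_snd
  · have : mx A ω i y = fun p => ω i y p.1 := funext fun p => mx_of_notMem h p
    rw [this]
    exact (hm i y).comp measurable_fst

open Classical in
lemma measurable_mix {ι : Type} (B : Set ι) : Measurable
    (fun (p : (ι → ℝ) × (ι → ℝ)) (s : ι) => if s ∈ B then p.2 s else p.1 s) := by
  rw [measurable_pi_iff]
  intro s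
  by_cases h : s ∈ B
  · simp only [if_pos h]
    exact (measurable_pi_apply s).comp measurable_snd
  · simp only [if_neg h]
    exact (measurable_pi_apply s).comp measurable_fst

open Classical in
lemma pi_mix {ι : Type} [Fintype ι] (μ : Measure ℝ) [IsProbabilityMeasure μ] (B : Set ι) :
    ((Measure.pi fun _ : ι => μ).prod (Measure.pi fun _ : ι => μ)).map
      (fun (p : (ι → ℝ) × (ι → ℝ)) (s : ι) => if s ∈ B then p.2 s else p.1 s) =
      Measure.pi fun _ : ι => μ := by
  symm
  apply Measure.pi_eq
  intro S hS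
  rw [Measure.map_apply (measurable_mix B) (MeasurableSet.univ_pi hS)]
  have h1 : (fun (p : (ι → ℝ) × (ι → ℝ)) (s : ι) => if s ∈ B then p.2 s else p.1 s) ⁻¹'
      (Set.univ.pi S) = (Set.univ.pi fun s => if s ∈ B then Set.univ else S s) ×ˢ
        (Set.univ.pi fun s => if s ∈ B then S s else Set.univ) := by
    ext p
    simp only [Set.mem_preimage, Set.mem_univ_pi, Set.mem_prod]
    constructor
    · intro h
      refine ⟨fun s => ?_, fun s => ?_⟩
      · by_cases hs : s ∈ B
        · simp [hs]
        · have := h s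
          simpa [hs] using this
      · by_cases hs : s ∈ B
        · have := h s
          simpa [hs] using this
        · simp [hs]
    · rintro ⟨ha, hb⟩ s
      by_cases hs : s ∈ B
      · have := hb s
        simpa [hs] using this
      · have := ha s
        simpa [hs] using this
  rw [h1, Measure.prod_prod, Measure.pi_pi, Measure.pi_pi, ← Finset.prod_mul_distrib]
  apply Finset.prod_congr rfl
  intro s _
  by_cases hs : s ∈ B
  · simp [hs]
  · simp [hs]

lemma measurable_res {Ω : Type} [MeasurableSpace Ω]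
    {ω : ℕ → (Fin d → ℤ) → Ω → ℝ} (hm : ∀ i y, Measurable (ω i y)) (n : ℕ) :
    Measurable (fun x => res n (fun i y => ω i y x)) := by
  rw [measurable_pi_iff]
  intro s
  exact hm _ _

/-- the environment seen in the first `n` steps has the same law after resampling -/
lemma ident_mx {Ω : Type} [MeasurableSpace Ω] {P : Measure Ω} [IsProbabilityMeasure P]
    {ω : ℕ → (Fin d → ℤ) → Ω → ℝ} (he : IsEnv P ω) (A : Set (ℕ × (Fin d → ℤ))) (n : ℕ) :
    IdentDistrib (fun p : Ω × Ω => res n (fun i y => mx A ω i y p))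
      (fun x => res n (fun i y => ω i y x)) (P.prod P) P := by
  classical
  haveI : IsProbabilityMeasure (P.map (ω 1 0)) :=
    Measure.isProbabilityMeasure_map (he.meas 1 0).aemeasurable
  refine ⟨(measurable_res (measurable_mx A he.meas) n).aemeasurable,
    (measurable_res he.meas n).aemeasurable, ?_⟩
  have h0 : P.map (fun x => res n (fun i y => ω i y x)) =
      Measure.pi (fun _ : Site d n => P.map (ω 1 0)) :=
    law he (κ := Site d n) (φ := fun s => s.1) Subtype.val_injective
  have hR := measurable_res he.meas n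
  have h1 : (fun p : Ω × Ω => res n (fun i y => mx A ω i y p)) =
      (fun (p : (Site d n → ℝ) × (Site d n → ℝ)) (s : Site d n) =>
        if s ∈ (Subtype.val ⁻¹' A : Set (Site d n)) then p.2 s else p.1 s) ∘
      (Prod.map (fun x => res n (fun i y => ω i y x)) (fun x => res n (fun i y => ω i y x))) := by
    funext p
    funext s
    simp only [Function.comp_apply, Prod.map, Set.mem_preimage, res]
    by_cases hs : s.1 ∈ A
    · rw [if_pos hs]
      exact mx_of_mem hs p
    · rw [if_neg hs]
      exact mx_of_notMem hs p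
  rw [h1, ← Measure.map_map (measurable_mix _) (hR.prodMap hR), ← Measure.map_prod_map _ _ hR hR,
    h0]
  exact pi_mix _ _

end Pool.Agent.Z97H.KZ
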