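import Pool.Agent.Z97H.KZ.Core
import Pool.Agent.Z97H.DP.Fin

/-!
# The set of the bad slopes is null
-/

set_option autoImplicit false

open MeasureTheory ProbabilityTheory Filter Topology

namespace Pool.Agent.Z97H.KZ

open TH967.DP Pool.Agent.N662.SE

variable {d : ℕ}

theorem bad_null (hd : 1 ≤ d) {Ω : Type} [MeasurableSpace Ω]
    {P : Measure Ω} [IsProbabilityMeasure P] {ω : ℕ → (Fin d → ℤ) → Ω → ℝ} (he : IsEnv P ω)
    (hexp : ∀ b : ℝ, Integrable (fun x => Real.exp (b * ω 1 0 x)) P) (β : ℝ)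
    {φ : (Fin d → ℝ) → ℝ} (hfr : ∀ (h : Fin d → ℝ) (n : ℕ), free P ω β h n ≤ n * φ h)
    {b κ ξ t0 γ M : ℝ} (hb0 : 0 ≤ b) (hγ : 0 < γ) (hξ : 0 < ξ) (hκ : 0 < κ) (ht0 : 0 < t0)
    (hM : 0 ≤ M) (hb : (1 + γ) * b < 1)
    (c1 : 2 * ((1 + γ) * b) - 1 + γ < t0 * (1 + γ)) (c2 : 2 * ξ - κ / 2 < 2 * t0)
    (c3 : ξ * (2 + 4 * γ / 3) < 2 * t0 * (1 + γ)) :
    volume {v : Fin d → ℝ | ∃ h, Cond P ω β φ b κ ξ t0 M h v} = 0 := by
  have hc : S_CONC := Pool.Agent.Z97H.DP.conc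
  have hsup : S_SUP := Pool.Agent.N50.SE.SUP.main hc
  have hseld : S_SELD := Pool.Agent.N353.SE.Seld.main
  by_contra hB
  set Bd : Set (Fin d → ℝ) := {v | ∃ h, Cond P ω β φ b κ ξ t0 M h v} with hBd
  have hb1 : b < 1 := by nlinarith
  obtain ⟨hh, hhh⟩ : ∃ hh : (Fin d → ℝ) → (Fin d → ℝ), ∀ v ∈ Bd,
      Cond P ω β φ b κ ξ t0 M (hh v) v := by
    classical
    refine ⟨fun v => if hv : v ∈ Bd then Classical.choose hv else 0, ?_⟩
    intro v hv
    simp only [dif_pos hv]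
    exact Classical.choose_spec hv
  have hmono : ∀ v ∈ Bd, ∀ v' ∈ Bd, 0 ≤ ∑ k, (hh v' k - hh v k) * (v' k - v k) := by
    intro v hv v' hv'
    exact mono hd he β hb0 hb1 hκ (hhh v hv).conf (hhh v' hv').conf
  set r : ℕ → ℝ := fun m => if m = 0 then 1 else 9 * (m : ℝ) ^ ((1 + γ) * b - 1) with hr
  have hr0 : ∀ m, 0 < r m := by
    intro m
    simp only [hr]
    by_cases hm : m = 0
    · rw [if_pos hm]; exact one_pos
    · rw [if_neg hm]
      have : (0 : ℝ) < m := by exact_mod_cast Nat.pos_of_ne_zero hm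
      positivity
  have hrt : Tendsto r atTop (𝓝 0) := by
    have h1 : Tendsto (fun m : ℕ => 9 * (m : ℝ) ^ (-(1 - (1 + γ) * b))) atTop (𝓝 0) := by
      have := ((tendsto_rpow_neg_atTop (show 0 < 1 - (1 + γ) * b by linarith)).comp
        tendsto_natCast_atTop_atTop).const_mul 9
      rw [mul_zero] at this
      exact this
    apply h1.congr'
    filter_upwards [eventually_ge_atTop 1] with m hm
    simp only [hr]
    rw [if_neg (by omega)]
    congr 2
    ring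
  obtain ⟨K, J, hKJ⟩ := hseld d hd Bd hB hh hmono (fun _ _ => True)
    (fun _ _ => Eventually.of_forall fun _ => trivial) r hr0 hrt
  set e : ℝ := max (max (2 * (2 * ((1 + γ) * b) - 1 + γ)) 0)
    (max ((1 + γ) * (2 * ξ - κ / 2)) (ξ * (2 + 4 * γ / 3))) with hed
  have he1 : 2 * (2 * ((1 + γ) * b) - 1 + γ) ≤ e := (le_max_left _ _).trans (le_max_left _ _)
  have he2 : 0 ≤ e := (le_max_right _ _).trans (le_max_left _ _)
  have he3 : (1 + γ) * (2 * ξ - κ / 2) ≤ e := (le_max_left _ _).trans (le_max_right _ _)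
  have he4 : ξ * (2 + 4 * γ / 3) ≤ e := (le_max_right _ _).trans (le_max_right _ _)
  have hlt : e < (1 + γ) * (2 * t0) := by
    rw [hed]
    refine max_lt (max_lt ?_ ?_) (max_lt ?_ ?_)
    · nlinarith
    · positivity
    · exact mul_lt_mul_of_pos_left c2 (by linarith)
    · nlinarith
  obtain ⟨C, hC⟩ := core_est hc hsup hd he hexp β hfr (t0 := t0) hb0 hb1.le hγ hξ hM
    (abs_nonneg K) (abs_nonneg J) he1 he2 he3 he4
  obtain ⟨m, ⟨v, hv, v', hv', g1, g2, g3, -, -⟩, hm1, hm2, hm3⟩ :=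
    (hKJ.and ((pow_dom' hlt (|C| + 1)).and ((eventually_ge_atTop 1).and
      (tendsto_natCast_atTop_atTop.eventually_ge_atTop M)))).exists
  have hx1 : (1 : ℝ) ≤ m := by exact_mod_cast hm2
  have hx0 : (0 : ℝ) < m := by linarith
  have hrm : r m = 9 * (m : ℝ) ^ ((1 + γ) * b - 1) := by
    simp only [hr]
    rw [if_neg (by omega)]
  rw [hrm] at g1 g2
  obtain ⟨n, hn1, hn2⟩ := hC m hm2 (hh v) (hh v') v v' (hhh v hv) (hhh v' hv') g1
    (g2.trans (mul_le_mul_of_nonneg_right (le_abs_self J) (by positivity)))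
    (g3.trans (mul_le_mul_of_nonneg_right (le_abs_self K) (norm_nonneg _)))
  have hxn : (m : ℝ) ≤ n := by
    refine le_trans ?_ hn1
    nth_rewrite 1 [← Real.rpow_one (m : ℝ)]
    exact Real.rpow_le_rpow_of_exponent_le hx1 (by linarith)
  have h1 := (hhh v hv).var n (hm3.trans hxn)
  have h2 : (m : ℝ) ^ ((1 + γ) * (2 * t0)) ≤ (n : ℝ) ^ (2 * t0) := by
    rw [Real.rpow_mul hx0.le]
    exact Real.rpow_le_rpow (by positivity) hn1 (by linarith)
  have h3 : (0 : ℝ) < (m : ℝ) ^ e := by positivity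
  have h4 : C * (m : ℝ) ^ e ≤ |C| * (m : ℝ) ^ e :=
    mul_le_mul_of_nonneg_right (le_abs_self C) h3.le
  have h5 := h2.trans (h1.trans (hn2.trans h4))
  linarith [hm1.trans h5]

end Pool.Agent.Z97H.KZ
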