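import Pool.Agent.Z97H.KZ.Fin2

/-!
# Moments of all orders at a single drift, and the rate of convergence which follows from them
-/

set_option autoImplicit false

open MeasureTheory ProbabilityTheory Filter Topology

namespace Pool.Agent.Z97H.KZ

open TH967.DP (Step pos energy)
open Pool.Agent.N662.SE

variable {d : ℕ}

/-- the moment of order `k` is bounded on the scale `n^ξ` -/
def Mom {Ω : Type} [MeasurableSpace Ω] (P : Measure Ω)
    (ω : ℕ → (Fin d → ℤ) → Ω → ℝ) (β : ℝ) (k : ℕ) (C ξ : ℝ) (h : Fin d → ℝ) : Prop :=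
  ∀ n : ℕ, 1 ≤ n → ∫ x, |lw ω β h 0 0 n x - free P ω β h n| ^ k ∂P ≤ C * (n : ℝ) ^ (k * ξ)

lemma pow_of_exp {Ω : Type} [MeasurableSpace Ω] {P : Measure Ω} {Y : Ω → ℝ}
    (hY : Measurable Y) {l C0 : ℝ} (hl : 0 < l)
    (h1 : ∫⁻ x, ENNReal.ofReal (Real.exp (l * |Y x|)) ∂P ≤ ENNReal.ofReal C0) (k : ℕ) :
    Integrable (fun x => |Y x| ^ k) P ∧
      ∫ x, |Y x| ^ k ∂P ≤ k.factorial / l ^ k * |C0| := by
  have hk : (0 : ℝ) < k.factorial := by exact_mod_cast k.factorial_pos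
  have hpt : ∀ x, |Y x| ^ k ≤ k.factorial / l ^ k * Real.exp (l * |Y x|) := by
    intro x
    have h2 := Real.pow_div_factorial_le_exp (l * |Y x|) (by positivity) k
    rw [mul_pow, div_le_iff₀ hk] at h2
    rw [div_mul_eq_mul_div, le_div_iff₀ (by positivity)]
    linarith
  have hexpm : Measurable fun x => Real.exp (l * |Y x|) :=
    Real.measurable_exp.comp ((hY.abs).const_mul l)
  have hexpi : Integrable (fun x => Real.exp (l * |Y x|)) P := by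
    refine ⟨hexpm.aestronglyMeasurable, ?_⟩
    rw [hasFiniteIntegral_iff_norm]
    refine lt_of_le_of_lt (le_of_eq ?_) (lt_of_le_of_lt h1 ENNReal.ofReal_lt_top)
    apply lintegral_congr
    intro x
    rw [Real.norm_eq_abs, abs_of_pos (Real.exp_pos _)]
  have hexpl : ∫ x, Real.exp (l * |Y x|) ∂P ≤ |C0| := by
    rw [integral_eq_lintegral_of_nonneg_ae (Eventually.of_forall fun x => (Real.exp_pos _).le)
      hexpm.aestronglyMeasurable]
    refine (ENNReal.toReal_mono ENNReal.ofReal_ne_top h1).trans ?_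
    rw [ENNReal.toReal_ofReal']
    exact _root_.max_le (le_abs_self _) (abs_nonneg _)
  have hint : Integrable (fun x => |Y x| ^ k) P := by
    apply (hexpi.const_mul (k.factorial / l ^ k)).mono' (hY.abs.pow_const k).aestronglyMeasurable
    refine Eventually.of_forall fun x => ?_
    rw [Real.norm_eq_abs, abs_of_nonneg (by positivity)]
    exact hpt x
  refine ⟨hint, ?_⟩
  calc ∫ x, |Y x| ^ k ∂P ≤ ∫ x, k.factorial / l ^ k * Real.exp (l * |Y x|) ∂P :=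
        integral_mono hint (hexpi.const_mul _) hpt
    _ = k.factorial / l ^ k * ∫ x, Real.exp (l * |Y x|) ∂P := integral_const_mul _ _
    _ ≤ k.factorial / l ^ k * |C0| := mul_le_mul_of_nonneg_left hexpl (by positivity)

lemma int_pow (hd : 1 ≤ d) {Ω : Type} [MeasurableSpace Ω] {P : Measure Ω}
    [IsProbabilityMeasure P] {ω : ℕ → (Fin d → ℤ) → Ω → ℝ} (he : IsEnv P ω)
    (hexp : ∀ b : ℝ, Integrable (fun x => Real.exp (b * ω 1 0 x)) P) (β : ℝ) (h : Fin d → ℝ)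
    (n k : ℕ) : Integrable (fun x => |lw ω β h 0 0 n x - free P ω β h n| ^ k) P := by
  have hc : S_CONC := Pool.Agent.Z97H.DP.conc
  rcases Nat.eq_zero_or_pos n with rfl | hn
  · simp only [Pool.Agent.N427.SE.UPX.lw_z, Pool.Agent.N427.SE.UPX.free_z]
    exact integrable_const _
  · obtain ⟨hmeas, -, -, -⟩ := hc d hd Ω P ω he hexp β h 0 0 n
    have hn0 : (0 : ℝ) < n := by exact_mod_cast hn
    exact (pow_of_exp (hmeas.sub_const _) (by positivity)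
      (conc_half hc hd he hexp β h (Set.mem_univ _) n hn) k).1

/-- all moments are bounded on the scale `n^(1/2)` -/
lemma mom_half (hd : 1 ≤ d) {Ω : Type} [MeasurableSpace Ω] {P : Measure Ω}
    [IsProbabilityMeasure P] {ω : ℕ → (Fin d → ℤ) → Ω → ℝ} (he : IsEnv P ω)
    (hexp : ∀ b : ℝ, Integrable (fun x => Real.exp (b * ω 1 0 x)) P) (β : ℝ) (h : Fin d → ℝ)
    (k : ℕ) : ∃ C : ℝ, Mom P ω β k C (1 / 2) h := by
  have hc : S_CONC := Pool.Agent.Z97H.DP.conc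
  refine ⟨k.factorial * 4 ^ k * |2 * Real.exp (mom P ω β)|, fun n hn => ?_⟩
  have hn0 : (0 : ℝ) < n := by exact_mod_cast hn
  obtain ⟨hmeas, -, -, -⟩ := hc d hd Ω P ω he hexp β h 0 0 n
  refine ((pow_of_exp (hmeas.sub_const _) (by positivity)
      (conc_half hc hd he hexp β h (Set.mem_univ _) n hn) k).2).trans (le_of_eq ?_)
  have e1 : (1 / 4 * (n : ℝ) ^ (-(1 / 2) : ℝ)) ^ k * (n : ℝ) ^ ((k : ℝ) * (1 / 2)) =
      (1 / 4) ^ k := by
    rw [mul_pow, ← Real.rpow_natCast ((n : ℝ) ^ (-(1 / 2) : ℝ)) k, ← Real.rpow_mul hn0.le,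
      mul_assoc, ← Real.rpow_add hn0]
    have : -(1 / 2) * (k : ℝ) + (k : ℝ) * (1 / 2) = 0 := by ring
    rw [this, Real.rpow_zero, mul_one]
  have e2 : (0 : ℝ) < (1 / 4 * (n : ℝ) ^ (-(1 / 2) : ℝ)) ^ k := by positivity
  have e3 : (n : ℝ) ^ ((k : ℝ) * (1 / 2)) =
      (1 / 4) ^ k / (1 / 4 * (n : ℝ) ^ (-(1 / 2) : ℝ)) ^ k := by
    rw [eq_div_iff e2.ne', mul_comm]
    exact e1
  rw [e3]
  have e4 : (4 : ℝ) ^ k * (1 / 4) ^ k = 1 := by
    rw [← mul_pow]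
    norm_num
  calc (k.factorial : ℝ) / (1 / 4 * (n : ℝ) ^ (-(1 / 2) : ℝ)) ^ k *
        |2 * Real.exp (mom P ω β)| = (4 ^ k * (1 / 4) ^ k) * (k.factorial /
        (1 / 4 * (n : ℝ) ^ (-(1 / 2) : ℝ)) ^ k * |2 * Real.exp (mom P ω β)|) := by
          rw [e4, one_mul]
    _ = _ := by ring

lemma mom_iff (hd : 1 ≤ d) {Ω : Type} [MeasurableSpace Ω] {P : Measure Ω}
    [IsProbabilityMeasure P] {ω : ℕ → (Fin d → ℤ) → Ω → ℝ} (he : IsEnv P ω)
    (hexp : ∀ b : ℝ, Integrable (fun x => Real.exp (b * ω 1 0 x)) P) (β : ℝ) (h : Fin d → ℝ)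
    (k : ℕ) (C ξ : ℝ) : (∀ n : ℕ, 1 ≤ n →
    ∫ x, |logZ β h (fun i y => ω i y x) n - ∫ x', logZ β h (fun i y => ω i y x') n ∂P| ^ k ∂P ≤
      C * (n : ℝ) ^ (k * ξ)) ↔ Mom P ω β k C ξ h := by
  have hc : S_CONC := Pool.Agent.Z97H.DP.conc
  unfold Mom
  simp_rw [logZ_sub hd ((hc d hd Ω P ω he hexp β h 0 0 _).2.1)]

lemma half_mem (hd : 1 ≤ d) {Ω : Type} [MeasurableSpace Ω] {P : Measure Ω}
    [IsProbabilityMeasure P] {ω : ℕ → (Fin d → ℤ) → Ω → ℝ} (he : IsEnv P ω)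
    (hexp : ∀ b : ℝ, Integrable (fun x => Real.exp (b * ω 1 0 x)) P) (β : ℝ) (h : Fin d → ℝ) :
    (1 / 2 : ℝ) ∈ {ξ : ℝ | 0 < ξ ∧ ∀ k : ℕ, ∃ C : ℝ, ∀ n : ℕ, 1 ≤ n →
    ∫ x, |logZ β h (fun i y => ω i y x) n - ∫ x', logZ β h (fun i y => ω i y x') n ∂P| ^ k ∂P ≤
      C * (n : ℝ) ^ (k * ξ)} := by
  refine ⟨by norm_num, fun k => ?_⟩
  obtain ⟨C, hC⟩ := mom_half hd he hexp β h k
  exact ⟨C, (mom_iff hd he hexp β h k C (1 / 2)).2 hC⟩

lemma flucUp_le_half (hd : 1 ≤ d) {Ω : Type} [MeasurableSpace Ω] {P : Measure Ω}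
    [IsProbabilityMeasure P] {ω : ℕ → (Fin d → ℤ) → Ω → ℝ} (he : IsEnv P ω)
    (hexp : ∀ b : ℝ, Integrable (fun x => Real.exp (b * ω 1 0 x)) P) (β : ℝ) (h : Fin d → ℝ) :
    flucUp P ω β h ≤ 1 / 2 :=
  csInf_le ⟨0, fun _ hξ => hξ.1.le⟩ (half_mem hd he hexp β h)

/-- moments above the exponent -/
lemma mom_of_lt (hd : 1 ≤ d) {Ω : Type} [MeasurableSpace Ω] {P : Measure Ω}
    [IsProbabilityMeasure P] {ω : ℕ → (Fin d → ℤ) → Ω → ℝ} (he : IsEnv P ω)
    (hexp : ∀ b : ℝ, Integrable (fun x => Real.exp (b * ω 1 0 x)) P) (β : ℝ) (h : Fin d → ℝ)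
    {ξ : ℝ} (hξ : flucUp P ω β h < ξ) (k : ℕ) : ∃ C : ℝ, 0 ≤ C ∧ Mom P ω β k C ξ h := by
  obtain ⟨ξ₁, ⟨-, hk⟩, hlt⟩ := exists_lt_of_csInf_lt ⟨1 / 2, half_mem hd he hexp β h⟩ hξ
  obtain ⟨C, hC⟩ := hk k
  have hM := (mom_iff hd he hexp β h k C ξ₁).1 hC
  refine ⟨|C|, abs_nonneg C, fun n hn => (hM n hn).trans ?_⟩
  have hn1 : (1 : ℝ) ≤ n := by exact_mod_cast hn
  have e1 : (n : ℝ) ^ ((k : ℝ) * ξ₁) ≤ (n : ℝ) ^ ((k : ℝ) * ξ) :=
    Real.rpow_le_rpow_of_exponent_le hn1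
      (mul_le_mul_of_nonneg_left hlt.le (Nat.cast_nonneg k))
  exact (mul_le_mul_of_nonneg_right (le_abs_self C) (by positivity)).trans
    (mul_le_mul_of_nonneg_left e1 (abs_nonneg C))

lemma chi_le_flucUp (hd : 1 ≤ d) {Ω : Type} [MeasurableSpace Ω] {P : Measure Ω}
    [IsProbabilityMeasure P] {ω : ℕ → (Fin d → ℤ) → Ω → ℝ} (he : IsEnv P ω)
    (hexp : ∀ b : ℝ, Integrable (fun x => Real.exp (b * ω 1 0 x)) P) (β : ℝ) (h : Fin d → ℝ) :
    chi P ω β h ≤ flucUp P ω β h := by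
  have hc : S_CONC := Pool.Agent.Z97H.DP.conc
  apply le_csInf ⟨1 / 2, half_mem hd he hexp β h⟩
  rintro ξ ⟨hξ0, hξ⟩
  apply Real.sSup_le _ hξ0.le
  rintro t ⟨-, ht⟩
  obtain ⟨C, hC⟩ := hξ 2
  have hM := (mom_iff hd he hexp β h 2 C ξ).1 hC
  by_contra hcon
  push Not at hcon
  obtain ⟨n, hn1, hn2, hn3⟩ := (ht.and ((pow_dom' (by linarith : 2 * ξ < 2 * t) (|C| + 1)).and
    (eventually_ge_atTop 1))).exists
  have hn0 : (0 : ℝ) < n := by exact_mod_cast hn3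
  have h2 := hM n hn3
  rw [variance_logZ hd ((hc d hd Ω P ω he hexp β h 0 0 n).2.1)] at hn1
  simp only [sq_abs] at h2
  push_cast at h2
  have h3 : (0 : ℝ) < (n : ℝ) ^ (2 * ξ) := Real.rpow_pos_of_pos hn0 _
  have h4 : C * (n : ℝ) ^ (2 * ξ) ≤ |C| * (n : ℝ) ^ (2 * ξ) :=
    mul_le_mul_of_nonneg_right (le_abs_self C) h3.le
  linarith

/-! ### moments of the shifted free energies -/

lemma mom_shift (hd : 1 ≤ d) {Ω : Type} [MeasurableSpace Ω] {P : Measure Ω}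
    [IsProbabilityMeasure P] {ω : ℕ → (Fin d → ℤ) → Ω → ℝ} (he : IsEnv P ω)
    (hexp : ∀ b : ℝ, Integrable (fun x => Real.exp (b * ω 1 0 x)) P) (β : ℝ) (h : Fin d → ℝ)
    (m : ℕ) (z : Fin d → ℤ) (n k : ℕ) :
    Integrable (fun x => |lw ω β h m z n x - free P ω β h n| ^ k) P ∧
    ∫ x, |lw ω β h m z n x - free P ω β h n| ^ k ∂P =
      ∫ x, |lw ω β h 0 0 n x - free P ω β h n| ^ k ∂P := by
  have hid := Pool.Agent.N951.SE.t d hd Ω P ω he β h m z n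
  have hg : Measurable (fun y : ℝ => |y - free P ω β h n| ^ k) := by fun_prop
  have h1 := hid.comp hg
  exact ⟨h1.integrable_iff.2 (int_pow hd he hexp β h n k), h1.integral_eq⟩

lemma le_trunc {y t : ℝ} (ht : 0 < t) {k : ℕ} (hk : 1 ≤ k) : y ≤ t + |y| ^ k / t ^ (k - 1) := by
  rcases le_total y t with h | h
  · have : 0 ≤ |y| ^ k / t ^ (k - 1) := by positivity
    linarith
  · have hy : 0 < y := by linarith
    have h1 : y ≤ |y| ^ k / t ^ (k - 1) := by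
      rw [le_div_iff₀ (by positivity), abs_of_pos hy]
      have h2 : t ^ (k - 1) ≤ y ^ (k - 1) := pow_le_pow_left₀ ht.le h _
      calc y * t ^ (k - 1) ≤ y * y ^ (k - 1) := mul_le_mul_of_nonneg_left h2 hy.le
        _ = y ^ k := by rw [← pow_succ', Nat.sub_add_cancel hk]
    linarith

/-- doubling -/
lemma dbl (hd : 1 ≤ d) {Ω : Type} [MeasurableSpace Ω] {P : Measure Ω}
    [IsProbabilityMeasure P] {ω : ℕ → (Fin d → ℤ) → Ω → ℝ} (he : IsEnv P ω)
    (hexp : ∀ b : ℝ, Integrable (fun x => Real.exp (b * ω 1 0 x)) P) (β : ℝ) {h : Fin d → ℝ}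
    {k : ℕ} {C ξ ξ' : ℝ} (hC : 0 ≤ C) (hk : 1 ≤ k) (hM : Mom P ω β k C ξ h)
    (hkd : d ≤ k * (ξ' - ξ)) (m : ℕ) (hm : 1 ≤ m) :
    free P ω β h (2 * m) ≤ 2 * free P ω β h m + (1 + 3 ^ d * C) * (m : ℝ) ^ ξ' := by
  have hc : S_CONC := Pool.Agent.Z97H.DP.conc
  have hm1 : (1 : ℝ) ≤ m := by exact_mod_cast hm
  have hm0 : (0 : ℝ) < m := by linarith
  set F := free P ω β h m with hF
  set t : ℝ := (m : ℝ) ^ ξ' with ht
  have ht0 : 0 < t := by positivity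
  set Box : Finset (Fin d → ℤ) := Fintype.piFinset (fun _ => Finset.Icc (-(m:ℤ)) m) with hBox
  have hcard : (Box.card : ℝ) = (2 * m + 1) ^ d := by
    rw [hBox, Fintype.card_piFinset]
    simp only [Int.card_Icc, Finset.prod_const, Finset.card_univ, Fintype.card_fin]
    have e : ((m:ℤ) + 1 - -(m:ℤ)).toNat = 2 * m + 1 := by omega
    rw [e]
    push_cast
    rfl
  set Y : Ω → ℝ := fun x => ∑ z ∈ Box, |lw ω β h m z m x - F| ^ k with hY
  have hYi : Integrable Y P :=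
    integrable_finsetSum _ fun z _ => (mom_shift hd he hexp β h m z m k).1
  have hYc : ∫ x, Y x ∂P ≤ (2 * m + 1) ^ d * (C * (m : ℝ) ^ (k * ξ)) := by
    simp only [hY]
    rw [integral_finsetSum _ fun z _ => (mom_shift hd he hexp β h m z m k).1]
    have h1 : ∀ z ∈ Box, ∫ x, |lw ω β h m z m x - F| ^ k ∂P ≤ C * (m : ℝ) ^ (k * ξ) := by
      intro z _
      rw [(mom_shift hd he hexp β h m z m k).2]
      exact hM m hm
    refine (Finset.sum_le_sum h1).trans ?_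
    rw [Finset.sum_const, nsmul_eq_mul, hcard]
  have hpt : ∀ x, lw ω β h 0 0 (m + m) x ≤
      lw ω β h 0 0 m x + (F + t + Y x / t ^ (k - 1)) := by
    intro x
    have h1 : ∀ z ∈ Box, part β h (fun i y => ω (m + i) (z + y) x) m Set.univ ≤
        Real.exp (F + t + Y x / t ^ (k - 1)) := by
      intro z hz
      have p1 := part_univ_pos hd β h (fun i y => ω (m + i) (z + y) x) m
      have p2 : |lw ω β h m z m x - F| ^ k ≤ Y x := Finset.single_le_sum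
        (f := fun z => |lw ω β h m z m x - F| ^ k) (fun _ _ => by positivity) hz
      have p3 := le_trunc (y := lw ω β h m z m x - F) ht0 hk
      have p4 : |lw ω β h m z m x - F| ^ k / t ^ (k - 1) ≤ Y x / t ^ (k - 1) :=
        div_le_div_of_nonneg_right p2 (by positivity)
      calc part β h (fun i y => ω (m + i) (z + y) x) m Set.univ
          = Real.exp (lw ω β h m z m x) := by
            unfold lw
            rw [Real.exp_log p1]
        _ ≤ _ := Real.exp_le_exp.2 (by linarith)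
    have h2 : part β h (fun i y => ω i y x) (m + m) Set.univ ≤
        part β h (fun i y => ω i y x) m Set.univ *
          Real.exp (F + t + Y x / t ^ (k - 1)) := by
      rw [Pool.Agent.N50.SE.SUP.part_add]
      rw [Pool.Agent.N50.SE.SUP.part_eq β h (fun i y => ω i y x) m]
      rw [Finset.sum_mul]
      refine Finset.sum_le_sum fun u _ => ?_
      refine mul_le_mul_of_nonneg_left ?_ (Real.exp_pos _).le
      refine h1 _ ?_
      rw [hBox, Fintype.mem_piFinset]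
      intro j
      rw [Finset.mem_Icc]
      exact abs_le.1 (pos_abs u m j)
    have q1 := part_univ_pos hd β h (fun i y => ω i y x) (m + m)
    have q2 := part_univ_pos hd β h (fun i y => ω i y x) m
    have h3 := Real.log_le_log q1 h2
    rw [Real.log_mul q2.ne' (Real.exp_pos _).ne', Real.log_exp] at h3
    rw [lw_zero', lw_zero']
    exact h3
  obtain ⟨-, i1, i2, -⟩ := hc d hd Ω P ω he hexp β h 0 0 (m + m)
  obtain ⟨-, j1, j2, -⟩ := hc d hd Ω P ω he hexp β h 0 0 m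
  have k1 : Integrable (fun x => Y x / t ^ (k - 1)) P := hYi.div_const _
  have k2 : Integrable (fun x => F + t + Y x / t ^ (k - 1)) P := (integrable_const _).add k1
  have hint : ∫ x, lw ω β h 0 0 (m + m) x ∂P ≤
      ∫ x, (lw ω β h 0 0 m x + (F + t + Y x / t ^ (k - 1))) ∂P :=
    integral_mono i1 (j1.add k2) hpt
  rw [integral_add j1 k2, integral_add (integrable_const _) k1, integral_div, i2, j2] at hint
  simp only [integral_const, probReal_univ, one_smul] at hint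
  rw [two_mul]
  refine hint.trans ?_
  have e1 : (∫ x, Y x ∂P) / t ^ (k - 1) ≤ 3 ^ d * C * t := by
    rw [div_le_iff₀ (by positivity)]
    refine hYc.trans ?_
    have e2 : (2 * (m : ℝ) + 1) ^ d ≤ 3 ^ d * (m : ℝ) ^ d := by
      rw [← mul_pow]
      exact pow_le_pow_left₀ (by positivity) (by linarith) d
    have e3 : t * t ^ (k - 1) = (m : ℝ) ^ (k * ξ') := by
      rw [← pow_succ', Nat.sub_add_cancel hk, ht, ← Real.rpow_natCast, ← Real.rpow_mul hm0.le,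
        mul_comm]
    have e4 : (m : ℝ) ^ d * (m : ℝ) ^ ((k : ℝ) * ξ) ≤ (m : ℝ) ^ ((k : ℝ) * ξ') := by
      rw [← Real.rpow_natCast (m : ℝ) d, ← Real.rpow_add hm0]
      apply Real.rpow_le_rpow_of_exponent_le hm1
      linarith
    calc (2 * (m : ℝ) + 1) ^ d * (C * (m : ℝ) ^ ((k : ℝ) * ξ)) ≤
          3 ^ d * (m : ℝ) ^ d * (C * (m : ℝ) ^ ((k : ℝ) * ξ)) :=
          mul_le_mul_of_nonneg_right e2 (by positivity)
      _ = 3 ^ d * C * ((m : ℝ) ^ d * (m : ℝ) ^ ((k : ℝ) * ξ)) := by ring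
      _ ≤ 3 ^ d * C * (m : ℝ) ^ ((k : ℝ) * ξ') := mul_le_mul_of_nonneg_left e4 (by positivity)
      _ = 3 ^ d * C * t * t ^ (k - 1) := by rw [← e3]; ring
  linarith

/-- the rate of convergence -/
lemma rate_mom (hd : 1 ≤ d) {Ω : Type} [MeasurableSpace Ω] {P : Measure Ω}
    [IsProbabilityMeasure P] {ω : ℕ → (Fin d → ℤ) → Ω → ℝ} (he : IsEnv P ω)
    (hexp : ∀ b : ℝ, Integrable (fun x => Real.exp (b * ω 1 0 x)) P) (β : ℝ) {h : Fin d → ℝ}
    {φ C₀ : ℝ} (hfr : ∀ n : ℕ, free P ω β h n ≤ n * φ)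
    (hr : ∀ n : ℕ, n * φ ≤ free P ω β h n + C₀ * Real.sqrt n * Real.log (n + 1))
    {k : ℕ} {C ξ ξ' ξ'' : ℝ} (hC : 0 ≤ C) (hk : 1 ≤ k) (hM : Mom P ω β k C ξ h)
    (hkd : d ≤ k * (ξ' - ξ)) (h1 : ξ' < 1) (h2 : ξ' < ξ'') :
    ∃ C' : ℝ, 0 ≤ C' ∧ ∀ n : ℕ, 1 ≤ n → n * φ ≤ free P ω β h n + C' * (n : ℝ) ^ ξ'' := by
  have hlim := Pool.Agent.N316.SE.Ratex.lim_of_rate (F := free P ω β h) hfr hr
  have hlog2 : 1 / 2 ≤ Real.log 2 := by
    have := Real.log_two_gt_d9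
    linarith
  set D : ℝ := 2 * (1 + 3 ^ d * C) with hD
  have hD0 : 0 ≤ D := by positivity
  have hdbl : ∀ m : ℕ, 1 ≤ m → free P ω β h (2 * m) ≤
      2 * free P ω β h m + D * (m : ℝ) ^ ξ' * Real.log (m + 1) := by
    intro m hm
    have hm1 : (1 : ℝ) ≤ m := by exact_mod_cast hm
    refine (dbl hd he hexp β hC hk hM hkd m hm).trans ?_
    have e1 : 1 / 2 ≤ Real.log ((m : ℝ) + 1) :=
      hlog2.trans (Real.log_le_log (by norm_num) (by linarith))
    have e2 : (1 + 3 ^ d * C) * (m : ℝ) ^ ξ' ≤ D * (m : ℝ) ^ ξ' * Real.log (m + 1) := by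
      have e3 : 0 ≤ (1 + 3 ^ d * C) * (m : ℝ) ^ ξ' := by positivity
      calc (1 + 3 ^ d * C) * (m : ℝ) ^ ξ' = D * (m : ℝ) ^ ξ' * (1 / 2) := by rw [hD]; ring
        _ ≤ _ := mul_le_mul_of_nonneg_left e1 (by positivity)
    linarith
  have hcS : 0 ≤ Pool.Agent.N316.SE.Ratex.cS ξ' :=
    tsum_nonneg fun j => by
      have := Pool.Agent.N316.SE.Ratex.rt_pos ξ'
      positivity
  set δ : ℝ := ξ'' - ξ' with hδ
  have hδ0 : 0 < δ := by linarith
  set G : ℝ := D / 2 * Pool.Agent.N316.SE.Ratex.cS ξ' with hG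
  have hG0 : 0 ≤ G := by positivity
  refine ⟨G * (2 ^ δ / δ), by positivity, fun n hn => ?_⟩
  have hn1 : (1 : ℝ) ≤ n := by exact_mod_cast hn
  have hn0 : (0 : ℝ) < n := by linarith
  have h3 := Pool.Agent.N316.SE.Ratex.rate_abs hD0 h1 hlim hdbl n hn
  rw [← hG] at h3
  refine h3.trans ?_
  have e1 : Real.log ((n : ℝ) + 1) ≤ 2 ^ δ / δ * (n : ℝ) ^ δ := by
    refine (Real.log_le_rpow_div (by linarith) hδ0).trans ?_
    rw [div_mul_eq_mul_div, ← Real.mul_rpow (by norm_num) hn0.le]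
    apply div_le_div_of_nonneg_right _ hδ0.le
    exact Real.rpow_le_rpow (by linarith) (by linarith) hδ0.le
  have e2 : G * (n : ℝ) ^ ξ' * Real.log (n + 1) ≤ G * (2 ^ δ / δ) * (n : ℝ) ^ ξ'' := by
    calc G * (n : ℝ) ^ ξ' * Real.log (n + 1) ≤ G * (n : ℝ) ^ ξ' * (2 ^ δ / δ * (n : ℝ) ^ δ) :=
          mul_le_mul_of_nonneg_left e1 (by positivity)
      _ = G * (2 ^ δ / δ) * ((n : ℝ) ^ ξ' * (n : ℝ) ^ δ) := by ring
      _ = G * (2 ^ δ / δ) * (n : ℝ) ^ ξ'' := by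
          rw [← Real.rpow_add hn0]
          congr 2
          rw [hδ]
          ring
  linarith

end Pool.Agent.Z97H.KZ
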