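import Pool.Agent.Z97H.KZ.PW1

/-!
# The inequality between the exponents, with the moments at a single drift
-/

set_option autoImplicit false

open MeasureTheory ProbabilityTheory Filter Topology

namespace Pool.Agent.Z97H.KZ

open TH967.DP (Step pos energy)
open Pool.Agent.N662.SE

variable {d : ℕ}

/-- the conditions from the exponents -/
lemma cond_of' (hd : 1 ≤ d) {Ω : Type} [MeasurableSpace Ω]
    {P : Measure Ω} [IsProbabilityMeasure P] {ω : ℕ → (Fin d → ℤ) → Ω → ℝ} (he : IsEnv P ω)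
    (hexp : ∀ b : ℝ, Integrable (fun x => Real.exp (b * ω 1 0 x)) P) (β : ℝ)
    {φ : (Fin d → ℝ) → ℝ} (hfr : ∀ (h : Fin d → ℝ) (n : ℕ), free P ω β h n ≤ n * φ h) {Cr : ℝ}
    (hr : ∀ (h : Fin d → ℝ) (n : ℕ),
      n * φ h ≤ free P ω β h n + Cr * Real.sqrt n * Real.log (n + 1))
    {h v : Fin d → ℝ} {p b κ ξ t0 : ℝ} (hp : 0 < p)
    (hb : wanderP P ω β p h v + κ / p < b) (hξ : flucUp P ω β h < ξ)
    (ht : t0 < chi P ω β h) (ht0 : 0 < t0) :
    ∃ M : ℕ, Cond P ω β φ b κ ξ t0 M h v := by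
  have hc : S_CONC := Pool.Agent.Z97H.DP.conc
  -- confinement
  obtain ⟨b₀, ⟨-, C₀, hC₀⟩, hb₀⟩ := exists_lt_of_csInf_lt
    ⟨2, two_mem_wP (P := P) hd he.meas β h v hp⟩
    (show wanderP P ω β p h v < b - κ / p by linarith)
  -- concentration
  have hu : flucUp P ω β h < min ξ 1 :=
    lt_min hξ (lt_of_le_of_lt (flucUp_le_half hd he hexp β h) (by norm_num))
  obtain ⟨ξ', hξ'1, hξ'2⟩ := exists_between hu
  obtain ⟨ξ₁, hξ₁1, hξ₁2⟩ := exists_between hξ'1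
  have hξ₁3 := lt_min_iff.1 hξ'2
  obtain ⟨C₁, hC₁0, hC₁⟩ := mom_of_lt hd he hexp β h hξ 4
  obtain ⟨k, hk⟩ := exists_nat_ge (d / (ξ' - ξ₁) + 1)
  have hδ1 : 0 < ξ' - ξ₁ := by linarith
  have hk1 : 1 ≤ k := by
    have e1 : (0 : ℝ) ≤ d / (ξ' - ξ₁) := by positivity
    have : (1 : ℝ) ≤ k := by linarith
    exact_mod_cast this
  have hkd : (d : ℝ) ≤ k * (ξ' - ξ₁) := by
    rw [← div_le_iff₀ hδ1]
    linarith
  obtain ⟨Ck, hCk0, hCk⟩ := mom_of_lt hd he hexp β h hξ₁1 k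
  obtain ⟨C₂, hC₂0, hC₂⟩ := rate_mom hd he hexp β (hfr h) (hr h) hCk0 hk1 hCk hkd hξ₁3.2 hξ₁3.1
  -- variance
  have hne : {t : ℝ | 0 < t ∧ ∀ᶠ n : ℕ in atTop,
    (n : ℝ) ^ (2 * t) ≤ variance (fun x => logZ β h (fun i y => ω i y x) n) P}.Nonempty := by
    by_contra hemp
    rw [Set.not_nonempty_iff_eq_empty] at hemp
    have : chi P ω β h = 0 := by
      unfold chi
      rw [hemp]
      exact Real.sSup_empty
    linarith
  obtain ⟨t₁, ⟨-, ht₁⟩, ht₁2⟩ := exists_lt_of_lt_csSup hne ht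
  obtain ⟨N, hN⟩ := eventually_atTop.1 ht₁
  obtain ⟨M, hM⟩ := exists_nat_ge (max (max |C₀| C₁) (max C₂ (max N 1)))
  have m1 : |C₀| ≤ M := ((le_max_left _ _).trans (le_max_left _ _)).trans hM
  have m2 : C₁ ≤ M := ((le_max_right _ _).trans (le_max_left _ _)).trans hM
  have m3 : C₂ ≤ M := ((le_max_left _ _).trans (le_max_right _ _)).trans hM
  have m4 : (N : ℝ) ≤ M :=
    (((le_max_left _ _).trans (le_max_right _ _)).trans (le_max_right _ _)).trans hM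
  have m5 : (1 : ℝ) ≤ M :=
    (((le_max_right _ _).trans (le_max_right _ _)).trans (le_max_right _ _)).trans hM
  refine ⟨M, ?_, ?_, ?_, ?_⟩
  · intro n hn
    have hn1 : (1 : ℝ) ≤ n := by exact_mod_cast hn
    refine le_trans ?_ (conf_of_moment hd he.meas hp hC₀ b n hn)
    have e1 : (n : ℝ) ^ (-(p * (b - b₀))) ≤ (n : ℝ) ^ (-κ) := by
      apply Real.rpow_le_rpow_of_exponent_le hn1
      have : κ / p ≤ b - b₀ := by linarith
      rw [div_le_iff₀ hp] at this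
      linarith
    have e2 : C₀ * (n : ℝ) ^ (-(p * (b - b₀))) ≤ M * (n : ℝ) ^ (-κ) :=
      (mul_le_mul_of_nonneg_right ((le_abs_self C₀).trans m1) (by positivity)).trans
        (mul_le_mul_of_nonneg_left e1 (Nat.cast_nonneg M))
    linarith
  · intro n hn
    have h1 := hC₁ n hn
    have e4 : ∀ x, |lw ω β h 0 0 n x - free P ω β h n| ^ 4 =
        (lw ω β h 0 0 n x - free P ω β h n) ^ 4 := fun x => (by decide : Even 4).pow_abs _
    simp only [e4] at h1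
    push_cast at h1
    exact h1.trans (mul_le_mul_of_nonneg_right m2 (by positivity))
  · intro n hn
    exact (hC₂ n hn).trans (by
      have := mul_le_mul_of_nonneg_right m3 (show (0 : ℝ) ≤ (n : ℝ) ^ ξ by positivity)
      linarith)
  · intro n hn
    have hn1 : (1 : ℝ) ≤ n := m5.trans hn
    have hNn : N ≤ n := by exact_mod_cast m4.trans hn
    have e1 := hN n hNn
    rw [variance_logZ hd ((hc d hd Ω P ω he hexp β h 0 0 n).2.1)] at e1
    exact (Real.rpow_le_rpow_of_exponent_le hn1 (by linarith)).trans e1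

/-- the inequality between the exponents outside of the null set -/
theorem main_ineq' (hd : 1 ≤ d) {Ω : Type} [MeasurableSpace Ω]
    {P : Measure Ω} [IsProbabilityMeasure P] {ω : ℕ → (Fin d → ℤ) → Ω → ℝ} (he : IsEnv P ω)
    (hexp : ∀ b : ℝ, Integrable (fun x => Real.exp (b * ω 1 0 x)) P) (β : ℝ)
    {φ : (Fin d → ℝ) → ℝ}
    (hfr : ∀ (h : Fin d → ℝ) (n : ℕ), free P ω β h n ≤ n * φ h) {Cr : ℝ}
    (hr : ∀ (h : Fin d → ℝ) (n : ℕ),
      n * φ h ≤ free P ω β h n + Cr * Real.sqrt n * Real.log (n + 1))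
    {h v : Fin d → ℝ} {p : ℝ} (hp : 0 < p) (hv : v ∉ Nset P ω β φ)
    (hν : 1 / 2 ≤ wanderP P ω β p h v) :
    flucUp P ω β h * (chi P ω β h - (2 * wanderP P ω β p h v - 1)) ≤
      (6 + 8 * flucUp P ω β h / p) * (flucUp P ω β h - chi P ω β h) := by
  set u := flucUp P ω β h with hu
  set χ := chi P ω β h with hχ
  set ν := wanderP P ω β p h v with hνd
  have h0 : 0 ≤ χ := Real.sSup_nonneg fun t ht => ht.1.le
  have h1 : χ ≤ u := chi_le_flucUp hd he hexp β h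
  have h2 : u ≤ 1 / 2 := flucUp_le_half hd he hexp β h
  by_contra hcon
  push Not at hcon
  have hu0 : 0 < u := by
    rcases (h0.trans h1).lt_or_eq with h3 | h3
    · exact h3
    · exfalso
      have h4 : χ = 0 := by linarith
      rw [← h3, h4] at hcon
      simp at hcon
  have hup : 0 ≤ 8 * u / p := by positivity
  have hA1 : 6 * (u - χ) < u * χ := by
    have e1 : (6 + 8 * u / p) * (u - χ) = 6 * (u - χ) + 8 * u / p * (u - χ) := by ring
    have e2 : 0 ≤ 8 * u / p * (u - χ) := mul_nonneg hup (by linarith)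
    have e3 : u * (χ - (2 * ν - 1)) ≤ u * χ := mul_le_mul_of_nonneg_left (by linarith) hu0.le
    linarith
  have hA2 : u * χ ≤ 1 / 2 * χ := mul_le_mul_of_nonneg_right h2 h0
  set A : ℝ := χ - 2 * u / 3 with hA
  have hA0 : 0 < A := by rw [hA]; linarith
  have hχ0 : 0 < χ := by linarith
  -- the limit
  set F : ℝ → ℝ := fun ε => χ - ε + (2 * χ - 5 * u / 3 - 5 * ε) / (u / 3 + ε) -
    2 * (ν + (4 * (u - χ) + 9 * ε) / p + ε) with hF
  have hF0 : 0 < F 0 := by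
    have e1 : u * F 0 = u * (χ - (2 * ν - 1)) - (6 + 8 * u / p) * (u - χ) := by
      simp only [hF]
      field_simp
      ring
    have e2 : 0 < u * F 0 := by rw [e1]; linarith
    exact (mul_pos_iff_of_pos_left hu0).1 e2
  have hFc : ContinuousAt F 0 := by
    simp only [hF]
    have e1 : u / 3 + 0 ≠ 0 := by positivity
    fun_prop (disch := assumption)
  have ev1 : ∀ᶠ ε in 𝓝[>] (0 : ℝ), 0 < F ε :=
    (hFc.eventually (lt_mem_nhds hF0)).filter_mono nhdsWithin_le_nhds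
  have ev2 : ∀ᶠ ε in 𝓝[>] (0 : ℝ), ε < min (A / 4) χ :=
    (gt_mem_nhds (lt_min (by linarith) hχ0) : ∀ᶠ ε in 𝓝 (0 : ℝ), ε < min (A / 4) χ).filter_mono
      nhdsWithin_le_nhds
  obtain ⟨ε, hε1, hε2, hε3⟩ := (ev1.and (ev2.and self_mem_nhdsWithin)).exists
  have hε0 : 0 < ε := hε3
  have hε4 := lt_min_iff.1 hε2
  -- the parameters
  set κ : ℝ := 4 * (u - χ) + 9 * ε with hκ
  set γ : ℝ := (u - χ + 3 * ε) / (A - 2 * ε) with hγ
  have hAe : 0 < A - 2 * ε := by linarith [hε4.1]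
  have hκ0 : 0 < κ := by rw [hκ]; linarith
  have hγ0 : 0 < γ := div_pos (by linarith) hAe
  have hγA : γ * (A - 2 * ε) = u - χ + 3 * ε := div_mul_cancel₀ _ hAe.ne'
  set O : Set (ℝ × ℝ × ℝ × ℝ × ℝ) := {q | ν + q.2.1 / p < q.1 ∧ u < q.2.2.1 ∧
    q.2.2.2.1 < χ ∧ 0 < q.1 ∧ 0 < q.2.2.2.2 ∧ 0 < q.2.2.1 ∧ 0 < q.2.1 ∧ 0 < q.2.2.2.1 ∧
    (1 + q.2.2.2.2) * q.1 < 1 ∧
    2 * ((1 + q.2.2.2.2) * q.1) - 1 + q.2.2.2.2 < q.2.2.2.1 * (1 + q.2.2.2.2) ∧
    2 * q.2.2.1 - q.2.1 / 2 < 2 * q.2.2.2.1 ∧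
    q.2.2.1 * (2 + 4 * q.2.2.2.2 / 3) < 2 * q.2.2.2.1 * (1 + q.2.2.2.2)} with hO
  have hOo : IsOpen O := by
    rw [hO]
    refine IsOpen.and (isOpen_lt (by fun_prop) (by fun_prop)) ?_
    refine IsOpen.and (isOpen_lt (by fun_prop) (by fun_prop)) ?_
    refine IsOpen.and (isOpen_lt (by fun_prop) (by fun_prop)) ?_
    refine IsOpen.and (isOpen_lt (by fun_prop) (by fun_prop)) ?_
    refine IsOpen.and (isOpen_lt (by fun_prop) (by fun_prop)) ?_
    refine IsOpen.and (isOpen_lt (by fun_prop) (by fun_prop)) ?_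
    refine IsOpen.and (isOpen_lt (by fun_prop) (by fun_prop)) ?_
    refine IsOpen.and (isOpen_lt (by fun_prop) (by fun_prop)) ?_
    refine IsOpen.and (isOpen_lt (by fun_prop) (by fun_prop)) ?_
    refine IsOpen.and (isOpen_lt (by fun_prop) (by fun_prop)) ?_
    refine IsOpen.and (isOpen_lt (by fun_prop) (by fun_prop)) ?_
    exact isOpen_lt (by fun_prop) (by fun_prop)
  have hc1 : 2 * ((1 + γ) * (ν + κ / p + ε)) - 1 + γ < (χ - ε) * (1 + γ) := by
    have e1 : 0 < F ε := hε1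
    simp only [hF] at e1
    have e2 : (2 * χ - 5 * u / 3 - 5 * ε) / (u / 3 + ε) = (1 - γ) / (1 + γ) := by
      have h3 : u / 3 + ε ≠ 0 := by positivity
      have h4 : 1 + γ ≠ 0 := by positivity
      rw [div_eq_div_iff h3 h4]
      have h5 : u / 3 + ε = (1 + γ) * (A - 2 * ε) := by
        rw [add_mul, one_mul, hγA, hA]; ring
      have h6 : 2 * χ - 5 * u / 3 - 5 * ε = (1 - γ) * (A - 2 * ε) := by
        rw [sub_mul, one_mul, hγA, hA]; ring
      rw [h5, h6]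
      ring
    rw [e2, ← hκ] at e1
    have h4 : 0 < 1 + γ := by linarith
    have e3 : 0 < (χ - ε + (1 - γ) / (1 + γ) - 2 * (ν + κ / p + ε)) * (1 + γ) :=
      mul_pos e1 h4
    have e4 : (χ - ε + (1 - γ) / (1 + γ) - 2 * (ν + κ / p + ε)) * (1 + γ) =
        (χ - ε) * (1 + γ) + (1 - γ) - 2 * ((1 + γ) * (ν + κ / p + ε)) := by
      field_simp
    linarith
  have hne : O.Nonempty := by
    refine ⟨(ν + κ / p + ε, κ, u + ε, χ - ε, γ), ?_⟩
    have hκp : 0 < κ / p := by positivity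
    refine ⟨?_, ?_, ?_, ?_, hγ0, ?_, hκ0, ?_, ?_, hc1, ?_, ?_⟩
    · show ν + κ / p < ν + κ / p + ε
      linarith
    · show u < u + ε
      linarith
    · show χ - ε < χ
      linarith
    · show 0 < ν + κ / p + ε
      linarith
    · show 0 < u + ε
      linarith
    · show 0 < χ - ε
      linarith [hε4.2]
    · show (1 + γ) * (ν + κ / p + ε) < 1
      have e1 : (χ - ε) * (1 + γ) ≤ 1 / 2 * (1 + γ) :=
        mul_le_mul_of_nonneg_right (by linarith) (by linarith)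
      linarith
    · show 2 * (u + ε) - κ / 2 < 2 * (χ - ε)
      rw [hκ]
      linarith
    · show (u + ε) * (2 + 4 * γ / 3) < 2 * (χ - ε) * (1 + γ)
      have e1 : 2 * (χ - ε) * (1 + γ) - (u + ε) * (2 + 4 * γ / 3) =
          2 * (χ - u) - 4 * ε + 2 * (γ * (A - 2 * ε)) + 2 * γ * ε / 3 := by
        rw [hA]
        ring
      have e2 : 0 < 2 * γ * ε / 3 := by positivity
      rw [hγA] at e1
      linarith
  obtain ⟨b, κ', ξ, t0, γ', hq⟩ := exists_rat5 hOo hne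
  obtain ⟨q1, q2, q3, q4, q5, q6, q7, q8, q9, q10, q11, q12⟩ := hq
  obtain ⟨M, hM⟩ := cond_of' (φ := φ) hd he hexp β hfr hr (h := h) (v := v) (κ := (κ' : ℝ)) hp q1 q2
    q3 q8
  apply hv
  unfold Nset
  rw [Set.mem_iUnion]
  exact ⟨⟨⟨b, κ', ξ, t0, γ'⟩, M⟩, ⟨q4, q5, q6, q7, q8, q9, q10, q11, q12⟩, h, hM⟩

end Pool.Agent.Z97H.KZ
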