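import Pool.Agent.Z97H.KZ.PW2

/-!
# The upper bound with the moments at a single drift: preparations
-/

set_option autoImplicit false

open MeasureTheory ProbabilityTheory Filter Topology

namespace Pool.Agent.Z97H.KZ

open TH967.DP
open Pool.Agent.N662.SE

variable {d : ℕ}

/-- density points: near a density point `h` of `E` there are points of `E` close to `h + σ e` -/
lemma dens (E : Set (Fin d → ℝ)) {ρ : ℝ} (hρ : 0 < ρ) (hρ1 : ρ ≤ 1) :
    ∀ᵐ h : Fin d → ℝ, h ∈ E → ∀ e : Fin d → ℝ, ‖e‖ ≤ 1 →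
      ∀ᶠ σ in 𝓝[>] (0 : ℝ), ∃ s : Fin d → ℝ, h + s ∈ E ∧ ‖s - σ • e‖ ≤ ρ * σ := by
  have h1 := ae_imp_of_ae_restrict
    (Besicovitch.ae_tendsto_measure_inter_div (volume : Measure (Fin d → ℝ)) E)
  filter_upwards [h1] with h hh hE e he
  have h2 := hh hE
  have hc : ENNReal.ofReal (1 - (ρ / 2) ^ d) < 1 := by
    rw [← ENNReal.ofReal_one]
    apply (ENNReal.ofReal_lt_ofReal_iff one_pos).2
    have : 0 < (ρ / 2) ^ d := by positivity
    linarith
  have h3 := h2.eventually (lt_mem_nhds hc)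
  have ht : Tendsto (fun σ : ℝ => 2 * σ) (𝓝[>] 0) (𝓝[>] 0) := by
    apply tendsto_nhdsWithin_of_tendsto_nhds_of_eventually_within
    · have : Tendsto (fun σ : ℝ => 2 * σ) (𝓝 0) (𝓝 (2 * 0)) := by
        exact (continuous_const.mul continuous_id).tendsto 0
      rw [mul_zero] at this
      exact this.mono_left nhdsWithin_le_nhds
    · filter_upwards [self_mem_nhdsWithin] with σ hσ
      have : (0 : ℝ) < σ := hσ
      show (0 : ℝ) < 2 * σ
      linarith
  filter_upwards [ht.eventually h3, self_mem_nhdsWithin] with σ h4 hσ'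
  have hσ : 0 < σ := hσ'
  by_contra hcon
  push Not at hcon
  have hsub1 : Metric.closedBall (h + σ • e) (ρ * σ) ⊆ Metric.closedBall h (2 * σ) := by
    intro x hx
    rw [Metric.mem_closedBall, dist_eq_norm] at hx ⊢
    have e1 : x - h = (x - (h + σ • e)) + σ • e := by abel
    rw [e1]
    refine (norm_add_le _ _).trans ?_
    rw [norm_smul, Real.norm_eq_abs, abs_of_pos hσ]
    nlinarith
  have hsub2 : E ∩ Metric.closedBall h (2 * σ) ⊆
      Metric.closedBall h (2 * σ) \ Metric.closedBall (h + σ • e) (ρ * σ) := by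
    rintro x ⟨hxE, hxB⟩
    refine ⟨hxB, fun hx => ?_⟩
    have h5 := hcon (x - h) (by rwa [add_sub_cancel])
    rw [Metric.mem_closedBall, dist_eq_norm] at hx
    have e1 : x - h - σ • e = x - (h + σ • e) := by abel
    rw [e1] at h5
    linarith
  have hv1 : volume (Metric.closedBall h (2 * σ)) = ENNReal.ofReal ((2 * (2 * σ)) ^ d) := by
    rw [Real.volume_pi_closedBall _ (by positivity), Fintype.card_fin]
  have hv2 : volume (Metric.closedBall (h + σ • e) (ρ * σ)) =
      ENNReal.ofReal ((2 * (ρ * σ)) ^ d) := by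
    rw [Real.volume_pi_closedBall _ (by positivity), Fintype.card_fin]
  have h5 : volume (E ∩ Metric.closedBall h (2 * σ)) ≤
      ENNReal.ofReal ((2 * (2 * σ)) ^ d - (2 * (ρ * σ)) ^ d) := by
    refine (measure_mono hsub2).trans ?_
    rw [measure_diff hsub1 (Metric.isClosed_closedBall.measurableSet.nullMeasurableSet)
      (by rw [hv2]; exact ENNReal.ofReal_ne_top), hv1, hv2,
      ENNReal.ofReal_sub _ (by positivity)]
  have h6 : ENNReal.ofReal (1 - (ρ / 2) ^ d) * volume (Metric.closedBall h (2 * σ)) <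
      volume (E ∩ Metric.closedBall h (2 * σ)) := by
    have hne : volume (Metric.closedBall h (2 * σ)) ≠ 0 := by
      rw [hv1]
      exact (ENNReal.ofReal_pos.2 (by positivity)).ne'
    have hnt : volume (Metric.closedBall h (2 * σ)) ≠ ⊤ := by
      rw [hv1]
      exact ENNReal.ofReal_ne_top
    exact (ENNReal.lt_div_iff_mul_lt (Or.inl hne) (Or.inl hnt)).1 h4
  rw [hv1, ← ENNReal.ofReal_mul' (by positivity)] at h6
  have h7 : (1 - (ρ / 2) ^ d) * (2 * (2 * σ)) ^ d = (2 * (2 * σ)) ^ d - (2 * (ρ * σ)) ^ d := by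
    rw [sub_mul, one_mul, ← mul_pow]
    congr 2
    ring
  rw [h7] at h6
  exact absurd (h6.trans_le h5) (lt_irrefl _)

/-- the curvature in a general direction -/
lemma curv_gen (hd : 1 ≤ d) {φ : (Fin d → ℝ) → ℝ} (hφ : ConvexOn ℝ Set.univ φ) {h v : Fin d → ℝ}
    {C : ℝ} (hC : 0 ≤ C) (hc : ∀ (k : Fin d) (s : ℝ), |s| ≤ 1 →
      φ (h + Pi.single k s) ≤ φ h + s * v k + C * s ^ 2) (s : Fin d → ℝ) (hs : d * ‖s‖ ≤ 1) :
    φ (h + s) ≤ φ h + ∑ k, s k * v k + C * d ^ 2 * ‖s‖ ^ 2 := by
  have hd0 : (0 : ℝ) < d := by exact_mod_cast hd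
  have e1 : h + s = ∑ k : Fin d, (1 / (d : ℝ)) • (h + Pi.single k (d * s k)) := by
    rw [← Finset.smul_sum, Finset.sum_add_distrib, Finset.sum_const, Finset.card_univ,
      Fintype.card_fin, Finset.univ_sum_single (fun k => (d : ℝ) * s k)]
    funext j
    simp only [Pi.add_apply, Pi.smul_apply, smul_eq_mul, nsmul_eq_mul, Pi.natCast_apply,
      Pi.mul_apply]
    field_simp
  have h1 := hφ.map_sum_le (t := (Finset.univ : Finset (Fin d))) (w := fun _ => 1 / (d : ℝ))
    (p := fun k => h + Pi.single k (d * s k)) (fun _ _ => by positivity)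
    (by simp [hd0.ne']) (fun _ _ => Set.mem_univ _)
  rw [← e1] at h1
  refine h1.trans ?_
  have h2 : ∀ k : Fin d, (1 / (d : ℝ)) • φ (h + Pi.single k (d * s k)) ≤
      (1 / (d : ℝ)) * φ h + s k * v k + C * d * ‖s‖ ^ 2 := by
    intro k
    have hk : |d * s k| ≤ 1 := by
      rw [abs_mul, Nat.abs_cast]
      exact (mul_le_mul_of_nonneg_left (norm_le_pi_norm s k) hd0.le).trans hs
    have h3 := hc k (d * s k) hk
    rw [smul_eq_mul]
    have h4 : (1 / (d : ℝ)) * φ (h + Pi.single k (d * s k)) ≤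
        (1 / (d : ℝ)) * (φ h + d * s k * v k + C * (d * s k) ^ 2) :=
      mul_le_mul_of_nonneg_left h3 (by positivity)
    refine h4.trans ?_
    have e2 : (1 / (d : ℝ)) * (φ h + d * s k * v k + C * (d * s k) ^ 2) =
        (1 / (d : ℝ)) * φ h + s k * v k + C * d * s k ^ 2 := by
      field_simp
    rw [e2]
    have h5 : s k ^ 2 ≤ ‖s‖ ^ 2 := by
      rw [← sq_abs (s k)]
      exact pow_le_pow_left₀ (abs_nonneg _) (norm_le_pi_norm s k) 2
    have h6 : C * d * s k ^ 2 ≤ C * d * ‖s‖ ^ 2 := mul_le_mul_of_nonneg_left h5 (by positivity)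
    linarith
  refine (Finset.sum_le_sum fun k _ => h2 k).trans (le_of_eq ?_)
  rw [Finset.sum_add_distrib, Finset.sum_add_distrib, Finset.sum_const, Finset.sum_const,
    Finset.card_univ, Fintype.card_fin, nsmul_eq_mul, nsmul_eq_mul]
  field_simp

/-- pathwise tail bound in a general direction -/
lemma pp_gen (β : ℝ) (h : Fin d → ℝ) (η : ℕ → (Fin d → ℤ) → ℝ) (n i : ℕ) (hin : i ≤ n)
    (s : Fin d → ℝ) (u M : ℝ) (hM : ∀ z : Fin d → ℤ, (∀ j, |z j| ≤ n) →
      Real.log (part β h (fun j y => η (i + j) (z + y)) (n - i) Set.univ) ≤ M) :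
    part β h η n {w | u ≤ ∑ k, s k * (pos w i k : ℝ)} ≤
      Real.exp (-u + M) * part β (h + s) η i Set.univ := by
  classical
  obtain ⟨T, rfl⟩ := Nat.exists_eq_add_of_le hin
  have hTi : i + T - i = T := by omega
  rw [hTi] at hM
  unfold part
  rw [sum_append, Finset.mul_sum]
  refine Finset.sum_le_sum fun w _ => ?_
  rw [Set.indicator_of_mem (Set.mem_univ w)]
  set A : Set (Fin (i + T) → Step d) := {w | u ≤ ∑ k, s k * (pos w i k : ℝ)} with hA
  set F : (Fin (i + T) → Step d) → ℝ :=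
    fun w => Real.exp (β * energy η w + ∑ k, h k * (pos w (i + T) k : ℝ)) with hF
  have hfac : ∀ v : Fin T → Step d, F (Fin.append w v) =
      Real.exp (β * energy η w + ∑ j, h j * (pos w i j : ℝ)) *
        Real.exp (β * energy (shift i (pos w i) η) v + ∑ j, h j * (pos v T j : ℝ)) := by
    intro v
    rw [hF]
    simp only
    rw [← Real.exp_add, energy_append, pos_append_right]
    congr 1
    have e : ∑ j, h j * (((pos w i + pos v T) j : ℤ) : ℝ) =
        ∑ j, h j * (pos w i j : ℝ) + ∑ j, h j * (pos v T j : ℝ) := by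
      rw [← Finset.sum_add_distrib]
      refine Finset.sum_congr rfl fun j _ => ?_
      rw [Pi.add_apply]
      push_cast
      ring
    rw [e]
    ring
  have hind : ∀ v : Fin T → Step d, A.indicator F (Fin.append w v) ≤
      Real.exp (-u + ∑ k, s k * (pos w i k : ℝ)) * F (Fin.append w v) := by
    intro v
    have hpos : 0 < F (Fin.append w v) := Real.exp_pos _
    by_cases hv : Fin.append w v ∈ A
    · rw [Set.indicator_of_mem hv]
      have h1 : u ≤ ∑ k, s k * (pos (Fin.append w v) i k : ℝ) := hv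
      rw [pos_append_left w v le_rfl] at h1
      exact le_mul_of_one_le_left hpos.le (Real.one_le_exp (by linarith))
    · rw [Set.indicator_of_notMem hv]
      positivity
  have hZ : ∑ v : Fin T → Step d,
      Real.exp (β * energy (shift i (pos w i) η) v + ∑ j, h j * (pos v T j : ℝ)) ≤ Real.exp M := by
    have h1 := hM (pos w i) (fun j => by
      have := abs_pos_le w i j
      push_cast
      omega)
    have e : part β h (fun j y => η (i + j) (pos w i + y)) T Set.univ =
        ∑ v : Fin T → Step d,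
          Real.exp (β * energy (shift i (pos w i) η) v + ∑ j, h j * (pos v T j : ℝ)) := by
      unfold part
      refine Finset.sum_congr rfl fun v _ => ?_
      rw [Set.indicator_of_mem (Set.mem_univ v)]
      rfl
    rw [e] at h1
    rcases (Finset.sum_nonneg (s := Finset.univ) fun (v : Fin T → Step d) _ => (Real.exp_pos
      (β * energy (shift i (pos w i) η) v + ∑ j, h j * (pos v T j : ℝ))).le).eq_or_lt with h2 | h2
    · rw [← h2]
      exact (Real.exp_pos _).le
    · rwa [Real.log_le_iff_le_exp h2] at h1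
  calc ∑ v : Fin T → Step d, A.indicator F (Fin.append w v) ≤
        ∑ v : Fin T → Step d, Real.exp (-u + ∑ k, s k * (pos w i k : ℝ)) * F (Fin.append w v) :=
        Finset.sum_le_sum fun v _ => hind v
    _ = Real.exp (-u + ∑ k, s k * (pos w i k : ℝ)) *
        Real.exp (β * energy η w + ∑ j, h j * (pos w i j : ℝ)) *
        ∑ v : Fin T → Step d,
          Real.exp (β * energy (shift i (pos w i) η) v + ∑ j, h j * (pos v T j : ℝ)) := by
        rw [Finset.mul_sum]
        refine Finset.sum_congr rfl fun v _ => ?_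
        rw [hfac]
        ring
    _ ≤ Real.exp (-u + ∑ k, s k * (pos w i k : ℝ)) *
        Real.exp (β * energy η w + ∑ j, h j * (pos w i j : ℝ)) * Real.exp M :=
        mul_le_mul_of_nonneg_left hZ (by positivity)
    _ = Real.exp (-u + M) *
        Real.exp (β * energy η w + ∑ j, (h + s : Fin d → ℝ) j * (pos w i j : ℝ)) := by
        have e : ∑ j, (h + s : Fin d → ℝ) j * (pos w i j : ℝ) =
            ∑ j, h j * (pos w i j : ℝ) + ∑ k, s k * (pos w i k : ℝ) := by
          rw [← Finset.sum_add_distrib]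
          refine Finset.sum_congr rfl fun j _ => ?_
          rw [Pi.add_apply]
          ring
        rw [e, ← Real.exp_add, ← Real.exp_add, ← Real.exp_add]
        congr 1
        ring

/-- the signed unit vector -/
def sgv (t : Fin d × Bool) : Fin d → ℝ := Pi.single t.1 (if t.2 then 1 else -1)

lemma norm_sgv_le (t : Fin d × Bool) : ‖(sgv t : Fin d → ℝ)‖ ≤ 1 := by
  rw [pi_norm_le_iff_of_nonneg zero_le_one]
  intro j
  unfold sgv
  by_cases hj : j = t.1
  · subst hj
    rw [Pi.single_eq_same]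
    by_cases h2 : t.2 = true
    · simp [h2]
    · simp [h2]
  · rw [Pi.single_eq_of_ne hj]
    simp

/-- the directions detect a large coordinate -/
lemma detect (hd : 1 ≤ d) {σ R : ℝ} (hσ : 0 < σ) {s : Fin d × Bool → Fin d → ℝ}
    (hs : ∀ t, ‖s t - σ • sgv t‖ ≤ 1 / (4 * d) * σ) {x : Fin d → ℝ}
    (hx : ∃ k, 4 / 3 * R < |x k|) : ∃ t, σ * R < ∑ j, s t j * x j := by
  have hd0 : (0 : ℝ) < d := by exact_mod_cast hd
  haveI : Nonempty (Fin d) := ⟨⟨0, hd⟩⟩
  obtain ⟨k, hk⟩ := hx
  obtain ⟨k0, hk0⟩ := Finite.exists_max (fun j => |x j|)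
  have hX : 4 / 3 * R < |x k0| := lt_of_lt_of_le hk (hk0 k)
  set t : Fin d × Bool := (k0, decide (0 ≤ x k0)) with ht
  refine ⟨t, ?_⟩
  have e1 : ∑ j, (σ • sgv t) j * x j = σ * |x k0| := by
    rw [Finset.sum_eq_single k0]
    · show σ * sgv t k0 * x k0 = σ * |x k0|
      unfold sgv
      rw [show t.1 = k0 from rfl, Pi.single_eq_same, show t.2 = decide (0 ≤ x k0) from rfl]
      rcases le_or_gt 0 (x k0) with h0 | h0
      · rw [abs_of_nonneg h0]
        simp [h0]
      · rw [abs_of_neg h0]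
        simp [not_le.2 h0]
    · intro j _ hj
      show σ * sgv t j * x j = 0
      unfold sgv
      rw [show t.1 = k0 from rfl, Pi.single_eq_of_ne hj]
      ring
    · intro hh
      exact absurd (Finset.mem_univ k0) hh
  have e2 : |∑ j, (s t - σ • sgv t) j * x j| ≤ 1 / 4 * σ * |x k0| := by
    refine (Finset.abs_sum_le_sum_abs _ _).trans ?_
    have h1 : ∀ j ∈ (Finset.univ : Finset (Fin d)), |(s t - σ • sgv t) j * x j| ≤
        1 / (4 * d) * σ * |x k0| := by
      intro j _
      rw [abs_mul]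
      exact mul_le_mul ((norm_le_pi_norm _ j).trans (hs t)) (hk0 j) (abs_nonneg _)
        (by positivity)
    refine (Finset.sum_le_sum h1).trans (le_of_eq ?_)
    rw [Finset.sum_const, Finset.card_univ, Fintype.card_fin, nsmul_eq_mul]
    field_simp
  have e3 : ∑ j, s t j * x j = ∑ j, (σ • sgv t) j * x j + ∑ j, (s t - σ • sgv t) j * x j := by
    rw [← Finset.sum_add_distrib]
    apply Finset.sum_congr rfl
    intro j _
    simp only [Pi.sub_apply]
    ring
  rw [e3, e1]
  have e4 := (abs_le.1 e2).1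
  nlinarith

/-- the deterministic estimate -/
lemma det_gen (hd : 1 ≤ d) {β : ℝ} {h v : Fin d → ℝ} {η : ℕ → (Fin d → ℤ) → ℝ} {n : ℕ}
    {fr : (Fin d → ℝ) → ℕ → ℝ} {φ : (Fin d → ℝ) → ℝ} {C E R σ Er : ℝ}
    (hfr : ∀ h n, fr h n ≤ n * φ h) (hlow : n * φ h ≤ fr h n + Er)
    {s : Fin d × Bool → Fin d → ℝ} (hs : ∀ t, ‖s t - σ • sgv t‖ ≤ 1 / (4 * d) * σ)
    (hcurv : ∀ t, φ (h + s t) ≤ φ h + ∑ k, s t k * v k + C * σ ^ 2) (hC : 0 ≤ C)
    (hσ0 : 0 < σ)
    (ha : fr h n - E ≤ Real.log (part β h η n Set.univ))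
    (hb : ∀ i ≤ n, ∀ t, Real.log (part β (h + s t) η i Set.univ) ≤ fr (h + s t) i + E)
    (hc : ∀ i ≤ n, ∀ z : Fin d → ℤ, (∀ j, |z j| ≤ n) →
      Real.log (part β h (fun j y => η (i + j) (z + y)) (n - i) Set.univ) ≤ fr h (n - i) + E) :
    1 - 2 * d * (n + 1) * Real.exp (-(σ * R) + C * n * σ ^ 2 + 3 * E + Er) ≤
      prob β h η n (tb v (4 / 3 * R) n) := by
  set A : Set (Fin n → Step d) := tb v (4 / 3 * R) n with hA
  have hZ := part_univ_pos hd β h η n
  have piece : ∀ i ≤ n, ∀ t : Fin d × Bool,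
      part β h η n {w | i * (∑ k, s t k * v k) + σ * R ≤ ∑ k, s t k * (pos w i k : ℝ)} ≤
        Real.exp (n * φ h - σ * R + C * n * σ ^ 2 + 2 * E) := by
    intro i hi t
    have h1 := pp_gen β h η n i hi (s t) (i * (∑ k, s t k * v k) + σ * R) (fr h (n - i) + E)
      (hc i hi)
    have h2 : part β (h + s t) η i Set.univ ≤ Real.exp (fr (h + s t) i + E) :=
      (Real.log_le_iff_le_exp (part_univ_pos hd _ _ _ _)).1 (hb i hi t)
    refine h1.trans ?_
    refine (mul_le_mul_of_nonneg_left h2 (Real.exp_pos _).le).trans ?_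
    rw [← Real.exp_add]
    apply Real.exp_le_exp.2
    have h3 := hfr h (n - i)
    have h4 := hfr (h + s t) i
    have h5 := hcurv t
    have h6 : (i : ℝ) * φ (h + s t) ≤ i * (φ h + ∑ k, s t k * v k + C * σ ^ 2) :=
      mul_le_mul_of_nonneg_left h5 (Nat.cast_nonneg _)
    have hin : (i : ℝ) ≤ n := by exact_mod_cast hi
    have h7 : C * i * σ ^ 2 ≤ C * n * σ ^ 2 := by
      apply mul_le_mul_of_nonneg_right _ (sq_nonneg _)
      exact mul_le_mul_of_nonneg_left hin hC
    have h8 : ((n - i : ℕ) : ℝ) = n - i := Nat.cast_sub hi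
    rw [h8] at h3
    linarith
  have hcov : part β h η n Aᶜ ≤ ∑ t ∈ Finset.range (n + 1) ×ˢ (Finset.univ : Finset (Fin d × Bool)),
      part β h η n {w | t.1 * (∑ k, s t.2 k * v k) + σ * R ≤
        ∑ k, s t.2 k * (pos w t.1 k : ℝ)} := by
    apply Pool.Agent.N700.SE.UPD.part_le
    intro w hw
    have hw' : ¬ ∀ i : ℕ, i ≤ n → ∀ k, |(pos w i k : ℝ) - i * v k| ≤ 4 / 3 * R := hw
    push Not at hw'
    obtain ⟨i, hi, k, hik⟩ := hw'
    obtain ⟨t, ht⟩ := detect hd hσ0 hs (x := fun k => (pos w i k : ℝ) - i * v k) ⟨k, hik⟩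
    refine ⟨(i, t), ?_, ?_⟩
    · simp only [Finset.mem_product, Finset.mem_range, Finset.mem_univ, and_true]
      omega
    · show (i : ℝ) * (∑ k, s t k * v k) + σ * R ≤ ∑ k, s t k * (pos w i k : ℝ)
      have e1 : ∑ j, s t j * ((pos w i j : ℝ) - i * v j) =
          ∑ k, s t k * (pos w i k : ℝ) - i * (∑ k, s t k * v k) := by
        rw [Finset.mul_sum, ← Finset.sum_sub_distrib]
        apply Finset.sum_congr rfl
        intro j _
        ring
      rw [e1] at ht
      linarith
  have hcov2 : part β h η n Aᶜ ≤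
      2 * d * (n + 1) * Real.exp (n * φ h - σ * R + C * n * σ ^ 2 + 2 * E) := by
    refine hcov.trans ?_
    refine (Finset.sum_le_card_nsmul _ _
      (Real.exp (n * φ h - σ * R + C * n * σ ^ 2 + 2 * E)) ?_).trans ?_
    · intro t ht
      simp only [Finset.mem_product, Finset.mem_range, Finset.mem_univ, and_true] at ht
      exact piece t.1 (by omega) t.2
    · rw [nsmul_eq_mul, Finset.card_product, Finset.card_range, Finset.card_univ, Fintype.card_prod,
        Fintype.card_fin, Fintype.card_bool]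
      push_cast
      apply le_of_eq
      ring
  have hZ2 : Real.exp (n * φ h - Er - E) ≤ part β h η n Set.univ := by
    rw [← Real.exp_log hZ]
    apply Real.exp_le_exp.2
    linarith
  have hsplit := Pool.Agent.N700.SE.UPD.part_compl β h η n A
  have hprob : prob β h η n A = 1 - part β h η n Aᶜ / part β h η n Set.univ := by
    unfold prob
    rw [← hsplit] at hZ ⊢
    field_simp
    ring
  rw [hprob]
  have hq : part β h η n Aᶜ / part β h η n Set.univ ≤
      2 * d * (n + 1) * Real.exp (-(σ * R) + C * n * σ ^ 2 + 3 * E + Er) := by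
    rw [div_le_iff₀ hZ]
    calc part β h η n Aᶜ ≤ 2 * d * (n + 1) * Real.exp (n * φ h - σ * R + C * n * σ ^ 2 + 2 * E) :=
          hcov2
      _ = 2 * d * (n + 1) * (Real.exp (-(σ * R) + C * n * σ ^ 2 + 3 * E + Er) *
            Real.exp (n * φ h - Er - E)) := by
          rw [← Real.exp_add]
          congr 2
          ring
      _ ≤ 2 * d * (n + 1) * (Real.exp (-(σ * R) + C * n * σ ^ 2 + 3 * E + Er) *
            part β h η n Set.univ) := by
          apply mul_le_mul_of_nonneg_left _ (by positivity)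
          exact mul_le_mul_of_nonneg_left hZ2 (Real.exp_pos _).le
      _ = _ := by ring
  linarith

end Pool.Agent.Z97H.KZ
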