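import Pool.Agent.Z97H.KZ.PW3

/-!
# The upper bound with the moments at a single drift
-/

set_option autoImplicit false

open MeasureTheory ProbabilityTheory Filter Topology

namespace Pool.Agent.Z97H.KZ

open TH967.DP
open Pool.Agent.N662.SE

variable {d : ℕ}

/-- the tail from the moments -/
lemma tail_mom (hd : 1 ≤ d) {Ω : Type} [MeasurableSpace Ω] {P : Measure Ω}
    [IsProbabilityMeasure P] {ω : ℕ → (Fin d → ℤ) → Ω → ℝ} (he : IsEnv P ω)
    (hexp : ∀ b : ℝ, Integrable (fun x => Real.exp (b * ω 1 0 x)) P) (β : ℝ) {h : Fin d → ℝ}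
    {k : ℕ} {C ξ c : ℝ} (hC : 0 ≤ C) (hξ : 0 ≤ ξ) (hM : Mom P ω β k C ξ h) (m : ℕ)
    (z : Fin d → ℤ) (j n : ℕ) (hn : 1 ≤ n) (hj : j ≤ n) :
    P.real {x | (n : ℝ) ^ c ≤ |lw ω β h m z j x - free P ω β h j|} ≤
      C * (n : ℝ) ^ (-(k * (c - ξ))) := by
  have hn0 : (0 : ℝ) < n := by exact_mod_cast hn
  rcases Nat.eq_zero_or_pos j with rfl | hj0
  · have e : {x | (n : ℝ) ^ c ≤ |lw ω β h m z 0 x - free P ω β h 0|} = ∅ := by
      ext x
      simp only [Set.mem_ofPred_eq, Set.mem_empty_iff_false, iff_false, not_le]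
      rw [Pool.Agent.N427.SE.UPX.lw_z, Pool.Agent.N427.SE.UPX.free_z, sub_zero, abs_zero]
      exact Real.rpow_pos_of_pos hn0 _
    rw [e, measureReal_empty]
    positivity
  · obtain ⟨hi, hval⟩ := mom_shift hd he hexp β h m z j k
    have h1 := mul_meas_ge_le_integral_of_nonneg (μ := P)
      (Eventually.of_forall fun x => (by positivity : (0 : ℝ) ≤
        |lw ω β h m z j x - free P ω β h j| ^ k)) hi (((n : ℝ) ^ c) ^ k)
    have h2 := hM j hj0
    rw [hval] at h1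
    have h3 : (j : ℝ) ^ ((k : ℝ) * ξ) ≤ (n : ℝ) ^ ((k : ℝ) * ξ) :=
      Real.rpow_le_rpow (Nat.cast_nonneg j) (by exact_mod_cast hj) (by positivity)
    have h4 : P.real {x | (n : ℝ) ^ c ≤ |lw ω β h m z j x - free P ω β h j|} ≤
        P.real {x | ((n : ℝ) ^ c) ^ k ≤ |lw ω β h m z j x - free P ω β h j| ^ k} := by
      apply measureReal_mono _ (measure_ne_top _ _)
      intro x hx
      show ((n : ℝ) ^ c) ^ k ≤ |lw ω β h m z j x - free P ω β h j| ^ k
      exact pow_le_pow_left₀ (by positivity) hx k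
    have h5 : (0 : ℝ) < ((n : ℝ) ^ c) ^ k := by positivity
    have h6 : ((n : ℝ) ^ c) ^ k * P.real {x | (n : ℝ) ^ c ≤
        |lw ω β h m z j x - free P ω β h j|} ≤ C * (n : ℝ) ^ ((k : ℝ) * ξ) :=
      (mul_le_mul_of_nonneg_left h4 h5.le).trans (h1.trans (h2.trans
        (mul_le_mul_of_nonneg_left h3 hC)))
    rw [mul_comm, ← le_div_iff₀ h5] at h6
    refine h6.trans (le_of_eq ?_)
    rw [← Real.rpow_natCast ((n : ℝ) ^ c) k, ← Real.rpow_mul hn0.le, mul_div_assoc,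
      ← Real.rpow_sub hn0]
    congr 2
    ring

/-- a lower bound for an integral from an event -/
lemma int_ge_of_event {Ω : Type} [MeasurableSpace Ω] {P : Measure Ω} [IsProbabilityMeasure P]
    {f : Ω → ℝ} (hfm : Measurable f) (hf0 : ∀ x, 0 ≤ f x) (hf1 : ∀ x, f x ≤ 1) {S : Set Ω}
    {p q : ℝ} (hq : 0 ≤ q) (hS : P.real S ≤ p) (h : ∀ x ∉ S, 1 - q ≤ f x) :
    1 - q - p ≤ ∫ x, f x ∂P := by
  have hfi : Integrable f P := by
    apply (integrable_const (1 : ℝ)).mono' hfm.aestronglyMeasurable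
    refine Eventually.of_forall fun x => ?_
    rw [Real.norm_eq_abs, abs_of_nonneg (hf0 x)]
    exact hf1 x
  set T : Set Ω := {x | f x < 1 - q} with hT
  have hTm : MeasurableSet T := measurableSet_lt hfm measurable_const
  have hTS : T ⊆ S := by
    intro x hx
    by_contra hxS
    have h4 := h x hxS
    have h5 : f x < 1 - q := hx
    exact absurd h4 (not_le.2 h5)
  have hPT : P.real T ≤ p := (measureReal_mono hTS (measure_ne_top _ _)).trans hS
  have hpt : ∀ x, (1 - q) - T.indicator (fun _ => (1 : ℝ)) x ≤ f x := by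
    intro x
    by_cases hx : x ∈ T
    · rw [Set.indicator_of_mem hx]
      have := hf0 x
      linarith
    · rw [Set.indicator_of_notMem hx]
      have h4 : ¬ f x < 1 - q := hx
      linarith
  have hTi : Integrable (T.indicator (fun _ => (1 : ℝ))) P :=
    (integrable_const (1 : ℝ)).indicator hTm
  have h4 := integral_mono ((integrable_const (1 - q)).sub hTi) hfi hpt
  rw [integral_sub' (integrable_const _) hTi, integral_indicator_const _ hTm] at h4
  simp only [integral_const, probReal_univ, smul_eq_mul, mul_one, one_mul] at h4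
  linarith

lemma poly_bd (d : ℕ) {n : ℝ} (hn1 : 1 ≤ n) :
    (2 * d * (n + 1) + (n + 1) * (2 * n + 1) ^ d : ℝ) ≤ (4 * d + 2 * 3 ^ d) * n ^ (d + 1) := by
  have a1 : n + 1 ≤ 2 * n := by linarith
  have a2 : (2 * n + 1 : ℝ) ^ d ≤ (3 * n) ^ d := by
    apply pow_le_pow_left₀ (by positivity)
    linarith
  have a3 : n ≤ n ^ (d + 1) := by
    calc n = n ^ 1 := (pow_one _).symm
      _ ≤ n ^ (d + 1) := pow_le_pow_right₀ hn1 (by omega)
  have a4 : (n + 1) * (2 * n + 1) ^ d ≤ 2 * n * (3 * n) ^ d :=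
    mul_le_mul a1 a2 (by positivity) (by positivity)
  have a5 : 2 * n * (3 * n) ^ d = 2 * 3 ^ d * n ^ (d + 1) := by
    rw [mul_pow]; ring
  have a6 : 2 * (d : ℝ) * (n + 1) ≤ 4 * d * n ^ (d + 1) := by
    have : 2 * (d : ℝ) * (n + 1) ≤ 2 * d * (2 * n ^ (d + 1)) :=
      mul_le_mul_of_nonneg_left (by linarith) (by positivity)
    linarith
  linarith

/-- a slope with upper curvature is a subgradient -/
lemma sub_of_curv (hd : 1 ≤ d) {φ : (Fin d → ℝ) → ℝ} (hφ : ConvexOn ℝ Set.univ φ)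
    {h v : Fin d → ℝ} {C : ℝ} (hC : 0 ≤ C) (hc : ∀ (k : Fin d) (s : ℝ), |s| ≤ 1 →
      φ (h + Pi.single k s) ≤ φ h + s * v k + C * s ^ 2) : Pool.Agent.Z97H.DP.Sub φ h v := by
  intro h'
  set s : Fin d → ℝ := h' - h with hs
  set a : ℝ := ∑ k, (h' k - h k) * v k with ha
  have hd0 : (0 : ℝ) < d := by exact_mod_cast hd
  set D : ℝ := C * d ^ 2 * ‖s‖ ^ 2 with hD
  have hD0 : 0 ≤ D := by positivity
  have key : ∀ t : ℝ, 0 < t → t ≤ 1 → t * (d * ‖s‖) ≤ 1 → φ h + a - D * t ≤ φ h' := by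
    intro t ht ht1 ht2
    have n1 : (d : ℝ) * ‖(-t) • s‖ ≤ 1 := by
      rw [norm_smul, Real.norm_eq_abs, abs_neg, abs_of_pos ht]
      linarith
    have h1 := curv_gen hd hφ hC hc ((-t) • s) n1
    have e1 : ∑ k, ((-t) • s) k * v k = -t * a := by
      rw [ha, Finset.mul_sum]
      apply Finset.sum_congr rfl
      intro k _
      simp only [hs, Pi.smul_apply, Pi.sub_apply, smul_eq_mul]
      ring
    have e2 : ‖(-t) • s‖ ^ 2 = t ^ 2 * ‖s‖ ^ 2 := by
      rw [norm_smul, Real.norm_eq_abs, abs_neg, abs_of_pos ht, mul_pow]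
    rw [e1, e2] at h1
    -- the point `h` is between `h - t s` and `h + t s`
    have h2 := hφ.2 (Set.mem_univ (h + (-t) • s)) (Set.mem_univ (h + t • s))
      (show (0 : ℝ) ≤ 1 / 2 by norm_num) (show (0 : ℝ) ≤ 1 / 2 by norm_num) (by norm_num)
    have e3 : (1 / 2 : ℝ) • (h + (-t) • s) + (1 / 2 : ℝ) • (h + t • s) = h := by
      funext k
      simp only [Pi.add_apply, Pi.smul_apply, smul_eq_mul]
      ring
    rw [e3, smul_eq_mul, smul_eq_mul] at h2
    -- `h + t s` is between `h` and `h'`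
    have h3 := hφ.2 (Set.mem_univ h) (Set.mem_univ h') (show (0 : ℝ) ≤ 1 - t by linarith) ht.le
      (by ring)
    have e4 : (1 - t) • h + t • h' = h + t • s := by
      funext k
      simp only [hs, Pi.add_apply, Pi.smul_apply, Pi.sub_apply, smul_eq_mul]
      ring
    rw [e4, smul_eq_mul, smul_eq_mul] at h3
    have h4 : t * (φ h + a - D * t) ≤ t * φ h' := by
      have e5 : C * d ^ 2 * (t ^ 2 * ‖s‖ ^ 2) = D * t ^ 2 := by rw [hD]; ring
      rw [e5] at h1
      nlinarith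
    exact le_of_mul_le_mul_left h4 ht
  show φ h + a ≤ φ h'
  by_contra hcon
  push Not at hcon
  set g : ℝ := φ h + a - φ h' with hg
  have hg0 : 0 < g := by linarith
  have hns : 0 ≤ ‖s‖ := norm_nonneg s
  set t : ℝ := min (min 1 (1 / (d * ‖s‖ + 1))) (g / (2 * D + 1)) with ht
  have ht0 : 0 < t := lt_min (lt_min one_pos (by positivity)) (by positivity)
  have ht1 : t ≤ 1 := (min_le_left _ _).trans (min_le_left _ _)
  have ht2 : t * (d * ‖s‖) ≤ 1 := by
    calc t * (d * ‖s‖) ≤ 1 / (d * ‖s‖ + 1) * (d * ‖s‖) :=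
          mul_le_mul_of_nonneg_right ((min_le_left _ _).trans (min_le_right _ _)) (by positivity)
      _ ≤ 1 := by
        rw [one_div, inv_mul_le_iff₀ (by positivity)]
        linarith
  have ht3 : D * t ≤ g / 2 := by
    calc D * t ≤ D * (g / (2 * D + 1)) := mul_le_mul_of_nonneg_left (min_le_right _ _) hD0
      _ ≤ g / 2 := by
        rw [mul_div_assoc', div_le_div_iff₀ (by positivity) (by norm_num)]
        nlinarith
  have := key t ht0 ht1 ht2
  linarith

/-- The annealed upper bound with the moments at the drift `h` only. -/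
theorem upP (hd : 1 ≤ d) {Ω : Type} [MeasurableSpace Ω]
    {P : Measure Ω} [IsProbabilityMeasure P] {ω : ℕ → (Fin d → ℤ) → Ω → ℝ} (he : IsEnv P ω)
    (hexp : ∀ b : ℝ, Integrable (fun x => Real.exp (b * ω 1 0 x)) P) (β : ℝ)
    {φ : (Fin d → ℝ) → ℝ} {Cr : ℝ} (hφ : ConvexOn ℝ Set.univ φ)
    (hφ' : ∀ (h : Fin d → ℝ) (n : ℕ), free P ω β h n ≤ n * φ h ∧
      n * φ h ≤ free P ω β h n + Cr * Real.sqrt n * Real.log (n + 1)) :
    ∀ᵐ h : Fin d → ℝ, ∃ v : Fin d → ℝ, Pool.Agent.Z97H.DP.Sub φ h v ∧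
    ∀ ξ : ℝ, flucUp P ω β h < ξ → 0 < ξ → ξ < 1 → ∀ b : ℝ, (1 + ξ) / 2 < b → b ≤ 1 → ∀ K : ℝ,
    ∃ C : ℝ, ∀ n : ℕ, 1 ≤ n → 1 - C * (n : ℝ) ^ (-K) ≤
      ∫ x, prob β h (fun i y => ω i y x) n (tb v ((n : ℝ) ^ b) n) ∂P := by
  have hd0 : (0 : ℝ) < d := by exact_mod_cast hd
  have hd1 : (1 : ℝ) ≤ d := by exact_mod_cast hd
  have hdens : ∀ᵐ h : Fin d → ℝ, ∀ q : ℕ × ℕ × ℚ,
      h ∈ {h | Mom P ω β q.1 (q.2.1 : ℝ) (q.2.2 : ℝ) h} → ∀ e : Fin d → ℝ, ‖e‖ ≤ 1 →
      ∀ᶠ σ in 𝓝[>] (0 : ℝ), ∃ s : Fin d → ℝ,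
        h + s ∈ {h | Mom P ω β q.1 (q.2.1 : ℝ) (q.2.2 : ℝ) h} ∧
        ‖s - σ • e‖ ≤ 1 / (4 * d) * σ := by
    rw [ae_all_iff]
    intro q
    apply dens
    · positivity
    · rw [div_le_one (by positivity)]
      linarith
  filter_upwards [Pool.Agent.N281.SE.curv d φ hφ, hdens] with h hcv hdh
  obtain ⟨v, C, hC, hcurv⟩ := hcv
  refine ⟨v, sub_of_curv hd hφ hC hcurv, fun ξ hξu hξ hξ1 b hb hb1 K => ?_⟩
  -- the exponents
  obtain ⟨ξ₁, hξ₁1, hξ₁2⟩ := exists_rat_btwn hξu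
  have hξ₁0 : (0 : ℝ) ≤ ξ₁ := by
    have : 0 ≤ flucUp P ω β h := Real.sInf_nonneg fun t ht => ht.1.le
    linarith
  obtain ⟨ξ', hξ'1, hξ'2⟩ := exists_between hξ₁2
  obtain ⟨c1, hc1, hc1b⟩ := exists_between (show ξ < 2 * b - 1 by linarith)
  have hδ1 : 0 < ξ' - ξ₁ := by linarith
  have hδ2 : 0 < c1 - ξ₁ := by linarith
  obtain ⟨k, hk⟩ := exists_nat_ge ((d + 1 + |K|) / (c1 - ξ₁) + d / (ξ' - ξ₁) + 1)
  have hk0 : (0 : ℝ) ≤ (d + 1 + |K|) / (c1 - ξ₁) := by positivity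
  have hk0' : (0 : ℝ) ≤ d / (ξ' - ξ₁) := by positivity
  have hk1 : 1 ≤ k := by
    have : (1 : ℝ) ≤ k := by linarith
    exact_mod_cast this
  have hkd : (d : ℝ) ≤ k * (ξ' - ξ₁) := by
    rw [← div_le_iff₀ hδ1]
    linarith
  have hkK : (d + 1 + |K| : ℝ) ≤ k * (c1 - ξ₁) := by
    rw [← div_le_iff₀ hδ2]
    linarith
  obtain ⟨C₀, hC₀0, hC₀⟩ := mom_of_lt hd he hexp β h hξ₁1 k
  obtain ⟨M, hM⟩ := exists_nat_ge C₀
  have hMom : Mom P ω β k (M : ℝ) (ξ₁ : ℝ) h := fun n hn =>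
    (hC₀ n hn).trans (mul_le_mul_of_nonneg_right hM (by positivity))
  obtain ⟨C₂, hC₂0, hC₂⟩ := rate_mom hd he hexp β (fun n => (hφ' h n).1) (fun n => (hφ' h n).2)
    (Nat.cast_nonneg M) hk1 hMom hkd (by linarith) hξ'2
  -- the directions
  have hdir : ∀ᶠ σ in 𝓝[>] (0 : ℝ), ∀ t : Fin d × Bool, ∃ s : Fin d → ℝ,
      Mom P ω β k (M : ℝ) (ξ₁ : ℝ) (h + s) ∧ ‖s - σ • sgv t‖ ≤ 1 / (4 * d) * σ :=
    eventually_all.2 fun t => hdh (k, M, ξ₁) hMom (sgv t) (norm_sgv_le t)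
  obtain ⟨σ₀, hσ₀, hσ₀2⟩ := mem_nhdsGT_iff_exists_Ioo_subset.1 hdir
  have hσ₀p : 0 < σ₀ := hσ₀
  set C₃ : ℝ := 4 * C * d ^ 2 with hC₃
  have hC₃0 : 0 ≤ C₃ := by positivity
  set κ : ℝ := min (min (1 / (4 * C₃ + 4)) (1 / (2 * d))) (σ₀ / 2) with hκ
  have hκ0 : 0 < κ := lt_min (lt_min (by positivity) (by positivity)) (by positivity)
  have hκ1 : C₃ * κ ≤ 1 / 4 := by
    calc C₃ * κ ≤ C₃ * (1 / (4 * C₃ + 4)) :=
          mul_le_mul_of_nonneg_left ((min_le_left _ _).trans (min_le_left _ _)) hC₃0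
      _ ≤ 1 / 4 := by
        rw [mul_one_div, div_le_iff₀ (by positivity)]
        linarith
  have hκ2 : κ ≤ 1 / (2 * d) := (min_le_left _ _).trans (min_le_right _ _)
  have hκ3 : κ < σ₀ := lt_of_le_of_lt (min_le_right _ _) (by linarith)
  -- the constants
  set D : ℝ := (4 * d + 2 * 3 ^ d) * M with hD
  have hD0 : 0 ≤ D := by positivity
  obtain ⟨N, hN⟩ := eventually_atTop.1
    ((Pool.Agent.N427.SE.UPX.asyX hd (2 * C₂) κ b ξ c1 ξ hκ0 hξ hc1 hc1 hc1b).and
      (exp_small K ξ hξ))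
  refine ⟨max (1 + D) ((N : ℝ) ^ |K|), fun n hn => ?_⟩
  have hn1 : (1 : ℝ) ≤ n := by exact_mod_cast hn
  have hn0 : (0 : ℝ) < n := by linarith
  have hp0 : (0 : ℝ) < (n : ℝ) ^ (-K) := by positivity
  have hi0 : 0 ≤ ∫ x, prob β h (fun i y => ω i y x) n (tb v ((n : ℝ) ^ b) n) ∂P :=
    integral_nonneg fun x => prob_nonneg _ _ _ _
  rcases lt_or_ge n N with hNn | hNn
  · have h1 : 1 ≤ (N : ℝ) ^ |K| * (n : ℝ) ^ (-K) := by
      have h2 : (n : ℝ) ^ K ≤ (N : ℝ) ^ |K| := by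
        calc (n : ℝ) ^ K ≤ (n : ℝ) ^ |K| := Real.rpow_le_rpow_of_exponent_le hn1 (le_abs_self K)
          _ ≤ (N : ℝ) ^ |K| := Real.rpow_le_rpow hn0.le (by exact_mod_cast hNn.le) (abs_nonneg _)
      calc (1 : ℝ) = (n : ℝ) ^ K * (n : ℝ) ^ (-K) := by
            rw [← Real.rpow_add hn0, add_neg_cancel, Real.rpow_zero]
        _ ≤ _ := mul_le_mul_of_nonneg_right h2 hp0.le
    have h2 : (N : ℝ) ^ |K| * (n : ℝ) ^ (-K) ≤ max (1 + D) ((N : ℝ) ^ |K|) * (n : ℝ) ^ (-K) :=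
      mul_le_mul_of_nonneg_right (le_max_right _ _) hp0.le
    linarith
  · obtain ⟨hasy, hexpn⟩ := hN n hNn
    -- the directions at the scale `σ`
    set σ : ℝ := κ * (n : ℝ) ^ (b - 1) with hσ
    have hσ0 : 0 < σ := by positivity
    have hσκ : σ ≤ κ := by
      have h1 : (n : ℝ) ^ (b - 1) ≤ 1 :=
        Real.rpow_le_one_of_one_le_of_nonpos hn1 (by linarith)
      calc κ * (n : ℝ) ^ (b - 1) ≤ κ * 1 := mul_le_mul_of_nonneg_left h1 hκ0.le
        _ = κ := mul_one _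
    have hσI : σ ∈ Set.Ioo 0 σ₀ := ⟨hσ0, lt_of_le_of_lt hσκ hκ3⟩
    have hch : ∀ t : Fin d × Bool, ∃ s : Fin d → ℝ,
      Mom P ω β k (M : ℝ) (ξ₁ : ℝ) (h + s) ∧ ‖s - σ • sgv t‖ ≤ 1 / (4 * d) * σ := hσ₀2 hσI
    choose s hs1 hs2 using hch
    have hsn : ∀ t, ‖s t‖ ≤ 2 * σ := by
      intro t
      have e1 : s t = (s t - σ • sgv t) + σ • sgv t := by abel
      rw [e1]
      refine (norm_add_le _ _).trans ?_
      rw [norm_smul, Real.norm_eq_abs, abs_of_pos hσ0]
      have e2 : 1 / (4 * (d : ℝ)) ≤ 1 := by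
        rw [div_le_one (by positivity)]
        linarith
      have e3 := norm_sgv_le t
      have e4 := hs2 t
      have e5 : 1 / (4 * (d : ℝ)) * σ ≤ 1 * σ := mul_le_mul_of_nonneg_right e2 hσ0.le
      have e6 : σ * ‖(sgv t : Fin d → ℝ)‖ ≤ σ * 1 := mul_le_mul_of_nonneg_left e3 hσ0.le
      linarith
    have hcur : ∀ t, φ (h + s t) ≤ φ h + ∑ k, s t k * v k + C₃ * σ ^ 2 := by
      intro t
      have e1 : (d : ℝ) * ‖s t‖ ≤ 1 := by
        calc (d : ℝ) * ‖s t‖ ≤ d * (2 * κ) :=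
              mul_le_mul_of_nonneg_left ((hsn t).trans (by linarith)) hd0.le
          _ ≤ d * (2 * (1 / (2 * d))) := by gcongr
          _ = 1 := by field_simp
      have e2 := curv_gen hd hφ hC hcurv (s t) e1
      have e3 : C * d ^ 2 * ‖s t‖ ^ 2 ≤ C * d ^ 2 * (2 * σ) ^ 2 :=
        mul_le_mul_of_nonneg_left (pow_le_pow_left₀ (norm_nonneg _) (hsn t) 2) (by positivity)
      have e4 : C * d ^ 2 * (2 * σ) ^ 2 = C₃ * σ ^ 2 := by rw [hC₃]; ring
      linarith
    -- the exceptional event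
    let box : Finset (Fin d → ℤ) := Finset.Icc (fun _ => -(n : ℤ)) (fun _ => (n : ℤ))
    let B1 : ℕ × Fin d × Bool → Set Ω := fun t =>
      {x | (n : ℝ) ^ c1 ≤ |lw ω β (h + s t.2) 0 0 t.1 x - free P ω β (h + s t.2) t.1|}
    let B2 : ℕ × (Fin d → ℤ) → Set Ω := fun t =>
      {x | (n : ℝ) ^ c1 ≤ |lw ω β h t.1 t.2 (n - t.1) x - free P ω β h (n - t.1)|}
    let T1 : Finset (ℕ × Fin d × Bool) := Finset.range (n + 1) ×ˢ Finset.univ
    let T2 : Finset (ℕ × (Fin d → ℤ)) := Finset.range (n + 1) ×ˢ box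
    set p : ℝ := M * (n : ℝ) ^ (-(k * (c1 - ξ₁))) with hp
    have hp00 : 0 ≤ p := by positivity
    have b1 : P.real (⋃ t ∈ T1, B1 t) ≤ 2 * d * (n + 1) * p := by
      refine (measureReal_biUnion_finset_le _ _).trans ?_
      have h1 : ∀ t ∈ T1, P.real (B1 t) ≤ p := by
        intro t ht
        have ht1 : t.1 < n + 1 := Finset.mem_range.1 (Finset.mem_product.1 ht).1
        exact tail_mom hd he hexp β (Nat.cast_nonneg M) hξ₁0 (hs1 t.2) 0 0 t.1 n hn (by omega)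
      refine (Finset.sum_le_sum h1).trans (le_of_eq ?_)
      rw [Finset.sum_const, nsmul_eq_mul]
      congr 1
      show (((Finset.range (n + 1) ×ˢ (Finset.univ : Finset (Fin d × Bool))).card : ℕ) : ℝ) = _
      rw [Finset.card_product, Finset.card_range, Finset.card_univ, Fintype.card_prod,
        Fintype.card_fin, Fintype.card_bool]
      push_cast
      ring
    have hbox : (box.card : ℝ) = (2 * n + 1) ^ d := by
      have h1 : box.card = (2 * n + 1) ^ d := by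
        show (Finset.Icc (fun _ : Fin d => -(n : ℤ)) (fun _ => (n : ℤ))).card = _
        rw [Pi.card_Icc]
        simp only [Int.card_Icc, Finset.prod_const, Finset.card_univ, Fintype.card_fin]
        congr 1
        omega
      rw [h1]
      push_cast
      ring
    have b2 : P.real (⋃ t ∈ T2, B2 t) ≤ (n + 1) * (2 * n + 1) ^ d * p := by
      refine (measureReal_biUnion_finset_le _ _).trans ?_
      have h1 : ∀ t ∈ T2, P.real (B2 t) ≤ p := by
        intro t ht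
        exact tail_mom hd he hexp β (Nat.cast_nonneg M) hξ₁0 hMom t.1 t.2 (n - t.1) n hn
          (Nat.sub_le _ _)
      refine (Finset.sum_le_sum h1).trans (le_of_eq ?_)
      rw [Finset.sum_const, nsmul_eq_mul]
      congr 1
      show (((Finset.range (n + 1) ×ˢ box).card : ℕ) : ℝ) = _
      rw [Finset.card_product, Finset.card_range, Nat.cast_mul, hbox]
      push_cast
      ring
    have bS : P.real ((⋃ t ∈ T1, B1 t) ∪ (⋃ t ∈ T2, B2 t)) ≤ D * (n : ℝ) ^ (-K) := by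
      refine (measureReal_union_le _ _).trans ?_
      have h1 := poly_bd d hn1
      calc P.real (⋃ t ∈ T1, B1 t) + P.real (⋃ t ∈ T2, B2 t) ≤
            (2 * d * (n + 1) + (n + 1) * (2 * n + 1) ^ d) * p := by linarith
        _ ≤ (4 * d + 2 * 3 ^ d) * (n : ℝ) ^ (d + 1) * p := mul_le_mul_of_nonneg_right h1 hp00
        _ = D * ((n : ℝ) ^ (d + 1) * (n : ℝ) ^ (-(k * (c1 - ξ₁)))) := by rw [hp, hD]; ring
        _ ≤ D * (n : ℝ) ^ (-K) := by
            apply mul_le_mul_of_nonneg_left _ hD0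
            rw [← Real.rpow_natCast (n : ℝ) (d + 1), ← Real.rpow_add hn0]
            apply Real.rpow_le_rpow_of_exponent_le hn1
            push_cast
            have := le_abs_self K
            linarith
    -- the estimate outside of the exceptional event
    have key : ∀ x ∉ (⋃ t ∈ T1, B1 t) ∪ (⋃ t ∈ T2, B2 t), 1 - (n : ℝ) ^ (-K) ≤
        prob β h (fun i y => ω i y x) n (tb v ((n : ℝ) ^ b) n) := by
      intro x hx
      rw [Set.mem_union, not_or] at hx
      obtain ⟨x1, x2⟩ := hx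
      have y1 : ∀ i ≤ n, ∀ t : Fin d × Bool,
          |lw ω β (h + s t) 0 0 i x - free P ω β (h + s t) i| < (n : ℝ) ^ c1 := by
        intro i hi t
        by_contra hcon
        push Not at hcon
        apply x1
        rw [Set.mem_iUnion₂]
        refine ⟨(i, t), ?_, hcon⟩
        exact Finset.mem_product.2 ⟨Finset.mem_range.2 (by show i < n + 1; omega),
          Finset.mem_univ _⟩
      have y2 : ∀ i ≤ n, ∀ z : Fin d → ℤ, (∀ j, |z j| ≤ n) →
          |lw ω β h i z (n - i) x - free P ω β h (n - i)| < (n : ℝ) ^ c1 := by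
        intro i hi z hz
        by_contra hcon
        push Not at hcon
        apply x2
        rw [Set.mem_iUnion₂]
        refine ⟨(i, z), ?_, hcon⟩
        refine Finset.mem_product.2 ⟨Finset.mem_range.2 (by show i < n + 1; omega), ?_⟩
        show z ∈ Finset.Icc (fun _ : Fin d => -(n : ℤ)) (fun _ => (n : ℤ))
        rw [Finset.mem_Icc]
        exact ⟨fun j => (abs_le.1 (hz j)).1, fun j => (abs_le.1 (hz j)).2⟩
      have hdet := det_gen (R := 3 / 4 * (n : ℝ) ^ b) hd (β := β) (h := h) (v := v)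
        (η := fun i y => ω i y x) (n := n) (fr := fun h n => free P ω β h n) (φ := φ) (C := C₃)
        (E := (n : ℝ) ^ c1) (σ := σ) (Er := C₂ * (n : ℝ) ^ ξ)
        (fun h n => (hφ' h n).1) (hC₂ n hn) hs2 hcur hC₃0 hσ0
        (by
          have h1 := y2 0 (Nat.zero_le _) 0 (fun j => by simp)
          rw [Nat.sub_zero, lw_zero'] at h1
          have h2 := (abs_lt.1 h1).1
          linarith)
        (by
          intro i hi t
          have h1 := y1 i hi t
          rw [lw_zero'] at h1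
          have h2 := (abs_lt.1 h1).2
          linarith)
        (by
          intro i hi z hz
          have h1 := (abs_lt.1 (y2 i hi z hz)).2
          have e : Real.log (part β h (fun j y => ω (i + j) (z + y) x) (n - i) Set.univ) =
            lw ω β h i z (n - i) x := rfl
          show Real.log (part β h (fun j y => ω (i + j) (z + y) x) (n - i) Set.univ) ≤ _
          rw [e]
          linarith)
      have eR : 4 / 3 * (3 / 4 * (n : ℝ) ^ b) = (n : ℝ) ^ b := by ring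
      rw [eR] at hdet
      refine le_trans ?_ hdet
      have hexp1 : -(σ * (3 / 4 * (n : ℝ) ^ b)) + C₃ * n * σ ^ 2 ≤
          -(κ / 2 * (n : ℝ) ^ (2 * b - 1)) := by
        have e1 : σ * (n : ℝ) ^ b = κ * (n : ℝ) ^ (2 * b - 1) := by
          rw [hσ, mul_assoc, ← Real.rpow_add hn0]
          congr 2
          ring
        have e2 : (n : ℝ) * σ ^ 2 = κ ^ 2 * (n : ℝ) ^ (2 * b - 1) := by
          have e3 : (n : ℝ) ^ (2 * b - 1) = n * ((n : ℝ) ^ (b - 1)) ^ 2 := by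
            rw [← Real.rpow_natCast, ← Real.rpow_mul hn0.le]
            nth_rewrite 2 [← Real.rpow_one (n : ℝ)]
            rw [← Real.rpow_add hn0]
            congr 1
            push_cast
            ring
          rw [e3, hσ]
          ring
        have hX : 0 ≤ κ * (n : ℝ) ^ (2 * b - 1) := by positivity
        have h3 : C₃ * κ * (κ * (n : ℝ) ^ (2 * b - 1)) ≤ 1 / 4 * (κ * (n : ℝ) ^ (2 * b - 1)) :=
          mul_le_mul_of_nonneg_right hκ1 hX
        calc -(σ * (3 / 4 * (n : ℝ) ^ b)) + C₃ * n * σ ^ 2 =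
              -(3 / 4 * (σ * (n : ℝ) ^ b)) + C₃ * (n * σ ^ 2) := by ring
          _ = -(3 / 4 * (κ * (n : ℝ) ^ (2 * b - 1))) +
              C₃ * κ * (κ * (n : ℝ) ^ (2 * b - 1)) := by rw [e1, e2]; ring
          _ ≤ _ := by linarith
      have hlog : C₂ * (n : ℝ) ^ ξ ≤ 2 * C₂ * (n : ℝ) ^ ξ * Real.log (n + 1) := by
        have e1 : 1 / 2 ≤ Real.log ((n : ℝ) + 1) := by
          have e2 := Real.log_two_gt_d9
          have e3 : Real.log 2 ≤ Real.log ((n : ℝ) + 1) :=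
            Real.log_le_log (by norm_num) (by linarith)
          linarith
        calc C₂ * (n : ℝ) ^ ξ = 2 * C₂ * (n : ℝ) ^ ξ * (1 / 2) := by ring
          _ ≤ _ := mul_le_mul_of_nonneg_left e1 (by positivity)
      have hfinal : 2 * (d : ℝ) * (n + 1) * Real.exp (-(σ * (3 / 4 * (n : ℝ) ^ b)) +
          C₃ * n * σ ^ 2 + 3 * (n : ℝ) ^ c1 + C₂ * (n : ℝ) ^ ξ) ≤ Real.exp (-(n : ℝ) ^ ξ) := by
        refine le_trans ?_ hasy
        apply mul_le_mul_of_nonneg_left _ (by positivity)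
        apply Real.exp_le_exp.2
        linarith
      linarith
    have hfin := int_ge_of_event (P := P) (measurable_prob β h (tb v ((n : ℝ) ^ b) n) he.meas)
      (fun x => prob_nonneg _ _ _ _) (fun x => prob_le_one hd _ _ _ _) hp0.le bS key
    have h5 : (1 + D) * (n : ℝ) ^ (-K) ≤ max (1 + D) ((N : ℝ) ^ |K|) * (n : ℝ) ^ (-K) :=
      mul_le_mul_of_nonneg_right (le_max_left _ _) hp0.le
    linarith

end Pool.Agent.Z97H.KZ
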