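import Pool.Agent.Z97H.KZ.PW4

/-!
# The scaling relation, with the moments at a single drift
-/

set_option autoImplicit false

open MeasureTheory ProbabilityTheory Filter Topology

namespace Pool.Agent.Z97H.KZ

open TH967.DP (Step pos energy)
open Pool.Agent.N662.SE

variable {d : ℕ}

/-- the upper bound -/
theorem upper_rel' (hd : 1 ≤ d) {Ω : Type} [MeasurableSpace Ω]
    {P : Measure Ω} [IsProbabilityMeasure P] {ω : ℕ → (Fin d → ℤ) → Ω → ℝ} (he : IsEnv P ω)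
    (hexp : ∀ b : ℝ, Integrable (fun x => Real.exp (b * ω 1 0 x)) P) (β : ℝ)
    {φ : (Fin d → ℝ) → ℝ} {Cr : ℝ} (hφ : ConvexOn ℝ Set.univ φ)
    (hφ' : ∀ (h : Fin d → ℝ) (n : ℕ), free P ω β h n ≤ n * φ h ∧
      n * φ h ≤ free P ω β h n + Cr * Real.sqrt n * Real.log (n + 1)) :
    ∀ᵐ h : Fin d → ℝ, ∃ v : Fin d → ℝ, Pool.Agent.Z97H.DP.Sub φ h v ∧ ∀ p : ℝ, 0 < p →
      2 * wanderP P ω β p h v - 1 ≤ flucUp P ω β h := by
  filter_upwards [upP hd he hexp β hφ hφ'] with h hh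
  obtain ⟨v, hsub, hv⟩ := hh
  refine ⟨v, hsub, fun p hp => ?_⟩
  by_contra hcon
  push Not at hcon
  have h0 : 0 ≤ flucUp P ω β h := Real.sInf_nonneg fun t ht => ht.1.le
  have h2 : flucUp P ω β h ≤ 1 / 2 := flucUp_le_half hd he hexp β h
  obtain ⟨ξ, hξ1, hξ2⟩ := exists_between (lt_min hcon (by linarith : flucUp P ω β h < 1))
  have hξ3 := lt_min_iff.1 hξ2
  obtain ⟨b, hb1, hb2⟩ := exists_between
    (lt_min (by linarith [hξ3.1] : (1 + ξ) / 2 < wanderP P ω β p h v)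
      (by linarith [hξ3.2] : (1 + ξ) / 2 < 1))
  have hb3 := lt_min_iff.1 hb2
  obtain ⟨C, hCC⟩ := hv ξ hξ1 (by linarith) hξ3.2 b hb1 hb3.2.le p
  have h1 : wanderP P ω β p h v ≤ b :=
    csInf_le ⟨0, fun _ hξ => hξ.1.le⟩
      ⟨by linarith, moment_of_conf hd he.meas hp (by linarith) hCC⟩
  linarith [hb3.1]

/-- The exceptional slopes are not seen at the drifts with positive curvature. -/
lemma null_pre {φ : (Fin d → ℝ) → ℝ} {N : Set (Fin d → ℝ)} (hN : volume N = 0)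
    (vv : (Fin d → ℝ) → (Fin d → ℝ)) :
    volume {h : Fin d → ℝ | Pool.Agent.Z97H.DP.Sub φ h (vv h) ∧ vv h ∈ N ∧
      ∃ c r : ℝ, 0 < c ∧ 0 < r ∧ ∀ h' : Fin d → ℝ, ‖h' - h‖ ≤ r →
        φ h + ∑ k, (h' k - h k) * vv h k + c * ‖h' - h‖ ^ 2 ≤ φ h'} = 0 := by
  set H : Set (Fin d → ℝ) := {h : Fin d → ℝ | Pool.Agent.Z97H.DP.Sub φ h (vv h) ∧ vv h ∈ N ∧
      ∃ c r : ℝ, 0 < c ∧ 0 < r ∧ ∀ h' : Fin d → ℝ, ‖h' - h‖ ≤ r →
        φ h + ∑ k, (h' k - h k) * vv h k + c * ‖h' - h‖ ^ 2 ≤ φ h'} with hH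
  -- the pieces
  set Hj : ℕ → Set (Fin d → ℝ) := fun j => {h : Fin d → ℝ | Pool.Agent.Z97H.DP.Sub φ h (vv h) ∧
    vv h ∈ N ∧ ∀ h' : Fin d → ℝ, ‖h' - h‖ ≤ 1 / (j + 1) →
        φ h + ∑ k, (h' k - h k) * vv h k + 1 / (j + 1) * ‖h' - h‖ ^ 2 ≤ φ h'} with hHj
  obtain ⟨q, hq⟩ := TopologicalSpace.exists_dense_seq (Fin d → ℝ)
  have hcover : H ⊆ ⋃ p : ℕ × ℕ, Hj p.1 ∩ Metric.ball (q p.2) (1 / (2 * (p.1 + 1))) := by
    rintro h ⟨h1, h2, c, r, hc, hr, h3⟩
    obtain ⟨j, hj⟩ := exists_nat_ge (max (1 / c) (1 / r))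
    have hj0 : (0 : ℝ) < (j : ℝ) + 1 := by positivity
    have hjc : 1 / ((j : ℝ) + 1) ≤ c := by
      rw [div_le_iff₀ hj0]
      have := (le_max_left _ _).trans hj
      rw [div_le_iff₀ hc] at this
      nlinarith
    have hjr : 1 / ((j : ℝ) + 1) ≤ r := by
      rw [div_le_iff₀ hj0]
      have := (le_max_right _ _).trans hj
      rw [div_le_iff₀ hr] at this
      nlinarith
    obtain ⟨i, hi⟩ := hq.exists_dist_lt h (show (0 : ℝ) < 1 / (2 * (j + 1)) by positivity)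
    rw [Set.mem_iUnion]
    refine ⟨(j, i), ⟨h1, h2, fun h' hh' => ?_⟩, hi⟩
    have e1 := h3 h' (hh'.trans hjr)
    have e2 : 1 / ((j : ℝ) + 1) * ‖h' - h‖ ^ 2 ≤ c * ‖h' - h‖ ^ 2 :=
      mul_le_mul_of_nonneg_right hjc (sq_nonneg _)
    linarith
  apply measure_mono_null hcover
  rw [measure_iUnion_null_iff]
  rintro ⟨j, i⟩
  set W : Set (Fin d → ℝ) := Hj j ∩ Metric.ball (q i) (1 / (2 * (j + 1))) with hW
  have hj0 : (0 : ℝ) < (j : ℝ) + 1 := by positivity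
  -- the slope is expanding
  have hexpd : ∀ h ∈ W, ∀ h' ∈ W, ‖h' - h‖ ≤ ((j + 1) * d) * ‖vv h' - vv h‖ := by
    intro h hh h' hh'
    have h1 : ‖h' - h‖ ≤ 1 / (j + 1) := by
      have e1 : dist h (q i) < 1 / (2 * (j + 1)) := hh.2
      have e2 : dist h' (q i) < 1 / (2 * (j + 1)) := hh'.2
      rw [← dist_eq_norm]
      have e3 := dist_triangle_right h' h (q i)
      have e4 : 1 / (2 * ((j : ℝ) + 1)) + 1 / (2 * (j + 1)) = 1 / (j + 1) := by
        field_simp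
        ring
      linarith
    have h2 := hh.1.2.2 h' h1
    have h3 := hh'.1.1 h
    have e1 : ∑ k, (h k - h' k) * vv h' k = -∑ k, (h' k - h k) * vv h' k := by
      rw [← Finset.sum_neg_distrib]
      apply Finset.sum_congr rfl
      intro k _
      ring
    rw [e1] at h3
    have e2 : ∑ k, (h' k - h k) * (vv h' k - vv h k) =
        ∑ k, (h' k - h k) * vv h' k - ∑ k, (h' k - h k) * vv h k := by
      rw [← Finset.sum_sub_distrib]
      apply Finset.sum_congr rfl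
      intro k _
      ring
    have h4 : 1 / ((j : ℝ) + 1) * ‖h' - h‖ ^ 2 ≤ ∑ k, (h' k - h k) * (vv h' k - vv h k) := by
      rw [e2]
      linarith
    have h5 : ∑ k, (h' k - h k) * (vv h' k - vv h k) ≤ d * (‖h' - h‖ * ‖vv h' - vv h‖) := by
      calc ∑ k, (h' k - h k) * (vv h' k - vv h k) ≤
            ∑ _k : Fin d, ‖h' - h‖ * ‖vv h' - vv h‖ := by
            apply Finset.sum_le_sum
            intro k _
            calc (h' k - h k) * (vv h' k - vv h k) ≤ |(h' k - h k) * (vv h' k - vv h k)| :=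
                  le_abs_self _
              _ = |h' k - h k| * |vv h' k - vv h k| := abs_mul _ _
              _ ≤ ‖h' - h‖ * ‖vv h' - vv h‖ :=
                  mul_le_mul (norm_le_pi_norm (h' - h) k) (norm_le_pi_norm (vv h' - vv h) k)
                    (abs_nonneg _) (norm_nonneg _)
        _ = _ := by simp
    rcases (norm_nonneg (h' - h)).lt_or_eq with h6 | h6
    · have h7 : ‖h' - h‖ * ‖h' - h‖ ≤ ((j + 1) * d) * ‖vv h' - vv h‖ * ‖h' - h‖ := by
        have h8 := h4.trans h5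
        rw [div_mul_eq_mul_div, one_mul, div_le_iff₀ hj0] at h8
        nlinarith
      exact le_of_mul_le_mul_right h7 h6
    · rw [← h6]
      positivity
  -- the inverse is Lipschitz
  classical
  set g : (Fin d → ℝ) → (Fin d → ℝ) := fun v =>
    if hv : ∃ h ∈ W, vv h = v then Classical.choose hv else 0 with hg
  have hgs : ∀ v ∈ vv '' W, g v ∈ W ∧ vv (g v) = v := by
    rintro v ⟨h, hh, rfl⟩
    have hv : ∃ h' ∈ W, vv h' = vv h := ⟨h, hh, rfl⟩
    simp only [hg, dif_pos hv]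
    exact Classical.choose_spec hv
  have hlip : LipschitzOnWith (Real.toNNReal ((j + 1) * d)) g (vv '' W) := by
    apply LipschitzOnWith.of_dist_le_mul
    intro v hv v' hv'
    obtain ⟨a1, a2⟩ := hgs v hv
    obtain ⟨b1, b2⟩ := hgs v' hv'
    rw [dist_eq_norm, dist_eq_norm, Real.coe_toNNReal _ (by positivity)]
    have := hexpd (g v') b1 (g v) a1
    rwa [a2, b2] at this
  have himg : W ⊆ g '' (vv '' W) := by
    intro h hh
    refine ⟨vv h, ⟨h, hh, rfl⟩, ?_⟩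
    obtain ⟨a1, a2⟩ := hgs (vv h) ⟨h, hh, rfl⟩
    have := hexpd (g (vv h)) a1 h hh
    rw [a2, sub_self, norm_zero, mul_zero] at this
    have h1 : h - g (vv h) = 0 := norm_le_zero_iff.1 this
    exact (sub_eq_zero.1 h1).symm
  have hVN : vv '' W ⊆ N := by
    rintro v ⟨h, hh, rfl⟩
    exact hh.1.2.1
  apply measure_mono_null himg
  have h1 := hlip.hausdorffMeasure_image_le (d := (Fintype.card (Fin d) : ℝ)) (by positivity)
  rw [hausdorffMeasure_pi_real] at h1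
  have h2 : volume (vv '' W) = 0 := measure_mono_null hVN hN
  rw [h2, mul_zero] at h1
  exact le_antisymm h1 (zero_le)

/-- The scaling relation. -/
theorem relation' (hd : 1 ≤ d) {Ω : Type} [MeasurableSpace Ω]
    (P : Measure Ω) [IsProbabilityMeasure P] (ω : ℕ → (Fin d → ℤ) → Ω → ℝ) (he : IsEnv P ω)
    (hexp : ∀ b : ℝ, Integrable (fun x => Real.exp (b * ω 1 0 x)) P) (β : ℝ)
    {φ : (Fin d → ℝ) → ℝ} {Cr : ℝ} (hφ : ConvexOn ℝ Set.univ φ)
    (hφ' : ∀ (h : Fin d → ℝ) (n : ℕ), free P ω β h n ≤ n * φ h ∧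
      n * φ h ≤ free P ω β h n + Cr * Real.sqrt n * Real.log (n + 1)) :
    (∀ᵐ v : Fin d → ℝ, ∀ (h : Fin d → ℝ) (p : ℝ), 0 < p →
        flucUp P ω β h * (chi P ω β h - (2 * wanderP P ω β p h v - 1)) ≤
          (6 + 8 * flucUp P ω β h / p) * (flucUp P ω β h - chi P ω β h) ∧
        (chi P ω β h = flucUp P ω β h → chi P ω β h ≤ 2 * wanderP P ω β p h v - 1)) ∧
      ∀ᵐ h : Fin d → ℝ, ∃ v : Fin d → ℝ,
        (∀ h' : Fin d → ℝ, φ h + ∑ k, (h' k - h k) * v k ≤ φ h') ∧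
        (∀ p : ℝ, 0 < p → 2 * wanderP P ω β p h v - 1 ≤ flucUp P ω β h) ∧
        ((∃ c r : ℝ, 0 < c ∧ 0 < r ∧ ∀ h' : Fin d → ℝ, ‖h' - h‖ ≤ r →
          φ h + ∑ k, (h' k - h k) * v k + c * ‖h' - h‖ ^ 2 ≤ φ h') →
          chi P ω β h = flucUp P ω β h →
          ∀ p : ℝ, 0 < p → chi P ω β h = 2 * wanderP P ω β p h v - 1) := by
  have hN2 : volume (Nset2 P ω β) = 0 :=
    Pool.Agent.Z97H.DP.null hd P ω he hexp β (fun h n => (hφ' h n).1) (fun h n => (hφ' h n).2)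
  have hN1 := Nset_null hd he hexp β (fun h n => (hφ' h n).1)
  set N : Set (Fin d → ℝ) := Nset P ω β φ ∪ Nset2 P ω β with hN
  have hN0 : volume N = 0 := measure_union_null hN1 hN2
  have part1 : ∀ v, v ∉ N → ∀ (h : Fin d → ℝ) (p : ℝ), 0 < p →
        flucUp P ω β h * (chi P ω β h - (2 * wanderP P ω β p h v - 1)) ≤
          (6 + 8 * flucUp P ω β h / p) * (flucUp P ω β h - chi P ω β h) ∧
        (chi P ω β h = flucUp P ω β h → chi P ω β h ≤ 2 * wanderP P ω β p h v - 1) := by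
    intro v hv h p hp
    have v1 : v ∉ Nset P ω β φ := fun hh => hv (Or.inl hh)
    have v2 : v ∉ Nset2 P ω β := fun hh => hv (Or.inr hh)
    have a1 := half_le hd he β hp v2 (h := h)
    have a2 := main_ineq' hd he hexp β (fun h n => (hφ' h n).1) (fun h n => (hφ' h n).2) hp v1 a1
    refine ⟨a2, fun heq => ?_⟩
    have h0 : 0 ≤ chi P ω β h := Real.sSup_nonneg fun t ht => ht.1.le
    rcases h0.lt_or_eq with h3 | h3
    · rw [← heq, sub_self, mul_zero] at a2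
      by_contra hcon
      push Not at hcon
      have : 0 < chi P ω β h * (chi P ω β h - (2 * wanderP P ω β p h v - 1)) :=
        mul_pos h3 (by linarith)
      linarith
    · linarith
  have hae : ∀ᵐ v : Fin d → ℝ, v ∉ N := measure_eq_zero_iff_ae_notMem.1 hN0
  refine ⟨hae.mono part1, ?_⟩
  classical
  have hup := upper_rel' hd he hexp β hφ hφ'
  set vv : (Fin d → ℝ) → (Fin d → ℝ) := fun h =>
    if hv : ∃ v : Fin d → ℝ, Pool.Agent.Z97H.DP.Sub φ h v ∧ ∀ p : ℝ, 0 < p →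
      2 * wanderP P ω β p h v - 1 ≤ flucUp P ω β h then Classical.choose hv else 0 with hvv
  have hnull := null_pre (φ := φ) hN0 vv
  filter_upwards [hup, measure_eq_zero_iff_ae_notMem.1 hnull] with h hh hh2
  have hspec : Pool.Agent.Z97H.DP.Sub φ h (vv h) ∧ ∀ p : ℝ, 0 < p →
      2 * wanderP P ω β p h (vv h) - 1 ≤ flucUp P ω β h := by
    simp only [hvv, dif_pos hh]
    exact Classical.choose_spec hh
  refine ⟨vv h, hspec.1, hspec.2, fun hcur heq p hp => ?_⟩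
  have hvN : vv h ∉ N := fun hmem => hh2 ⟨hspec.1, hmem, hcur⟩
  obtain ⟨-, a3⟩ := part1 (vv h) hvN h p hp
  have a4 := hspec.2 p hp
  have a5 := a3 heq
  linarith

end Pool.Agent.Z97H.KZ
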