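import Pool.Agent.Z97H.KZ.PW5

/-!
# The scaling relation: final form
-/

set_option autoImplicit false

open MeasureTheory ProbabilityTheory Filter Topology

namespace Pool.Agent.Z97H.KZ

open TH967.DP (Step pos energy)
open Pool.Agent.N662.SE

variable {d : ℕ}

lemma tendsto_logZ (hd : 1 ≤ d) {Ω : Type} [MeasurableSpace Ω]
    {P : Measure Ω} [IsProbabilityMeasure P] {ω : ℕ → (Fin d → ℤ) → Ω → ℝ} (he : IsEnv P ω)
    (hexp : ∀ b : ℝ, Integrable (fun x => Real.exp (b * ω 1 0 x)) P) (β : ℝ)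
    {φ : (Fin d → ℝ) → ℝ} {C : ℝ}
    (hφ' : ∀ (h : Fin d → ℝ) (n : ℕ), free P ω β h n ≤ n * φ h ∧
      n * φ h ≤ free P ω β h n + C * Real.sqrt n * Real.log (n + 1)) (h : Fin d → ℝ) :
    Tendsto (fun n : ℕ => (∫ x, logZ β h (fun i y => ω i y x) n ∂P) / (n : ℝ)) atTop
      (𝓝 (φ h - Real.log (2 * (d : ℝ)))) := by
  have hi : ∀ n : ℕ, Integrable (lw ω β h 0 0 n) P := fun n =>
    (Pool.Agent.Z97H.DP.conc d hd Ω P ω he hexp β h 0 0 n).2.1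
  have e1 : Tendsto (fun n : ℕ => free P ω β h n / n) atTop (𝓝 (φ h)) :=
    Pool.Agent.N316.SE.Ratex.lim_of_rate (fun n => (hφ' h n).1) (fun n => (hφ' h n).2)
  refine (e1.sub_const (Real.log (2 * (d : ℝ)))).congr' ?_
  filter_upwards [eventually_ge_atTop 1] with n hn
  have hn0 : (n : ℝ) ≠ 0 := by
    have : (0 : ℝ) < n := by exact_mod_cast hn
    exact this.ne'
  rw [integral_logZ hd (hi n)]
  field_simp

/-- The scaling relation. -/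
theorem scaling_relation (hd : 1 ≤ d) {Ω : Type} [MeasurableSpace Ω]
    (P : Measure Ω) [IsProbabilityMeasure P] (ω : ℕ → (Fin d → ℤ) → Ω → ℝ) (he : IsEnv P ω)
    (hexp : ∀ b : ℝ, Integrable (fun x => Real.exp (b * ω 1 0 x)) P) (β : ℝ) :
    ∃ φ : (Fin d → ℝ) → ℝ,
      (∀ h : Fin d → ℝ, Tendsto (fun n : ℕ =>
        (∫ x, logZ β h (fun i y => ω i y x) n ∂P) / (n : ℝ)) atTop (𝓝 (φ h))) ∧
      (∀ᵐ v : Fin d → ℝ, ∀ (h : Fin d → ℝ) (p : ℝ), 0 < p →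
        flucUp P ω β h * (chi P ω β h - (2 * wanderP P ω β p h v - 1)) ≤
          (6 + 8 * flucUp P ω β h / p) * (flucUp P ω β h - chi P ω β h) ∧
        (chi P ω β h = flucUp P ω β h → chi P ω β h ≤ 2 * wanderP P ω β p h v - 1)) ∧
      ∀ᵐ h : Fin d → ℝ, ∃ v : Fin d → ℝ,
        (∀ h' : Fin d → ℝ, φ h + ∑ k, (h' k - h k) * v k ≤ φ h') ∧
        (∀ p : ℝ, 0 < p → 2 * wanderP P ω β p h v - 1 ≤ flucUp P ω β h) ∧
        ((∃ c r : ℝ, 0 < c ∧ 0 < r ∧ ∀ h' : Fin d → ℝ, ‖h' - h‖ ≤ r →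
          φ h + ∑ k, (h' k - h k) * v k + c * ‖h' - h‖ ^ 2 ≤ φ h') →
          chi P ω β h = flucUp P ω β h →
          ∀ p : ℝ, 0 < p → chi P ω β h = 2 * wanderP P ω β p h v - 1) := by
  obtain ⟨φ, C, hφ, hφ'⟩ := Pool.Agent.Z97H.DP.rate d hd Ω P ω he hexp β
  obtain ⟨r1, r2⟩ := relation' hd P ω he hexp β hφ hφ'
  refine ⟨fun h => φ h - Real.log (2 * (d : ℝ)), tendsto_logZ hd he hexp β hφ', r1, ?_⟩
  filter_upwards [r2] with h hh
  obtain ⟨v, h1, h2, h3⟩ := hh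
  refine ⟨v, fun h' => ?_, h2, ?_⟩
  · have := h1 h'
    linarith
  · rintro ⟨c, r, hc, hr, hcur⟩
    apply h3
    refine ⟨c, r, hc, hr, fun h' hh' => ?_⟩
    have := hcur h' hh'
    linarith

end Pool.Agent.Z97H.KZ
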