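import Pool.Agent.Z97H.KZ.VarB
import Pool.Agent.N353.SE.SELD

/-!
# Splitting, monotonicity and auxiliary estimates
-/

set_option autoImplicit false

open MeasureTheory ProbabilityTheory Filter Topology

namespace Pool.Agent.Z97H.KZ

open TH967.DP Pool.Agent.N662.SE

variable {d : ℕ}

lemma mul_le_sup {f : ℕ → ℝ} (h0 : f 0 = 0) (hs : ∀ a b, f a + f b ≤ f (a + b)) (m q : ℕ) :
    q * f m ≤ f (q * m) := by
  induction q with
  | zero => simp [h0]
  | succ q ih =>
    have h1 := hs (q * m) m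
    have h2 : q * m + m = (q + 1) * m := by ring
    rw [h2] at h1
    push_cast
    linarith

/-- a good splitting -/
lemma split {f : ℕ → ℝ} (h0 : f 0 = 0) (hs : ∀ a b, f a + f b ≤ f (a + b)) {φ E : ℝ}
    (hfφ : ∀ n : ℕ, f n ≤ n * φ) (m : ℕ) {q : ℕ} (hq : 1 ≤ q) (hE : m * φ ≤ f m + E) :
    ∃ j, q ≤ j ∧ j < 2 * q ∧ f (m + j * m) - f m - f (j * m) ≤ 2 * E := by
  by_contra hcon
  push Not at hcon
  have h1 : ∑ j ∈ Finset.Ico q (2 * q), (f (m + j * m) - f m - f (j * m)) =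
      f (2 * q * m) - f (q * m) - q * f m := by
    have h2 : ∀ p : ℕ, ∑ j ∈ Finset.Ico q (q + p), (f (m + j * m) - f m - f (j * m)) =
        f ((q + p) * m) - f (q * m) - p * f m := by
      intro p
      induction p with
      | zero => simp
      | succ p ih =>
        rw [← add_assoc, Finset.sum_Ico_succ_top (by omega), ih]
        have e1 : m + (q + p) * m = (q + p + 1) * m := by ring
        rw [e1]
        push_cast
        ring
    have h3 := h2 q
    rw [show q + q = 2 * q by ring] at h3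
    exact h3
  have h2 : ∑ j ∈ Finset.Ico q (2 * q), (2 * E) < ∑ j ∈ Finset.Ico q (2 * q),
      (f (m + j * m) - f m - f (j * m)) := by
    apply Finset.sum_lt_sum_of_nonempty
    · rw [Finset.nonempty_Ico]
      omega
    · intro j hj
      rw [Finset.mem_Ico] at hj
      exact hcon j hj.1 hj.2
  rw [h1, Finset.sum_const, Nat.card_Ico, nsmul_eq_mul, show 2 * q - q = q by omega] at h2
  have h3 := mul_le_sup h0 hs m q
  have h4 := hfφ (2 * q * m)
  push_cast at h4
  have h5 : (0 : ℝ) < q := by exact_mod_cast hq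
  have h6 : (q : ℝ) * (m * φ) ≤ q * (f m + E) := mul_le_mul_of_nonneg_left hE h5.le
  nlinarith

lemma sum_abs_le_norm (x : Fin d → ℝ) : ∑ k, |x k| ≤ d * ‖x‖ := by
  calc ∑ k, |x k| ≤ ∑ _k : Fin d, ‖x‖ := Finset.sum_le_sum fun k _ => norm_le_pi_norm x k
    _ = d * ‖x‖ := by simp

lemma rho_le {n : ℕ} {r K T : ℝ} {h h' v v' : Fin d → ℝ} (hr : 0 ≤ r) (hK : 0 ≤ K)
    (hT : ‖v' - v‖ ≤ T) (hh : ‖h' - h‖ ≤ K * ‖v' - v‖) :
    rho n r h h' v v' ≤ Real.log 2 + d * K * T * r + n * (d * K * T * T) := by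
  have hT0 : 0 ≤ T := (norm_nonneg _).trans hT
  have h1 : ‖h' - h‖ ≤ K * T := hh.trans (mul_le_mul_of_nonneg_left hT hK)
  have hd0 : (0 : ℝ) ≤ d := Nat.cast_nonneg d
  have h2 : ∑ k, |h' k - h k| ≤ d * K * T := by
    refine (sum_abs_le_norm (h' - h)).trans ?_
    rw [mul_assoc]
    exact mul_le_mul_of_nonneg_left h1 hd0
  have h3 : ∑ k, |h' k - h k| * |v' k - v k| ≤ d * K * T * T := by
    calc ∑ k, |h' k - h k| * |v' k - v k| ≤ ∑ k, |h' k - h k| * T := by
          apply Finset.sum_le_sum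
          intro k _
          exact mul_le_mul_of_nonneg_left ((norm_le_pi_norm (v' - v) k).trans hT) (abs_nonneg _)
      _ = (∑ k, |h' k - h k|) * T := by rw [Finset.sum_mul]
      _ ≤ _ := mul_le_mul_of_nonneg_right h2 hT0
  unfold rho
  have h4 : (∑ k, |h' k - h k|) * r ≤ d * K * T * r := mul_le_mul_of_nonneg_right h2 hr
  have h5 : (n : ℝ) * ∑ k, |h' k - h k| * |v' k - v k| ≤ n * (d * K * T * T) :=
    mul_le_mul_of_nonneg_left h3 (Nat.cast_nonneg n)
  linarith

lemma exists_coord {x : Fin d → ℝ} {t : ℝ} (ht : 0 < t) (h : t ≤ ‖x‖) : ∃ k, t ≤ |x k| := by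
  by_contra hcon
  push Not at hcon
  have h1 : ‖x‖ < t := (pi_norm_lt_iff ht).2 fun k => hcon k
  linarith

/-- The drift is monotone in the slope. -/
lemma mono (hd : 1 ≤ d) {Ω : Type} [MeasurableSpace Ω] {P : Measure Ω} [IsProbabilityMeasure P]
    {ω : ℕ → (Fin d → ℤ) → Ω → ℝ} (he : IsEnv P ω) (β : ℝ) {h h' v v' : Fin d → ℝ} {b κ C : ℝ}
    (hb0 : 0 ≤ b) (hb1 : b < 1) (hκ : 0 < κ)
    (h1 : ∀ n : ℕ, 1 ≤ n → 1 - C * (n : ℝ) ^ (-κ) ≤
      ∫ x, prob β h (fun i y => ω i y x) n (tb v ((n : ℝ) ^ b) n) ∂P)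
    (h2 : ∀ n : ℕ, 1 ≤ n → 1 - C * (n : ℝ) ^ (-κ) ≤
      ∫ x, prob β h' (fun i y => ω i y x) n (tb v' ((n : ℝ) ^ b) n) ∂P) :
    0 ≤ ∑ k, (h' k - h k) * (v' k - v k) := by
  by_contra hcon
  push Not at hcon
  set S : ℝ := ∑ k, |h' k - h k| with hS
  have hS0 : 0 ≤ S := Finset.sum_nonneg fun _ _ => abs_nonneg _
  set c : ℝ := -∑ k, (h' k - h k) * (v' k - v k) with hcd
  have hc0 : 0 < c := by linarith
  have hlog : 0 < Real.log 2 := Real.log_pos (by norm_num)
  have ev1 : ∀ᶠ n : ℕ in atTop, C * (n : ℝ) ^ (-κ) ≤ 1 / 8 := by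
    have e1 : Tendsto (fun n : ℕ => C * (n : ℝ) ^ (-κ)) atTop (𝓝 0) := by
      have := ((tendsto_rpow_neg_atTop hκ).comp tendsto_natCast_atTop_atTop).const_mul C
      rw [mul_zero] at this
      exact this
    exact (e1.eventually (gt_mem_nhds (by norm_num : (0 : ℝ) < 1 / 8))).mono fun n hn => hn.le
  have ev2 := pow_dom' hb1 ((2 * S + 2 * Real.log 2 + 1) / c)
  obtain ⟨n, a1, a2, hn1⟩ := (ev1.and (ev2.and (eventually_ge_atTop 1))).exists
  have hn' : (1 : ℝ) ≤ n := by exact_mod_cast hn1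
  have hn0 : (0 : ℝ) < n := by linarith
  set r : ℝ := (n : ℝ) ^ b with hr
  have hr1 : 1 ≤ r := Real.one_le_rpow hn' hb0
  -- a good point
  set p1 : Ω → ℝ := fun x => prob β h (fun i y => ω i y x) n (tb v r n) with hp1
  set p2 : Ω → ℝ := fun x => prob β h' (fun i y => ω i y x) n (tb v' r n) with hp2
  have i1 : Integrable p1 P := by
    apply (integrable_const (1 : ℝ)).mono' (measurable_prob β h _ he.meas).aestronglyMeasurable
    refine Eventually.of_forall fun p => ?_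
    rw [Real.norm_eq_abs, abs_of_nonneg (prob_nonneg _ _ _ _)]
    exact prob_le_one hd _ _ _ _
  have i2 : Integrable p2 P := by
    apply (integrable_const (1 : ℝ)).mono' (measurable_prob β h' _ he.meas).aestronglyMeasurable
    refine Eventually.of_forall fun p => ?_
    rw [Real.norm_eq_abs, abs_of_nonneg (prob_nonneg _ _ _ _)]
    exact prob_le_one hd _ _ _ _
  obtain ⟨x, hx1, hx2⟩ : ∃ x, 1 / 2 ≤ p1 x ∧ 1 / 2 ≤ p2 x := by
    by_contra hno
    push Not at hno
    have hle : ∀ x, p1 x + p2 x ≤ 3 / 2 := by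
      intro x
      have q1 : p1 x ≤ 1 := prob_le_one hd _ _ _ _
      have q2 : p2 x ≤ 1 := prob_le_one hd _ _ _ _
      rcases le_or_gt (1 / 2) (p1 x) with h | h
      · have := hno x h
        linarith
      · linarith
    have h3 : ∫ x, (p1 x + p2 x) ∂P ≤ ∫ _x, (3 / 2 : ℝ) ∂P :=
      integral_mono (i1.add i2) (integrable_const _) hle
    rw [integral_add i1 i2] at h3
    simp only [integral_const, probReal_univ, one_smul] at h3
    have h4 := h1 n hn1
    have h5 := h2 n hn1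
    linarith
  have s1 := sand_aux (h' := h') hd hx1
  have s2 := sand_aux (h' := h) hd hx2
  have e1 : ∑ k, |h k - h' k| = S := Finset.sum_congr rfl fun k _ => abs_sub_comm _ _
  have e2 : ∑ k, (h k - h' k) * (n * v' k) = -(∑ k, (h' k - h k) * (n * v k)) +
      n * c := by
    rw [hcd, mul_neg, Finset.mul_sum, ← Finset.sum_neg_distrib, ← Finset.sum_neg_distrib,
      ← Finset.sum_add_distrib]
    apply Finset.sum_congr rfl
    intro k _
    ring
  rw [e1, e2] at s2
  rw [← hS] at s1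
  have e3 : n * c ≤ 2 * S * r + 2 * Real.log 2 := by linarith
  rw [Real.rpow_one, div_mul_eq_mul_div, div_le_iff₀ hc0] at a2
  nlinarith

end Pool.Agent.Z97H.KZ
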