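import Pool.Agent.N427.SE.UPX
import Pool.Agent.Z97H.KZ.Null

/-!
# The upper bound, annealed form

The first theorem is the proof of `Pool/Agent/N427/SE/UPX.lean` (from the starting library) with
its exceptional events made explicit.
-/

set_option autoImplicit false

open MeasureTheory ProbabilityTheory Filter Topology

namespace Pool.Agent.Z97H.KZ

open TH967.DP Pool.Agent.N662.SE Pool.Agent.N700.SE.UPD Pool.Agent.N427.SE.UPX

/-- The quantitative form of the upper bound: the exceptional events are explicit. -/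
theorem upS (hc : S_CONC) (hi : S_ID) (hr : S_RATEX) (hk : S_CURV) (hp : S_PP) {d : ℕ}
    (hd : 1 ≤ d) {Ω : Type} [MeasurableSpace Ω] (P : Measure Ω) [IsProbabilityMeasure P]
    (ω : ℕ → (Fin d → ℤ) → Ω → ℝ) (hω : IsEnv P ω)
    (hexp : ∀ b : ℝ, Integrable (fun x => Real.exp (b * ω 1 0 x)) P) (β : ℝ) :
    ∀ᵐ h : Fin d → ℝ, ∃ v : Fin d → ℝ, ∀ U : Set (Fin d → ℝ), IsOpen U → h ∈ U →
    ∀ ξ α C0 : ℝ, 0 < ξ → ξ < 1 → 0 < α → Conc P ω β U ξ α C0 →
    ∀ b c : ℝ, (1 + ξ) / 2 < b → b ≤ 1 → c < 2 * b - 1 →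
    ∃ (S : ℕ → Set Ω) (ε : ℝ), 0 < ε ∧
      (∀ n, P (S n) ≤ ENNReal.ofReal (((2 * d * (n + 1) + (n + 1) * (2 * n + 1) ^ d : ℝ)) *
        (2 * Real.exp (|C0| - (n : ℝ) ^ ε)))) ∧
      ∀ᶠ n : ℕ in atTop, ∀ x ∉ S n,
        1 - Real.exp (-(n : ℝ) ^ c) ≤ prob β h (fun i y => ω i y x) n
          {w | ∀ i : ℕ, i ≤ n → ∀ k, |(pos w i k : ℝ) - i * v k| ≤ (n : ℝ) ^ b} := by
  obtain ⟨φ, hφ, hfr, hrate⟩ := hr d hd Ω P ω hω hexp β
  filter_upwards [hk d φ hφ] with h hh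
  obtain ⟨v, C, hC, hcurv⟩ := hh
  refine ⟨v, ?_⟩
  intro U hUo hhU ξ α C0 hξ hξ1 hα hU b c hb hb1 hcb
  obtain ⟨C1, hC1⟩ := hrate U ξ α C0 hξ hξ1 hα hU
  obtain ⟨δ, hδ, hball⟩ := Metric.isOpen_iff.1 hUo h hhU
  obtain ⟨c1, hc1, hc1b⟩ := exists_between (show max c ξ < 2 * b - 1 from
    max_lt hcb (by linarith))
  have hcc : c < c1 := lt_of_le_of_lt (le_max_left _ _) hc1
  have hc12 : ξ < c1 := lt_of_le_of_lt (le_max_right _ _) hc1
  obtain ⟨ε, hε0, hε1⟩ := exists_between (show 0 < c1 - ξ by linarith)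
  set κ : ℝ := min (1 / (2 * C + 2)) (δ / 2) with hκ
  have hκ0 : 0 < κ := lt_min (by positivity) (by positivity)
  have hκC : C * κ ≤ 1 / 2 := by
    calc C * κ ≤ C * (1 / (2 * C + 2)) := mul_le_mul_of_nonneg_left (min_le_left _ _) hC
      _ ≤ 1 / 2 := by
        rw [mul_one_div, div_le_iff₀ (by positivity)]
        linarith
  have hκ1 : κ ≤ 1 := by
    refine (min_le_left _ _).trans ?_
    rw [div_le_iff₀ (by positivity)]
    linarith
  have hκδ : κ < δ := lt_of_le_of_lt (min_le_right _ _) (by linarith)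
  have hmemU : ∀ (k : Fin d) (s : ℝ), |s| ≤ κ → h + Pi.single k s ∈ U := by
    intro k s hs
    apply hball
    rw [Metric.mem_ball, dist_eq_norm, add_sub_cancel_left]
    refine lt_of_le_of_lt ?_ hκδ
    rw [pi_norm_le_iff_of_nonneg hκ0.le]
    intro j
    by_cases hjk : j = k
    · rw [hjk, Pi.single_eq_same]
      exact hs
    · rw [Pi.single_eq_of_ne hjk, norm_zero]
      exact hκ0.le
  -- the exceptional events
  let σ : ℕ → ℝ := fun n => κ * (n : ℝ) ^ (b - 1)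
  have hσκ : ∀ n : ℕ, 1 ≤ n → σ n ≤ κ := by
    intro n hn
    have hn' : (1 : ℝ) ≤ n := by exact_mod_cast hn
    have h1 : (n : ℝ) ^ (b - 1) ≤ 1 :=
      Real.rpow_le_one_of_one_le_of_nonpos hn' (by linarith)
    calc κ * (n : ℝ) ^ (b - 1) ≤ κ * 1 := mul_le_mul_of_nonneg_left h1 hκ0.le
      _ = κ := mul_one _
  have hσp : ∀ n : ℕ, 1 ≤ n → 0 < σ n := by
    intro n hn
    have hn' : (0 : ℝ) < n := by exact_mod_cast hn
    exact mul_pos hκ0 (Real.rpow_pos_of_pos hn' _)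
  let sg : ℕ → Bool → ℝ := fun n t => if t then σ n else -σ n
  have hsgU : ∀ n : ℕ, 1 ≤ n → ∀ (k : Fin d) (t : Bool), h + Pi.single k (sg n t) ∈ U := by
    intro n hn k t
    apply hmemU
    have h1 := hσκ n hn
    have h2 := hσp n hn
    cases t
    · show |(-σ n)| ≤ κ
      rw [abs_neg, abs_of_pos h2]
      exact h1
    · show |σ n| ≤ κ
      rw [abs_of_pos h2]
      exact h1
  obtain ⟨N0, hN0⟩ := eventually_atTop.1 ((ev_pow (1 / α) ε (c1 - ξ) hε1).and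
    (eventually_ge_atTop (1 : ℕ)))
  have test : ∀ n : ℕ, N0 ≤ n → ∀ h' ∈ U, ∀ (m : ℕ) (z : Fin d → ℤ) (j : ℕ), j ≤ n →
      P {x | (n : ℝ) ^ c1 ≤ |lw ω β h' m z j x - free P ω β h' j|} ≤
        ENNReal.ofReal (2 * Real.exp (|C0| - (n : ℝ) ^ ε)) := by
    intro n hn h' hh' m z j hj
    obtain ⟨hn1, hn2⟩ := hN0 n hn
    refine (testX hc hi hd P ω hω hexp β hξ hα hU c1 n hn2 h' hh' m z j hj).trans ?_
    apply ENNReal.ofReal_le_ofReal
    rw [sub_eq_add_neg |C0|, Real.exp_add]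
    have h1 : |C0| ≤ Real.exp |C0| := by
      have := Real.add_one_le_exp |C0|
      linarith
    have h2 : Real.exp (-(α * (n : ℝ) ^ (c1 - ξ))) ≤ Real.exp (-(n : ℝ) ^ ε) := by
      apply Real.exp_le_exp.2
      apply neg_le_neg
      calc (n : ℝ) ^ ε = α * (1 / α * (n : ℝ) ^ ε) := by field_simp
        _ ≤ α * (n : ℝ) ^ (c1 - ξ) := mul_le_mul_of_nonneg_left hn1 hα.le
    calc |C0| * Real.exp (-(α * (n : ℝ) ^ (c1 - ξ))) ≤
          Real.exp |C0| * Real.exp (-(n : ℝ) ^ ε) :=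
          mul_le_mul h1 h2 (Real.exp_pos _).le (Real.exp_pos _).le
      _ ≤ 2 * (Real.exp |C0| * Real.exp (-(n : ℝ) ^ ε)) := by
          have : 0 < Real.exp |C0| * Real.exp (-(n : ℝ) ^ ε) := by positivity
          linarith
  let box : ℕ → Finset (Fin d → ℤ) := fun n => Finset.Icc (fun _ => -(n : ℤ)) (fun _ => (n : ℤ))
  let B1 : ℕ → ℕ × Fin d × Bool → Set Ω := fun n t =>
    {x | (n : ℝ) ^ c1 ≤ |lw ω β (h + Pi.single t.2.1 (sg n t.2.2)) 0 0 t.1 x -
      free P ω β (h + Pi.single t.2.1 (sg n t.2.2)) t.1|}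
  let B2 : ℕ → ℕ × (Fin d → ℤ) → Set Ω := fun n t =>
    {x | (n : ℝ) ^ c1 ≤ |lw ω β h t.1 t.2 (n - t.1) x - free P ω β h (n - t.1)|}
  let T1 : ℕ → Finset (ℕ × Fin d × Bool) := fun n => Finset.range (n + 1) ×ˢ Finset.univ
  let T2 : ℕ → Finset (ℕ × (Fin d → ℤ)) := fun n => Finset.range (n + 1) ×ˢ box n
  let S : ℕ → Set Ω := fun n => if N0 ≤ n then (⋃ t ∈ T1 n, B1 n t) ∪ (⋃ t ∈ T2 n, B2 n t) else ∅
  have hbox : ∀ n, ((box n).card : ℝ) = (2 * n + 1) ^ d := by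
    intro n
    have h1 : (box n).card = (2 * n + 1) ^ d := by
      show (Finset.Icc (fun _ : Fin d => -(n : ℤ)) (fun _ => (n : ℤ))).card = _
      rw [Pi.card_Icc]
      simp only [Int.card_Icc, Finset.prod_const, Finset.card_univ, Fintype.card_fin]
      congr 1
      omega
    rw [h1]
    push_cast
    ring
  have hS : ∀ n, P (S n) ≤ ENNReal.ofReal (((2 * d * (n + 1) + (n + 1) * (2 * n + 1) ^ d : ℝ)) *
      (2 * Real.exp (|C0| - (n : ℝ) ^ ε))) := by
    intro n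
    by_cases hn : N0 ≤ n
    · show P (if N0 ≤ n then (⋃ t ∈ T1 n, B1 n t) ∪ (⋃ t ∈ T2 n, B2 n t) else ∅) ≤ _
      rw [if_pos hn]
      set p : ENNReal := ENNReal.ofReal (2 * Real.exp (|C0| - (n : ℝ) ^ ε)) with hpd
      have b1 : P (⋃ t ∈ T1 n, B1 n t) ≤ (T1 n).card • p := by
        refine (measure_biUnion_finset_le _ _).trans (Finset.sum_le_card_nsmul _ _ _ ?_)
        intro t ht
        have ht1 : t.1 < n + 1 := Finset.mem_range.1 (Finset.mem_product.1 ht).1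
        exact test n hn _ (hsgU n (hN0 n hn).2 _ _) _ _ _ (by omega)
      have b2 : P (⋃ t ∈ T2 n, B2 n t) ≤ (T2 n).card • p := by
        refine (measure_biUnion_finset_le _ _).trans (Finset.sum_le_card_nsmul _ _ _ ?_)
        intro t ht
        exact test n hn _ hhU _ _ _ (Nat.sub_le _ _)
      have c1' : ((T1 n).card : ℝ) = 2 * d * (n + 1) := by
        show (((Finset.range (n + 1) ×ˢ (Finset.univ : Finset (Fin d × Bool))).card : ℕ) : ℝ) = _
        rw [Finset.card_product, Finset.card_range, Finset.card_univ, Fintype.card_prod,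
          Fintype.card_fin, Fintype.card_bool]
        push_cast
        ring
      have c2' : ((T2 n).card : ℝ) = (n + 1) * (2 * n + 1) ^ d := by
        show (((Finset.range (n + 1) ×ˢ box n).card : ℕ) : ℝ) = _
        rw [Finset.card_product, Finset.card_range, Nat.cast_mul, hbox]
        push_cast
        ring
      refine (measure_union_le _ _).trans ((add_le_add b1 b2).trans ?_)
      rw [← add_nsmul, nsmul_eq_mul, hpd, ← ENNReal.ofReal_natCast,
        ← ENNReal.ofReal_mul (Nat.cast_nonneg _)]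
      apply ENNReal.ofReal_le_ofReal
      rw [Nat.cast_add, c1', c2']
    · show P (if N0 ≤ n then (⋃ t ∈ T1 n, B1 n t) ∪ (⋃ t ∈ T2 n, B2 n t) else ∅) ≤ _
      rw [if_neg hn, measure_empty]
      exact zero_le
  refine ⟨S, ε, hε0, hS, ?_⟩
  filter_upwards [asyX hd C1 κ b c c1 ξ hκ0 hξ hc12 hcc hc1b, eventually_ge_atTop N0]
    with n hasy hn
  intro x hxn
  have hn1 : 1 ≤ n := (hN0 n hn).2
  have hnp : (0 : ℝ) < n := by exact_mod_cast hn1
  have hxn' : x ∉ (⋃ t ∈ T1 n, B1 n t) ∪ (⋃ t ∈ T2 n, B2 n t) := by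
    have h1 : x ∉ (if N0 ≤ n then (⋃ t ∈ T1 n, B1 n t) ∪ (⋃ t ∈ T2 n, B2 n t) else ∅) := hxn
    rwa [if_pos hn] at h1
  rw [Set.mem_union, not_or] at hxn'
  obtain ⟨x1, x2⟩ := hxn'
  have y1 : ∀ i ≤ n, ∀ (k : Fin d) (t : Bool),
      |lw ω β (h + Pi.single k (sg n t)) 0 0 i x - free P ω β (h + Pi.single k (sg n t)) i| <
        (n : ℝ) ^ c1 := by
    intro i hi k t
    by_contra hcon
    push Not at hcon
    apply x1
    rw [Set.mem_iUnion₂]
    refine ⟨(i, k, t), ?_, hcon⟩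
    exact Finset.mem_product.2 ⟨Finset.mem_range.2 (by show i < n + 1; omega), Finset.mem_univ _⟩
  have y2 : ∀ i ≤ n, ∀ z : Fin d → ℤ, (∀ j, |z j| ≤ n) →
      |lw ω β h i z (n - i) x - free P ω β h (n - i)| < (n : ℝ) ^ c1 := by
    intro i hi z hz
    by_contra hcon
    push Not at hcon
    apply x2
    rw [Set.mem_iUnion₂]
    refine ⟨(i, z), ?_, hcon⟩
    refine Finset.mem_product.2 ⟨Finset.mem_range.2 (by show i < n + 1; omega), ?_⟩
    show z ∈ Finset.Icc (fun _ : Fin d => -(n : ℤ)) (fun _ => (n : ℤ))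
    rw [Finset.mem_Icc]
    exact ⟨fun j => (abs_le.1 (hz j)).1, fun j => (abs_le.1 (hz j)).2⟩
  have hσ0 : 0 < σ n := hσp n hn1
  have hσ1 : σ n ≤ 1 := (hσκ n hn1).trans hκ1
  have hdet := det (β := β) (h := h) (v := v) (η := fun i y => ω i y x) (n := n)
    (fr := fun h n => free P ω β h n) (φ := φ) (C := C) (E := (n : ℝ) ^ c1) (R := (n : ℝ) ^ b)
    (σ := σ n) (Er := C1 * (n : ℝ) ^ ξ * Real.log (n + 1)) hp hd
    (fun h n => hfr h n) (hC1 h hhU n) hcurv hC hσ0 hσ1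
    (by
      have h1 := y2 0 (Nat.zero_le _) 0 (fun j => by simp)
      rw [Nat.sub_zero, lw_zero] at h1
      have h2 := (abs_lt.1 h1).1
      linarith)
    (by
      intro i hi k s hs
      rcases hs with rfl | rfl
      · have h1 := y1 i hi k true
        rw [lw_zero] at h1
        have h2 := (abs_lt.1 h1).2
        have e : sg n true = σ n := rfl
        rw [e] at h2
        linarith
      · have h1 := y1 i hi k false
        rw [lw_zero] at h1
        have h2 := (abs_lt.1 h1).2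
        have e : sg n false = -σ n := rfl
        rw [e] at h2
        linarith)
    (by
      intro i hi z hz
      have h1 := (abs_lt.1 (y2 i hi z hz)).2
      have e : Real.log (part β h (fun j y => ω (i + j) (z + y) x) (n - i) Set.univ) =
        lw ω β h i z (n - i) x := rfl
      show Real.log (part β h (fun j y => ω (i + j) (z + y) x) (n - i) Set.univ) ≤ _
      rw [e]
      linarith)
  refine le_trans ?_ hdet
  have hexp1 : -(σ n * (n : ℝ) ^ b) + C * n * (σ n) ^ 2 ≤ -(κ / 2 * (n : ℝ) ^ (2 * b - 1)) := by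
    have e1 : σ n * (n : ℝ) ^ b = κ * (n : ℝ) ^ (2 * b - 1) := by
      show κ * (n : ℝ) ^ (b - 1) * (n : ℝ) ^ b = _
      rw [mul_assoc, ← Real.rpow_add hnp]
      congr 2
      ring
    have e2 : (n : ℝ) * (σ n) ^ 2 = κ ^ 2 * (n : ℝ) ^ (2 * b - 1) := by
      show (n : ℝ) * (κ * (n : ℝ) ^ (b - 1)) ^ 2 = _
      have e3 : (n : ℝ) ^ (2 * b - 1) = n * ((n : ℝ) ^ (b - 1)) ^ 2 := by
        rw [← Real.rpow_natCast, ← Real.rpow_mul hnp.le]
        nth_rewrite 2 [← Real.rpow_one (n : ℝ)]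
        rw [← Real.rpow_add hnp]
        congr 1
        push_cast
        ring
      rw [e3]
      ring
    have hX : 0 ≤ κ * (n : ℝ) ^ (2 * b - 1) := by positivity
    have h3 : C * κ * (κ * (n : ℝ) ^ (2 * b - 1)) ≤ 1 / 2 * (κ * (n : ℝ) ^ (2 * b - 1)) :=
      mul_le_mul_of_nonneg_right hκC hX
    calc -(σ n * (n : ℝ) ^ b) + C * n * (σ n) ^ 2 =
          -(σ n * (n : ℝ) ^ b) + C * (n * (σ n) ^ 2) := by ring
      _ = -(κ * (n : ℝ) ^ (2 * b - 1)) + C * κ * (κ * (n : ℝ) ^ (2 * b - 1)) := by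
          rw [e1, e2]; ring
      _ ≤ _ := by linarith
  have hfinal : 2 * (d : ℝ) * (n + 1) * Real.exp (-(σ n * (n : ℝ) ^ b) + C * n * (σ n) ^ 2 +
      3 * (n : ℝ) ^ c1 + C1 * (n : ℝ) ^ ξ * Real.log (n + 1)) ≤ Real.exp (-(n : ℝ) ^ c) := by
    refine le_trans ?_ hasy
    apply mul_le_mul_of_nonneg_left _ (by positivity)
    apply Real.exp_le_exp.2
    linarith
  linarith


lemma exp_small (K c : ℝ) (hc : 0 < c) :
    ∀ᶠ n : ℕ in atTop, Real.exp (-(n : ℝ) ^ c) ≤ (n : ℝ) ^ (-K) := by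
  have h1 := ev_log 1 c one_pos hc
  obtain ⟨N, hN⟩ := exists_nat_gt (|K|)
  have h2 := ev_pow (|K| + 1) (c / 2) c (by linarith)
  have h3 := ev_log 1 (c / 2) one_pos (by linarith)
  filter_upwards [h2, h3, eventually_ge_atTop 1] with n e2 e3 hn
  have hn1 : (1 : ℝ) ≤ n := by exact_mod_cast hn
  have hn0 : (0 : ℝ) < n := by linarith
  rw [Real.rpow_def_of_pos hn0 (-K)]
  apply Real.exp_le_exp.2
  rw [one_mul] at e3
  have h4 : Real.log n ≤ (n : ℝ) ^ (c / 2) :=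
    (Real.log_le_log hn0 (by linarith)).trans e3
  have h5 : 0 ≤ Real.log n := Real.log_nonneg hn1
  have h6 : Real.log n * K ≤ (n : ℝ) ^ (c / 2) * |K| :=
    (mul_le_mul_of_nonneg_left (le_abs_self K) h5).trans
      (mul_le_mul_of_nonneg_right h4 (abs_nonneg _))
  have h7 : 0 ≤ (n : ℝ) ^ (c / 2) := by positivity
  nlinarith

lemma poly_small (d : ℕ) (C0 K ε : ℝ) (hε : 0 < ε) :
    ∀ᶠ n : ℕ in atTop, (2 * d * (n + 1) + (n + 1) * (2 * n + 1) ^ d : ℝ) *
      (2 * Real.exp (C0 - (n : ℝ) ^ ε)) ≤ (n : ℝ) ^ (-K) := by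
  have h1 := exp_small (K + (d + 2)) ε hε
  have h2 := exp_small (K + (d + 2)) (ε / 2) (by linarith)
  set D : ℝ := (4 * d + 2 * 3 ^ d) * (2 * Real.exp C0) with hD
  have hDp : 0 < D := by positivity
  filter_upwards [h1, eventually_ge_atTop 1, tendsto_natCast_atTop_atTop.eventually_ge_atTop D]
    with n e1 hn hnD
  have hn1 : (1 : ℝ) ≤ n := by exact_mod_cast hn
  have hn0 : (0 : ℝ) < n := by linarith
  have hpoly : (2 * d * (n + 1) + (n + 1) * (2 * n + 1) ^ d : ℝ) ≤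
      (4 * d + 2 * 3 ^ d) * (n : ℝ) ^ (d + 1) := by
    have a1 : (n : ℝ) + 1 ≤ 2 * n := by linarith
    have a2 : (2 * n + 1 : ℝ) ^ d ≤ (3 * n) ^ d := by
      apply pow_le_pow_left₀ (by positivity)
      linarith
    have a3 : (n : ℝ) ≤ n ^ (d + 1) := by
      calc (n : ℝ) = n ^ 1 := (pow_one _).symm
        _ ≤ n ^ (d + 1) := pow_le_pow_right₀ hn1 (by omega)
    have a4 : ((n : ℝ) + 1) * (2 * n + 1) ^ d ≤ 2 * n * (3 * n) ^ d :=
      mul_le_mul a1 a2 (by positivity) (by positivity)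
    have a5 : 2 * (n : ℝ) * (3 * n) ^ d = 2 * 3 ^ d * n ^ (d + 1) := by
      rw [mul_pow]; ring
    have a6 : 2 * (d : ℝ) * (n + 1) ≤ 4 * d * n ^ (d + 1) := by
      have : 2 * (d : ℝ) * (n + 1) ≤ 2 * d * (2 * n ^ (d + 1)) :=
        mul_le_mul_of_nonneg_left (by linarith) (by positivity)
      linarith
    linarith
  calc (2 * d * (n + 1) + (n + 1) * (2 * n + 1) ^ d : ℝ) * (2 * Real.exp (C0 - (n : ℝ) ^ ε)) ≤
        (4 * d + 2 * 3 ^ d) * (n : ℝ) ^ (d + 1) * (2 * Real.exp (C0 - (n : ℝ) ^ ε)) :=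
        mul_le_mul_of_nonneg_right hpoly (by positivity)
    _ = D * ((n : ℝ) ^ (d + 1) * Real.exp (-(n : ℝ) ^ ε)) := by
        rw [hD, sub_eq_add_neg, Real.exp_add]; ring
    _ ≤ n * ((n : ℝ) ^ (d + 1) * (n : ℝ) ^ (-(K + (d + 2)))) := by
        apply mul_le_mul hnD _ (by positivity) hn0.le
        exact mul_le_mul_of_nonneg_left e1 (by positivity)
    _ = (n : ℝ) ^ (-K) := by
        rw [← Real.rpow_natCast (n : ℝ) (d + 1)]
        nth_rewrite 1 [← Real.rpow_one (n : ℝ)]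
        rw [← Real.rpow_add hn0, ← Real.rpow_add hn0]
        congr 1
        push_cast
        ring

/-- The annealed upper bound. -/
theorem upE (hc : S_CONC) (hi : S_ID) (hr : S_RATEX) (hk : S_CURV) (hp : S_PP) {d : ℕ}
    (hd : 1 ≤ d) {Ω : Type} [MeasurableSpace Ω] (P : Measure Ω) [IsProbabilityMeasure P]
    (ω : ℕ → (Fin d → ℤ) → Ω → ℝ) (hω : IsEnv P ω)
    (hexp : ∀ b : ℝ, Integrable (fun x => Real.exp (b * ω 1 0 x)) P) (β : ℝ) :
    ∀ᵐ h : Fin d → ℝ, ∃ v : Fin d → ℝ, ∀ U : Set (Fin d → ℝ), IsOpen U → h ∈ U →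
    ∀ ξ α C0 : ℝ, 0 < ξ → ξ < 1 → 0 < α → Conc P ω β U ξ α C0 →
    ∀ b : ℝ, (1 + ξ) / 2 < b → b ≤ 1 → ∀ K : ℝ,
    ∃ C : ℝ, ∀ n : ℕ, 1 ≤ n → 1 - C * (n : ℝ) ^ (-K) ≤
      ∫ x, prob β h (fun i y => ω i y x) n (tb v ((n : ℝ) ^ b) n) ∂P := by
  filter_upwards [upS hc hi hr hk hp hd P ω hω hexp β] with h hh
  obtain ⟨v, hv⟩ := hh
  refine ⟨v, ?_⟩
  intro U hUo hhU ξ α C0 hξ hξ1 hα hU b hb hb1 K
  obtain ⟨S, ε, hε, hS, hev⟩ := hv U hUo hhU ξ α C0 hξ hξ1 hα hU b ξ hb hb1 (by linarith)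
  obtain ⟨N, hN⟩ := eventually_atTop.1 (hev.and ((exp_small K ξ hξ).and
    (poly_small d |C0| K ε hε)))
  refine ⟨max 2 ((N : ℝ) ^ |K|), fun n hn => ?_⟩
  have hn1 : (1 : ℝ) ≤ n := by exact_mod_cast hn
  have hn0 : (0 : ℝ) < n := by linarith
  have hp0 : (0 : ℝ) < (n : ℝ) ^ (-K) := by positivity
  have hi0 : 0 ≤ ∫ x, prob β h (fun i y => ω i y x) n (tb v ((n : ℝ) ^ b) n) ∂P :=
    integral_nonneg fun x => prob_nonneg _ _ _ _
  rcases le_or_gt N n with hNn | hNn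
  · obtain ⟨h1, h2, h3⟩ := hN n hNn
    set f : Ω → ℝ := fun x => prob β h (fun i y => ω i y x) n (tb v ((n : ℝ) ^ b) n) with hf
    have hfm : Measurable f := measurable_prob β h _ hω.meas
    have hf0 : ∀ x, 0 ≤ f x := fun x => prob_nonneg _ _ _ _
    have hf1 : ∀ x, f x ≤ 1 := fun x => prob_le_one hd _ _ _ _
    have hfi : Integrable f P := by
      apply (integrable_const (1 : ℝ)).mono' hfm.aestronglyMeasurable
      refine Eventually.of_forall fun x => ?_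
      rw [Real.norm_eq_abs, abs_of_nonneg (hf0 x)]
      exact hf1 x
    set T : Set Ω := {x | f x < 1 - Real.exp (-(n : ℝ) ^ ξ)} with hT
    have hTm : MeasurableSet T := measurableSet_lt hfm measurable_const
    have hTS : T ⊆ S n := by
      intro x hx
      by_contra hxS
      have h4 := h1 x hxS
      have h5 : f x < 1 - Real.exp (-(n : ℝ) ^ ξ) := hx
      exact absurd h4 (not_le.2 h5)
    have hPT : P.real T ≤ (n : ℝ) ^ (-K) := by
      have h4 : P T ≤ ENNReal.ofReal ((n : ℝ) ^ (-K)) :=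
        (measure_mono hTS).trans ((hS n).trans (ENNReal.ofReal_le_ofReal h3))
      unfold Measure.real
      refine (ENNReal.toReal_mono ENNReal.ofReal_ne_top h4).trans (le_of_eq ?_)
      exact ENNReal.toReal_ofReal hp0.le
    have hpt : ∀ x, (1 - Real.exp (-(n : ℝ) ^ ξ)) - T.indicator (fun _ => (1 : ℝ)) x ≤ f x := by
      intro x
      by_cases hx : x ∈ T
      · rw [Set.indicator_of_mem hx]
        have := hf0 x
        have := Real.exp_pos (-(n : ℝ) ^ ξ)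
        linarith
      · rw [Set.indicator_of_notMem hx]
        have h4 : ¬ f x < 1 - Real.exp (-(n : ℝ) ^ ξ) := hx
        linarith
    have hTi : Integrable (T.indicator (fun _ => (1 : ℝ))) P :=
      (integrable_const (1 : ℝ)).indicator hTm
    have h4 := integral_mono ((integrable_const (1 - Real.exp (-(n : ℝ) ^ ξ))).sub hTi) hfi hpt
    rw [integral_sub' (integrable_const _) hTi, integral_indicator_const _ hTm] at h4
    simp only [integral_const, probReal_univ, smul_eq_mul, mul_one] at h4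
    have h5 : 2 * (n : ℝ) ^ (-K) ≤ max 2 ((N : ℝ) ^ |K|) * (n : ℝ) ^ (-K) :=
      mul_le_mul_of_nonneg_right (le_max_left _ _) hp0.le
    linarith
  · have h1 : 1 ≤ (N : ℝ) ^ |K| * (n : ℝ) ^ (-K) := by
      have h2 : (n : ℝ) ^ K ≤ (N : ℝ) ^ |K| := by
        calc (n : ℝ) ^ K ≤ (n : ℝ) ^ |K| := Real.rpow_le_rpow_of_exponent_le hn1 (le_abs_self K)
          _ ≤ (N : ℝ) ^ |K| := Real.rpow_le_rpow hn0.le (by exact_mod_cast hNn.le) (abs_nonneg _)
      calc (1 : ℝ) = (n : ℝ) ^ K * (n : ℝ) ^ (-K) := by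
            rw [← Real.rpow_add hn0, add_neg_cancel, Real.rpow_zero]
        _ ≤ _ := mul_le_mul_of_nonneg_right h2 hp0.le
    have h2 : (N : ℝ) ^ |K| * (n : ℝ) ^ (-K) ≤ max 2 ((N : ℝ) ^ |K|) * (n : ℝ) ^ (-K) :=
      mul_le_mul_of_nonneg_right (le_max_right _ _) hp0.le
    linarith

end Pool.Agent.Z97H.KZ
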