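import Pool.Agent.Z97H.KZ.Cond

/-!
# The bound for the variance
-/

set_option autoImplicit false

open MeasureTheory ProbabilityTheory Filter Topology

namespace Pool.Agent.Z97H.KZ

open TH967.DP Pool.Agent.N662.SE

variable {d : ℕ}

lemma prod_var {Ω : Type} [MeasurableSpace Ω] {P : Measure Ω} [IsProbabilityMeasure P]
    {Y : Ω → ℝ} {D : Ω × Ω → ℝ} (hY : Measurable Y) (hD : Measurable D)
    (hY4 : Integrable (fun x => Y x ^ 4) P) (hD4 : Integrable (fun p => D p ^ 4) (P.prod P)) :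
    StronglyMeasurable (fun x => ∫ x', D (x, x') ∂P) ∧
    Integrable (fun x => (∫ x', D (x, x') ∂P) ^ 4) P ∧
    ∫ x, (∫ x', D (x, x') ∂P) ^ 4 ∂P ≤ ∫ p, D p ^ 4 ∂(P.prod P) ∧
    ∫ x, (∫ x', D (x, x') ∂P) ∂P = ∫ p, D p ∂(P.prod P) ∧
    ∫ x, Y x ^ 2 ∂P ≤ 2 * ∫ p, (Y p.1 - D p) ^ 2 ∂(P.prod P) +
      2 * ∫ x, (∫ x', D (x, x') ∂P) ^ 2 ∂P := by
  set a : Ω → ℝ := fun x => ∫ x', D (x, x') ∂P with ha
  have ham : StronglyMeasurable a := hD.stronglyMeasurable.integral_prod_right'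
  have hsec := hD4.prod_right_ae
  have hsm : ∀ x, AEStronglyMeasurable (fun x' => D (x, x')) P := fun x =>
    (hD.comp measurable_prodMk_left).aestronglyMeasurable
  have hJ : ∀ᵐ x ∂P, a x ^ 4 ≤ ∫ x', D (x, x') ^ 4 ∂P := by
    filter_upwards [hsec] with x hx
    exact jensen_four (hsm x) hx
  have hi : Integrable (fun x => ∫ x', D (x, x') ^ 4 ∂P) P := hD4.integral_prod_left
  have ha4 : Integrable (fun x => a x ^ 4) P := by
    apply hi.mono' (ham.pow 4).aestronglyMeasurable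
    filter_upwards [hJ] with x hx
    rw [Real.norm_eq_abs, Pi.pow_apply, abs_of_nonneg (show (0 : ℝ) ≤ a x ^ 4 by positivity)]
    exact hx
  have hD2 : Integrable (fun p => D p ^ 2) (P.prod P) := int_two hD.aestronglyMeasurable hD4
  have hD1 : Integrable D (P.prod P) := int_one hD.aestronglyMeasurable hD2
  have hY2 : Integrable (fun x => Y x ^ 2) P := int_two hY.aestronglyMeasurable hY4
  have ha2 : Integrable (fun x => a x ^ 2) P := int_two ham.aestronglyMeasurable ha4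
  refine ⟨ham, ha4, ?_, ?_, ?_⟩
  · rw [integral_prod _ hD4]
    exact integral_mono_ae ha4 hi hJ
  · rw [integral_prod _ hD1]
  · have hYp : Integrable (fun p : Ω × Ω => Y p.1 ^ 2) (P.prod P) := hY2.comp_fst P
    have hW : Integrable (fun p : Ω × Ω => (Y p.1 - D p) ^ 2) (P.prod P) := by
      apply ((hYp.add hD2).const_mul 2).mono'
        (((hY.comp measurable_fst).sub hD).pow_const 2).aestronglyMeasurable
      refine Eventually.of_forall fun p => ?_
      rw [Real.norm_eq_abs, abs_of_nonneg (sq_nonneg _)]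
      show (Y p.1 - D p) ^ 2 ≤ 2 * (Y p.1 ^ 2 + D p ^ 2)
      nlinarith [sq_nonneg (Y p.1 + D p)]
    have hWs := hW.prod_right_ae
    have hJ2 : ∀ᵐ x ∂P, (Y x - a x) ^ 2 ≤ ∫ x', (Y x - D (x, x')) ^ 2 ∂P := by
      filter_upwards [hsec, hWs] with x hx hx2
      have h1 : Integrable (fun x' => D (x, x')) P :=
        int_one (hsm x) (int_two (hsm x) hx)
      have h2 : Y x - a x = ∫ x', (Y x - D (x, x')) ∂P := by
        rw [integral_sub (integrable_const _) h1]
        simp [ha]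
      rw [h2]
      exact jensen_two (aestronglyMeasurable_const.sub (hsm x)) hx2
    have hWi : Integrable (fun x => ∫ x', (Y x - D (x, x')) ^ 2 ∂P) P :=
      hW.integral_prod_left
    have hYa : Integrable (fun x => (Y x - a x) ^ 2) P := by
      apply hWi.mono' ((hY.stronglyMeasurable.sub ham).pow 2).aestronglyMeasurable
      filter_upwards [hJ2] with x hx
      rw [Real.norm_eq_abs, abs_of_nonneg (sq_nonneg _)]
      exact hx
    have h5 : ∫ x, (Y x - a x) ^ 2 ∂P ≤ ∫ p, (Y p.1 - D p) ^ 2 ∂(P.prod P) := by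
      rw [integral_prod _ hW]
      exact integral_mono_ae hYa hWi hJ2
    have h6 : ∫ x, Y x ^ 2 ∂P ≤ ∫ x, (2 * (Y x - a x) ^ 2 + 2 * a x ^ 2) ∂P := by
      apply integral_mono hY2 ((hYa.const_mul 2).add (ha2.const_mul 2))
      intro x
      show Y x ^ 2 ≤ 2 * (Y x - a x) ^ 2 + 2 * a x ^ 2
      nlinarith [sq_nonneg (Y x - 2 * a x)]
    rw [integral_add (hYa.const_mul 2) (ha2.const_mul 2), integral_const_mul,
      integral_const_mul] at h6
    linarith

/-- the effect of resampling the environment after the time `m` -/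
lemma resample (hc : S_CONC) (hd : 1 ≤ d) {Ω : Type} [MeasurableSpace Ω] {P : Measure Ω}
    [IsProbabilityMeasure P] {ω : ℕ → (Fin d → ℤ) → Ω → ℝ} (he : IsEnv P ω)
    (hexp : ∀ b : ℝ, Integrable (fun x => Real.exp (b * ω 1 0 x)) P) (β : ℝ)
    {h h' v v' : Fin d → ℝ} {r : ℝ} {m n : ℕ} (hsep : ∃ k, 2 * r < m * |v' k - v k|)
    {ε Q L2 : ℝ} (h1 : 1 - ε ≤ ∫ x, prob β h (fun i y => ω i y x) n (tb v r n) ∂P)
    (h2 : 1 - ε ≤ ∫ x, prob β h' (fun i y => ω i y x) n (tb v' r n) ∂P)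
    (hQ : ∫ x, (lw ω β h 0 0 n x - free P ω β h n) ^ 4 ∂P ≤ Q) (hL : 0 < L2) :
    ∫ p, ((lw ω β h 0 0 n p.1 - free P ω β h n) -
      (lx (aft d m) ω β h n p - free P ω β h n)) ^ 2 ∂(P.prod P) ≤
      (2 * rho n r h h' v v' + 2 * Real.log 2) ^ 2 + 8 * Q / L2 + 5 * L2 * ε := by
  set f := free P ω β h n with hf
  set R := 2 * rho n r h h' v v' + 2 * Real.log 2 with hR
  set Y : Ω → ℝ := fun x => lw ω β h 0 0 n x - f with hYd
  set D : Ω × Ω → ℝ := fun p => lx (aft d m) ω β h n p - f with hDd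
  have hYm : Measurable Y := (hc d hd Ω P ω he hexp β h 0 0 n).1.sub_const _
  have hDm : Measurable D := (measurable_lx he.meas _ β h n).sub_const _
  have hid := ident_lx he (aft d m) β h n
  have hg4 : Measurable (fun y : ℝ => (y - f) ^ 4) := by fun_prop
  have hid4 : IdentDistrib (fun p => D p ^ 4) (fun x => Y x ^ 4) (P.prod P) P := hid.comp hg4
  have hY4 : Integrable (fun x => Y x ^ 4) P := int_four hc hd he hexp β h n
  have hD4 : Integrable (fun p => D p ^ 4) (P.prod P) := hid4.integrable_iff.2 hY4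
  have hDQ : ∫ p, D p ^ 4 ∂(P.prod P) ≤ Q := by rw [hid4.integral_eq]; exact hQ
  have hYp : Integrable (fun p : Ω × Ω => Y p.1 ^ 4) (P.prod P) := hY4.comp_fst P
  have hYQ : ∫ p : Ω × Ω, Y p.1 ^ 4 ∂(P.prod P) ≤ Q := by
    have := integral_fun_fst (μ := P) (ν := P) (fun x => Y x ^ 4)
    rw [this]
    simpa using hQ
  -- the good events
  set A := aft d m with hA
  set B := aftTb v r m with hB
  set g1 : Ω × Ω → ℝ := fun p => prob β h (fun i y => mx ∅ ω i y p) n (tb v r n) with hg1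
  set g2 : Ω × Ω → ℝ := fun p => prob β h (fun i y => mx B ω i y p) n (tb v r n) with hg2
  set g3 : Ω × Ω → ℝ := fun p => prob β h (fun i y => mx A ω i y p) n (tb v r n) with hg3
  set g4 : Ω × Ω → ℝ := fun p => prob β h' (fun i y => mx ∅ ω i y p) n (tb v' r n) with hg4
  set g5 : Ω × Ω → ℝ := fun p => prob β h' (fun i y => mx B ω i y p) n (tb v' r n) with hg5
  have hgen : ∀ (A : Set (ℕ × (Fin d → ℤ))) (h : Fin d → ℝ) (T : Set (Fin n → Step d)),
      1 - ε ≤ ∫ x, prob β h (fun i y => ω i y x) n T ∂P →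
      Integrable (fun p => 1 - prob β h (fun i y => mx A ω i y p) n T) (P.prod P) ∧
      ∫ p, (1 - prob β h (fun i y => mx A ω i y p) n T) ∂(P.prod P) ≤ ε := by
    intro A h T hT
    have hi := ident_prob he A β h n T
    have i0 : Integrable (fun p => prob β h (fun i y => mx A ω i y p) n T) (P.prod P) := by
      apply (integrable_const (1 : ℝ)).mono'
        (measurable_prob β h T (measurable_mx A he.meas)).aestronglyMeasurable
      refine Eventually.of_forall fun p => ?_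
      rw [Real.norm_eq_abs, abs_of_nonneg (prob_nonneg _ _ _ _)]
      exact prob_le_one hd _ _ _ _
    refine ⟨(integrable_const _).sub i0, ?_⟩
    rw [integral_sub (integrable_const _) i0, hi.integral_eq]
    simp only [integral_const, probReal_univ, one_smul]
    linarith
  have k1 := hgen ∅ h (tb v r n) h1
  have k2 := hgen B h (tb v r n) h1
  have k3 := hgen A h (tb v r n) h1
  have k4 := hgen ∅ h' (tb v' r n) h2
  have k5 := hgen B h' (tb v' r n) h2
  have emp : ∀ p : Ω × Ω, (fun i y => mx ∅ ω i y p) = fun i y => ω i y p.1 := by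
    intro p
    funext i y
    exact mx_of_notMem (Set.notMem_empty _) p
  -- the pointwise bound
  have hle1 : ∀ (A : Set (ℕ × (Fin d → ℤ))) (h : Fin d → ℝ) (T : Set (Fin n → Step d))
      (p : Ω × Ω), 0 ≤ 1 - prob β h (fun i y => mx A ω i y p) n T := fun A h T p =>
    sub_nonneg.2 (prob_le_one hd _ _ _ _)
  have hpt : ∀ p : Ω × Ω, (Y p.1 - D p) ^ 2 ≤ R ^ 2 + (4 * (Y p.1 ^ 4 + D p ^ 4) / L2 +
      L2 * ((1 - g1 p) + (1 - g2 p) + (1 - g3 p) + (1 - g4 p) + (1 - g5 p))) := by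
    intro p
    have q1 := hle1 ∅ h (tb v r n) p
    have q2 := hle1 B h (tb v r n) p
    have q3 := hle1 A h (tb v r n) p
    have q4 := hle1 ∅ h' (tb v' r n) p
    have q5 := hle1 B h' (tb v' r n) p
    have hW4 : (Y p.1 - D p) ^ 4 ≤ 8 * (Y p.1 ^ 4 + D p ^ 4) := by
      have e1 : (Y p.1 - D p) ^ 2 ≤ 2 * (Y p.1 ^ 2 + D p ^ 2) := by
        nlinarith [sq_nonneg (Y p.1 + D p)]
      have e2 : (Y p.1 ^ 2 + D p ^ 2) ^ 2 ≤ 2 * (Y p.1 ^ 4 + D p ^ 4) := by
        nlinarith [sq_nonneg (Y p.1 ^ 2 - D p ^ 2)]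
      calc (Y p.1 - D p) ^ 4 = ((Y p.1 - D p) ^ 2) ^ 2 := by ring
        _ ≤ (2 * (Y p.1 ^ 2 + D p ^ 2)) ^ 2 := pow_le_pow_left₀ (sq_nonneg _) e1 2
        _ = 4 * (Y p.1 ^ 2 + D p ^ 2) ^ 2 := by ring
        _ ≤ _ := by linarith
    have hpos : 0 ≤ 4 * (Y p.1 ^ 4 + D p ^ 4) / L2 := by positivity
    by_cases hgood : 1 / 2 ≤ g1 p ∧ 1 / 2 ≤ g2 p ∧ 1 / 2 ≤ g3 p ∧ 1 / 2 ≤ g4 p ∧ 1 / 2 ≤ g5 p
    · obtain ⟨r1, r2, r3, r4, r5⟩ := hgood
      simp only [hg1, hg4, emp] at r1 r4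
      have hcl := close (η := fun i y => ω i y p.1) (ηA := fun i y => mx A ω i y p)
        (ηB := fun i y => mx B ω i y p) hd hsep
        (fun i y hi => mx_of_notMem (by simp [hA, aft]; omega) p)
        (fun i y hi => mx_of_notMem (by simp [hB, aftTb]; omega) p)
        (fun i y hi hy => by
          rw [mx_of_mem (show (i, y) ∈ B from ⟨hi, hy⟩) p,
            mx_of_mem (show (i, y) ∈ A from hi) p])
        (fun i y hi hy => mx_of_notMem (by simp only [hB, aftTb]; exact fun hh => hy hh.2) p)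
        r1 r2 r3 r4 r5
      have e1 : Y p.1 - D p = Real.log (part β h (fun i y => ω i y p.1) n Set.univ) -
          Real.log (part β h (fun i y => mx A ω i y p) n Set.univ) := by
        simp only [hYd, hDd, lw_zero', lx]
        ring
      have e2 : (Y p.1 - D p) ^ 2 ≤ R ^ 2 := by
        rw [e1, ← sq_abs]
        exact pow_le_pow_left₀ (abs_nonneg _) hcl 2
      have e3 : 0 ≤ L2 * ((1 - g1 p) + (1 - g2 p) + (1 - g3 p) + (1 - g4 p) + (1 - g5 p)) := by
        apply mul_nonneg hL.le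
        simp only [hg1, hg2, hg3, hg4, hg5]
        linarith
      linarith
    · have e1 : 1 / 2 ≤ (1 - g1 p) + (1 - g2 p) + (1 - g3 p) + (1 - g4 p) + (1 - g5 p) := by
        by_contra hcon
        push Not at hcon
        apply hgood
        simp only [hg1, hg2, hg3, hg4, hg5] at hcon ⊢
        refine ⟨?_, ?_, ?_, ?_, ?_⟩ <;> linarith
      have e2 : (Y p.1 - D p) ^ 2 ≤ 4 * (Y p.1 ^ 4 + D p ^ 4) / L2 + L2 * (1 / 2) := by
        have e3 : (Y p.1 - D p) ^ 2 ≤ (Y p.1 - D p) ^ 4 / (2 * L2) + L2 / 2 := by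
          have e4 : 0 ≤ ((Y p.1 - D p) ^ 2 - L2) ^ 2 / (2 * L2) := by positivity
          have e5 : ((Y p.1 - D p) ^ 2 - L2) ^ 2 / (2 * L2) =
              (Y p.1 - D p) ^ 4 / (2 * L2) - (Y p.1 - D p) ^ 2 + L2 / 2 := by
            field_simp
            ring
          linarith
        have e6 : (Y p.1 - D p) ^ 4 / (2 * L2) ≤ 4 * (Y p.1 ^ 4 + D p ^ 4) / L2 := by
          rw [div_le_div_iff₀ (by positivity) hL]
          nlinarith
        linarith
      have e7 := mul_le_mul_of_nonneg_left e1 hL.le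
      have e8 := sq_nonneg R
      linarith
  -- integrate
  have hW : Integrable (fun p : Ω × Ω => (Y p.1 - D p) ^ 2) (P.prod P) := by
    have hD2 : Integrable (fun p => D p ^ 2) (P.prod P) := int_two hDm.aestronglyMeasurable hD4
    have hY2 : Integrable (fun p : Ω × Ω => Y p.1 ^ 2) (P.prod P) :=
      int_two (hYm.comp measurable_fst).aestronglyMeasurable hYp
    apply ((hY2.add hD2).const_mul 2).mono'
      (((hYm.comp measurable_fst).sub hDm).pow_const 2).aestronglyMeasurable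
    refine Eventually.of_forall fun p => ?_
    rw [Real.norm_eq_abs, abs_of_nonneg (sq_nonneg _)]
    show (Y p.1 - D p) ^ 2 ≤ 2 * (Y p.1 ^ 2 + D p ^ 2)
    nlinarith [sq_nonneg (Y p.1 + D p)]
  have j1 : Integrable (fun p : Ω × Ω => 4 * (Y p.1 ^ 4 + D p ^ 4) / L2) (P.prod P) :=
    ((hYp.add hD4).const_mul 4).div_const _
  have j12 : Integrable (fun p : Ω × Ω => (1 - g1 p) + (1 - g2 p)) (P.prod P) := k1.1.add k2.1
  have j123 : Integrable (fun p : Ω × Ω => (1 - g1 p) + (1 - g2 p) + (1 - g3 p)) (P.prod P) :=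
    j12.add k3.1
  have j1234 : Integrable (fun p : Ω × Ω => (1 - g1 p) + (1 - g2 p) + (1 - g3 p) + (1 - g4 p))
      (P.prod P) := j123.add k4.1
  have j12345 : Integrable (fun p : Ω × Ω => (1 - g1 p) + (1 - g2 p) + (1 - g3 p) +
      (1 - g4 p) + (1 - g5 p)) (P.prod P) := j1234.add k5.1
  have j2 : Integrable (fun p : Ω × Ω => L2 * ((1 - g1 p) + (1 - g2 p) + (1 - g3 p) +
      (1 - g4 p) + (1 - g5 p))) (P.prod P) := j12345.const_mul L2
  have j3 : Integrable (fun p : Ω × Ω => 4 * (Y p.1 ^ 4 + D p ^ 4) / L2 +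
      L2 * ((1 - g1 p) + (1 - g2 p) + (1 - g3 p) + (1 - g4 p) + (1 - g5 p))) (P.prod P) :=
    j1.add j2
  have j4 : Integrable (fun p : Ω × Ω => R ^ 2 + (4 * (Y p.1 ^ 4 + D p ^ 4) / L2 +
      L2 * ((1 - g1 p) + (1 - g2 p) + (1 - g3 p) + (1 - g4 p) + (1 - g5 p)))) (P.prod P) :=
    (integrable_const (R ^ 2)).add j3
  have hle := integral_mono hW j4 hpt
  refine hle.trans ?_
  rw [integral_add (integrable_const _) j3, integral_add j1 j2, integral_const_mul,
    integral_add j1234 k5.1, integral_add j123 k4.1, integral_add j12 k3.1,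
    integral_add k1.1 k2.1, integral_div, integral_const_mul, integral_add hYp hD4]
  simp only [integral_const, probReal_univ, one_smul]
  have z1 : 4 * (∫ p : Ω × Ω, Y p.1 ^ 4 ∂(P.prod P) + ∫ p, D p ^ 4 ∂(P.prod P)) / L2 ≤
      8 * Q / L2 := div_le_div_of_nonneg_right (by linarith) hL.le
  have z2 : L2 * (∫ p, (1 - g1 p) ∂(P.prod P) + ∫ p, (1 - g2 p) ∂(P.prod P) +
      ∫ p, (1 - g3 p) ∂(P.prod P) + ∫ p, (1 - g4 p) ∂(P.prod P) +
      ∫ p, (1 - g5 p) ∂(P.prod P)) ≤ L2 * (5 * ε) := by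
    apply mul_le_mul_of_nonneg_left _ hL.le
    linarith [k1.2, k2.2, k3.2, k4.2, k5.2]
  linarith

/-- The bound for the variance: `n = m + k`, `s = f_n - f_m - f_k`. -/
theorem var_bound (hc : S_CONC) (hd : 1 ≤ d) {Ω : Type} [MeasurableSpace Ω] {P : Measure Ω}
    [IsProbabilityMeasure P] {ω : ℕ → (Fin d → ℤ) → Ω → ℝ} (he : IsEnv P ω)
    (hexp : ∀ b : ℝ, Integrable (fun x => Real.exp (b * ω 1 0 x)) P) (β : ℝ)
    {h h' v v' : Fin d → ℝ} {r : ℝ} {m k : ℕ} (hsep : ∃ k, 2 * r < m * |v' k - v k|)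
    {ε Q Q' V L L2 : ℝ}
    (h1 : 1 - ε ≤ ∫ x, prob β h (fun i y => ω i y x) (m + k) (tb v r (m + k)) ∂P)
    (h2 : 1 - ε ≤ ∫ x, prob β h' (fun i y => ω i y x) (m + k) (tb v' r (m + k)) ∂P)
    (hQ : ∫ x, (lw ω β h 0 0 (m + k) x - free P ω β h (m + k)) ^ 4 ∂P ≤ Q)
    (hQ' : ∫ x, (lw ω β h 0 0 m x - free P ω β h m) ^ 4 ∂P ≤ Q')
    (hV : ∫ x, (lw ω β h 0 0 m x - free P ω β h m) ^ 2 ∂P ≤ V) (hL2 : 0 < L2) (hL : 0 < L) :
    ∫ x, (lw ω β h 0 0 (m + k) x - free P ω β h (m + k)) ^ 2 ∂P ≤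
      2 * ((2 * rho (m + k) r h h' v v' + 2 * Real.log 2) ^ 2 + 8 * Q / L2 + 5 * L2 * ε) +
      2 * (3 * (L * (free P ω β h (m + k) - free P ω β h m - free P ω β h k) +
        27 * (Q + Q' + (free P ω β h (m + k) - free P ω β h m - free P ω β h k) ^ 4) / L ^ 2 +
        (free P ω β h (m + k) - free P ω β h m - free P ω β h k) ^ 2 + V)) := by
  set n := m + k with hn
  set f := free P ω β h n with hf
  set s := f - free P ω β h m - free P ω β h k with hs
  set Y : Ω → ℝ := fun x => lw ω β h 0 0 n x - f with hYd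
  set D : Ω × Ω → ℝ := fun p => lx (aft d m) ω β h n p - f with hDd
  have hYm : Measurable Y := (hc d hd Ω P ω he hexp β h 0 0 n).1.sub_const _
  have hDm : Measurable D := (measurable_lx he.meas _ β h n).sub_const _
  have hid := ident_lx he (aft d m) β h n
  have hg4 : Measurable (fun y : ℝ => (y - f) ^ 4) := by fun_prop
  have hid4 : IdentDistrib (fun p => D p ^ 4) (fun x => Y x ^ 4) (P.prod P) P := hid.comp hg4
  have hY4 : Integrable (fun x => Y x ^ 4) P := int_four hc hd he hexp β h n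
  have hD4 : Integrable (fun p => D p ^ 4) (P.prod P) := hid4.integrable_iff.2 hY4
  have hDQ : ∫ p, D p ^ 4 ∂(P.prod P) ≤ Q := by rw [hid4.integral_eq]; exact hQ
  obtain ⟨t1, t2, t3, t4, t5⟩ := prod_var hYm hDm hY4 hD4
  have hint : Integrable (lx (aft d m) ω β h n) (P.prod P) :=
    hid.integrable_iff.2 (hc d hd Ω P ω he hexp β h 0 0 n).2.1
  have hD0 : ∫ p, D p ∂(P.prod P) = 0 := by
    simp only [hDd]
    rw [integral_sub hint (integrable_const _), hid.integral_eq]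
    simp [hf, free]
  rw [hD0] at t4
  set b : Ω → ℝ := fun x => lw ω β h 0 0 m x - free P ω β h m with hb
  have hbm : Measurable b := (hc d hd Ω P ω he hexp β h 0 0 m).1.sub_const _
  have hb0 : ∫ x, b x ∂P = 0 := by
    simp only [hb]
    rw [integral_sub (hc d hd Ω P ω he hexp β h 0 0 m).2.1 (integrable_const _)]
    simp [free]
  have hG : ∀ᵐ x ∂P, 0 ≤ (∫ x', D (x, x') ∂P) - b x + s := by
    filter_upwards [av_ge hc hd he hexp β h m k, hint.prod_right_ae] with x hx hx2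
    have e1 : ∫ x', D (x, x') ∂P = av P ω β h m n x - f := by
      simp only [hDd]
      rw [integral_sub hx2 (integrable_const _)]
      simp [av]
    rw [e1]
    simp only [hb, hs]
    linarith
  have hfl := first_layers t1.aestronglyMeasurable hbm.aestronglyMeasurable t2
    (int_four hc hd he hexp β h m) t4 hb0 hG hL (t3.trans hDQ) hQ' hV
  have hre := resample hc hd he hexp β hsep h1 h2 hQ hL2
  linarith

end Pool.Agent.Z97H.KZ
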