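import Pool.Agent.Z97H.KZ.UpE
import Pool.Agent.Z97H.KZ.Def

/-!
# The wandering exponents of order `p`
-/

set_option autoImplicit false

open MeasureTheory ProbabilityTheory Filter Topology

namespace Pool.Agent.Z97H.KZ

open TH967.DP (Step pos energy)
open Pool.Agent.N662.SE

variable {d : ℕ}

lemma dev_le_max (v : Fin d → ℝ) {n : ℕ} (w : Fin n → Step d) {i : ℕ} (hi : i ≤ n) :
    dev v w i ≤ maxDev v w :=
  Finset.le_sup' (fun i => dev v w i) (Finset.mem_range.2 (by omega))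

lemma dev_nonneg (v : Fin d → ℝ) {n : ℕ} (w : Fin n → Step d) (i : ℕ) : 0 ≤ dev v w i :=
  Real.sqrt_nonneg _

lemma max_nonneg (v : Fin d → ℝ) {n : ℕ} (w : Fin n → Step d) : 0 ≤ maxDev v w :=
  (dev_nonneg v w 0).trans (dev_le_max v w (Nat.zero_le n))

lemma max_le (v : Fin d → ℝ) {n : ℕ} (w : Fin n → Step d) {r : ℝ}
    (h : ∀ i ≤ n, dev v w i ≤ r) : maxDev v w ≤ r := by
  apply Finset.sup'_le
  intro i hi
  exact h i (by have := Finset.mem_range.1 hi; omega)

lemma max_le_all (v : Fin d → ℝ) {n : ℕ} (w : Fin n → Step d) :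
    maxDev v w ≤ n * ∑ k, (1 + |v k|) :=
  max_le v w fun i hi => dev_le v w i hi

lemma polymerE_eq (β : ℝ) (h : Fin d → ℝ) (η : ℕ → (Fin d → ℤ) → ℝ) (n : ℕ)
    (F : (Fin n → Step d) → ℝ) : polymerE β h η n F = ∑ w, F w * prob β h η n {w} := by
  classical
  have h1 : part β h η n Set.univ = ∑ w : Fin n → Step d, weight β h η w := by
    unfold part
    simp only [Set.indicator_univ]
    rfl
  have h2 : ∀ w : Fin n → Step d, part β h η n {w} = weight β h η w := by
    intro w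
    unfold part
    rw [Finset.sum_eq_single w]
    · rw [Set.indicator_of_mem (Set.mem_singleton w)]
      rfl
    · intro b _ hb
      exact Set.indicator_of_notMem (by simpa using hb) _
    · simp
  unfold polymerE prob
  rw [Finset.sum_div]
  apply Finset.sum_congr rfl
  intro w _
  rw [h1, h2, mul_div_assoc]

lemma measurable_polymerE (β : ℝ) (h : Fin d → ℝ) {n : ℕ} (F : (Fin n → Step d) → ℝ) {Ω : Type}
    [MeasurableSpace Ω] {ω : ℕ → (Fin d → ℤ) → Ω → ℝ} (hm : ∀ i y, Measurable (ω i y)) :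
    Measurable (fun x => polymerE β h (fun i y => ω i y x) n F) := by
  simp_rw [polymerE_eq]
  exact Finset.measurable_fun_sum _ fun w _ => (measurable_prob β h {w} hm).const_mul _

lemma sum_weight_pos (hd : 1 ≤ d) (β : ℝ) (h : Fin d → ℝ) (η : ℕ → (Fin d → ℤ) → ℝ) (n : ℕ) :
    0 < ∑ w : Fin n → Step d, weight β h η w := by
  have : Nonempty (Fin n → Step d) := ⟨fun _ => (⟨0, hd⟩, true)⟩
  exact Finset.sum_pos (fun w _ => Real.exp_pos _) Finset.univ_nonempty

lemma part_weight (β : ℝ) (h : Fin d → ℝ) (η : ℕ → (Fin d → ℤ) → ℝ) (n : ℕ)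
    (A : Set (Fin n → Step d)) : part β h η n A = ∑ w, A.indicator (weight β h η) w := rfl

lemma one_sub_prob (hd : 1 ≤ d) (β : ℝ) (h : Fin d → ℝ) (η : ℕ → (Fin d → ℤ) → ℝ) (n : ℕ)
    (A : Set (Fin n → Step d)) :
    1 - prob β h η n A = (∑ w, Aᶜ.indicator (weight β h η) w) /
      ∑ w : Fin n → Step d, weight β h η w := by
  have h0 := sum_weight_pos hd β h η n
  have h1 : part β h η n Set.univ = ∑ w : Fin n → Step d, weight β h η w := by
    rw [part_weight]
    simp only [Set.indicator_univ]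
  unfold prob
  rw [h1, part_weight, eq_div_iff h0.ne', sub_mul, div_mul_cancel₀ _ h0.ne', one_mul,
    ← Finset.sum_sub_distrib]
  apply Finset.sum_congr rfl
  intro w _
  rw [Set.indicator_compl]
  rfl

/-- Markov -/
lemma markov (hd : 1 ≤ d) (β : ℝ) (h v : Fin d → ℝ) (η : ℕ → (Fin d → ℤ) → ℝ) (n : ℕ) {r p : ℝ}
    (hr : 0 ≤ r) (hp : 0 < p) :
    (1 - prob β h η n (tb v r n)) * r ^ p ≤ polymerE β h η n (fun w => maxDev v w ^ p) := by
  have h0 := sum_weight_pos hd β h η n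
  rw [one_sub_prob hd, div_mul_eq_mul_div]
  unfold polymerE
  apply div_le_div_of_nonneg_right _ h0.le
  rw [Finset.sum_mul]
  apply Finset.sum_le_sum
  intro w _
  by_cases hw : w ∈ tb v r n
  · rw [Set.indicator_of_notMem (by simpa using hw), zero_mul]
    exact mul_nonneg (Real.rpow_nonneg (max_nonneg v w) _) (Real.exp_pos _).le
  · rw [Set.indicator_of_mem (by simpa using hw), mul_comm]
    apply mul_le_mul_of_nonneg_right _ (Real.exp_pos _).le
    apply Real.rpow_le_rpow hr _ hp.le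
    by_contra hcon
    push Not at hcon
    apply hw
    intro i hi k
    exact ((abs_le_dev v w i k).trans (dev_le_max v w hi)).trans hcon.le

/-- the converse of the Markov inequality for bounded functions -/
lemma polymerE_le (hd : 1 ≤ d) (β : ℝ) (h v : Fin d → ℝ) (η : ℕ → (Fin d → ℤ) → ℝ) (n : ℕ)
    {r p : ℝ} (hr : 0 ≤ r) (hp : 0 < p) :
    polymerE β h η n (fun w => maxDev v w ^ p) ≤ (d * r) ^ p +
      (n * ∑ k, (1 + |v k|)) ^ p * (1 - prob β h η n (tb v r n)) := by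
  have h0 := sum_weight_pos hd β h η n
  rw [one_sub_prob hd, ← mul_div_assoc]
  unfold polymerE
  rw [div_le_iff₀ h0, add_mul, div_mul_cancel₀ _ h0.ne', Finset.mul_sum, Finset.mul_sum,
    ← Finset.sum_add_distrib]
  apply Finset.sum_le_sum
  intro w _
  have hw0 : 0 < weight β h η w := Real.exp_pos _
  by_cases hw : w ∈ tb v r n
  · rw [Set.indicator_of_notMem (by simpa using hw), mul_zero, add_zero]
    apply mul_le_mul_of_nonneg_right _ hw0.le
    apply Real.rpow_le_rpow (max_nonneg v w) _ hp.le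
    exact max_le v w fun i hi => dev_le_of hr (hw i hi)
  · rw [Set.indicator_of_mem (by simpa using hw)]
    have h1 : maxDev v w ^ p * weight β h η w ≤
        (n * ∑ k, (1 + |v k|)) ^ p * weight β h η w := by
      apply mul_le_mul_of_nonneg_right _ hw0.le
      exact Real.rpow_le_rpow (max_nonneg v w) (max_le_all v w) hp.le
    have h2 : 0 ≤ (d * r) ^ p * weight β h η w := by positivity
    linarith

lemma polymerE_nonneg (β : ℝ) (h v : Fin d → ℝ) (η : ℕ → (Fin d → ℤ) → ℝ) (n : ℕ) (p : ℝ) :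
    0 ≤ polymerE β h η n (fun w => maxDev v w ^ p) := by
  unfold polymerE
  apply div_nonneg
  · exact Finset.sum_nonneg fun w _ => mul_nonneg (Real.rpow_nonneg (max_nonneg v w) _)
      (Real.exp_pos _).le
  · exact Finset.sum_nonneg fun w _ => (Real.exp_pos _).le

lemma polymerE_le_all (hd : 1 ≤ d) (β : ℝ) (h v : Fin d → ℝ) (η : ℕ → (Fin d → ℤ) → ℝ) (n : ℕ)
    {p : ℝ} (hp : 0 < p) :
    polymerE β h η n (fun w => maxDev v w ^ p) ≤ (n * ∑ k, (1 + |v k|)) ^ p := by
  have h0 := sum_weight_pos hd β h η n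
  unfold polymerE
  rw [div_le_iff₀ h0, Finset.mul_sum]
  apply Finset.sum_le_sum
  intro w _
  apply mul_le_mul_of_nonneg_right _ (Real.exp_pos _).le
  exact Real.rpow_le_rpow (max_nonneg v w) (max_le_all v w) hp.le

lemma integrable_polymerE (hd : 1 ≤ d) {Ω : Type} [MeasurableSpace Ω] {P : Measure Ω}
    [IsProbabilityMeasure P] {ω : ℕ → (Fin d → ℤ) → Ω → ℝ} (hm : ∀ i y, Measurable (ω i y))
    (β : ℝ) (h v : Fin d → ℝ) (n : ℕ) {p : ℝ} (hp : 0 < p) :
    Integrable (fun x => polymerE β h (fun i y => ω i y x) n (fun w => maxDev v w ^ p)) P := by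
  apply (integrable_const ((n * ∑ k, (1 + |v k|)) ^ p)).mono'
    (measurable_polymerE β h _ hm).aestronglyMeasurable
  refine Eventually.of_forall fun x => ?_
  rw [Real.norm_eq_abs, abs_of_nonneg (polymerE_nonneg _ _ _ _ _ _)]
  exact polymerE_le_all hd _ _ _ _ _ hp

lemma integrable_prob (hd : 1 ≤ d) {Ω : Type} [MeasurableSpace Ω] {P : Measure Ω}
    [IsProbabilityMeasure P] {ω : ℕ → (Fin d → ℤ) → Ω → ℝ} (hm : ∀ i y, Measurable (ω i y))
    (β : ℝ) (h : Fin d → ℝ) {n : ℕ} (A : Set (Fin n → Step d)) :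
    Integrable (fun x => prob β h (fun i y => ω i y x) n A) P := by
  apply (integrable_const (1 : ℝ)).mono' (measurable_prob β h A hm).aestronglyMeasurable
  refine Eventually.of_forall fun x => ?_
  rw [Real.norm_eq_abs, abs_of_nonneg (prob_nonneg _ _ _ _)]
  exact prob_le_one hd _ _ _ _

/-- the set in the definition of `wanderP` is not empty -/
lemma two_mem_wP (hd : 1 ≤ d) {Ω : Type} [MeasurableSpace Ω] {P : Measure Ω}
    [IsProbabilityMeasure P] {ω : ℕ → (Fin d → ℤ) → Ω → ℝ} (hm : ∀ i y, Measurable (ω i y))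
    (β : ℝ) (h v : Fin d → ℝ) {p : ℝ} (hp : 0 < p) :
    (2 : ℝ) ∈ {b : ℝ | 0 < b ∧ ∃ C : ℝ, ∀ n : ℕ, 1 ≤ n →
      ∫ x, polymerE β h (fun i y => ω i y x) n (fun w => maxDev v w ^ p) ∂P ≤
        C * (n : ℝ) ^ (p * b)} := by
  refine ⟨by norm_num, (∑ k, (1 + |v k|)) ^ p, fun n hn => ?_⟩
  have hn1 : (1 : ℝ) ≤ n := by exact_mod_cast hn
  have h1 : ∫ x, polymerE β h (fun i y => ω i y x) n (fun w => maxDev v w ^ p) ∂P ≤
      ∫ _x, (n * ∑ k, (1 + |v k|)) ^ p ∂P :=
    integral_mono (integrable_polymerE hd hm β h v n hp) (integrable_const _)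
      fun x => polymerE_le_all hd _ _ _ _ _ hp
  rw [integral_const, probReal_univ, one_smul] at h1
  have h0 : 0 ≤ ∑ k, (1 + |v k|) := Finset.sum_nonneg fun k _ => by positivity
  refine h1.trans ?_
  rw [Real.mul_rpow (by positivity) h0, mul_comm]
  apply mul_le_mul_of_nonneg_left _ (by positivity)
  exact Real.rpow_le_rpow_of_exponent_le hn1 (by linarith)

/-- the confinement which follows from a moment bound -/
lemma conf_of_moment (hd : 1 ≤ d) {Ω : Type} [MeasurableSpace Ω] {P : Measure Ω}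
    [IsProbabilityMeasure P] {ω : ℕ → (Fin d → ℤ) → Ω → ℝ} (hm : ∀ i y, Measurable (ω i y))
    {β : ℝ} {h v : Fin d → ℝ} {p b₀ C : ℝ} (hp : 0 < p)
    (H : ∀ n : ℕ, 1 ≤ n → ∫ x, polymerE β h (fun i y => ω i y x) n (fun w => maxDev v w ^ p) ∂P ≤
        C * (n : ℝ) ^ (p * b₀)) (b : ℝ) (n : ℕ) (hn : 1 ≤ n) :
    1 - C * (n : ℝ) ^ (-(p * (b - b₀))) ≤
      ∫ x, prob β h (fun i y => ω i y x) n (tb v ((n : ℝ) ^ b) n) ∂P := by
  have hn1 : (1 : ℝ) ≤ n := by exact_mod_cast hn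
  have hn0 : (0 : ℝ) < n := by linarith
  have hi := integrable_prob (P := P) hd hm β h (tb v ((n : ℝ) ^ b) n)
  have h1 : ∫ x, (1 - prob β h (fun i y => ω i y x) n (tb v ((n : ℝ) ^ b) n)) *
      ((n : ℝ) ^ b) ^ p ∂P ≤ C * (n : ℝ) ^ (p * b₀) := by
    refine le_trans ?_ (H n hn)
    apply integral_mono (((integrable_const _).sub hi).mul_const _)
      (integrable_polymerE hd hm β h v n hp)
    intro x
    exact markov hd β h v _ n (by positivity) hp
  rw [integral_mul_const, integral_sub (integrable_const _) hi] at h1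
  simp only [integral_const, probReal_univ, one_smul] at h1
  rw [← Real.rpow_mul hn0.le] at h1
  have h2 : (0 : ℝ) < (n : ℝ) ^ (b * p) := by positivity
  rw [← le_div_iff₀ h2, mul_div_assoc, ← Real.rpow_sub hn0] at h1
  have h3 : p * b₀ - b * p = -(p * (b - b₀)) := by ring
  rw [h3] at h1
  linarith

/-- a moment bound from confinement -/
lemma moment_of_conf (hd : 1 ≤ d) {Ω : Type} [MeasurableSpace Ω] {P : Measure Ω}
    [IsProbabilityMeasure P] {ω : ℕ → (Fin d → ℤ) → Ω → ℝ} (hm : ∀ i y, Measurable (ω i y))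
    {β : ℝ} {h v : Fin d → ℝ} {p b C : ℝ} (hp : 0 < p) (hb : 0 ≤ b)
    (H : ∀ n : ℕ, 1 ≤ n → 1 - C * (n : ℝ) ^ (-p) ≤
      ∫ x, prob β h (fun i y => ω i y x) n (tb v ((n : ℝ) ^ b) n) ∂P) :
    ∃ C' : ℝ, ∀ n : ℕ, 1 ≤ n →
      ∫ x, polymerE β h (fun i y => ω i y x) n (fun w => maxDev v w ^ p) ∂P ≤
        C' * (n : ℝ) ^ (p * b) := by
  refine ⟨(d : ℝ) ^ p + (∑ k, (1 + |v k|)) ^ p * |C|, fun n hn => ?_⟩
  have hn1 : (1 : ℝ) ≤ n := by exact_mod_cast hn
  have hn0 : (0 : ℝ) < n := by linarith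
  have hi := integrable_prob (P := P) hd hm β h (tb v ((n : ℝ) ^ b) n)
  have h0 : 0 ≤ ∑ k, (1 + |v k|) := Finset.sum_nonneg fun k _ => by positivity
  have hpos := Real.rpow_nonneg h0 p
  have h1 : ∫ x, polymerE β h (fun i y => ω i y x) n (fun w => maxDev v w ^ p) ∂P ≤
      ∫ x, ((d * (n : ℝ) ^ b) ^ p + (n * ∑ k, (1 + |v k|)) ^ p *
        (1 - prob β h (fun i y => ω i y x) n (tb v ((n : ℝ) ^ b) n))) ∂P :=
    integral_mono (integrable_polymerE hd hm β h v n hp)
      ((integrable_const _).add (((integrable_const _).sub hi).const_mul _))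
      fun x => polymerE_le hd _ _ _ _ _ (by positivity) hp
  have hi1 : Integrable (fun x => 1 - prob β h (fun i y => ω i y x) n (tb v ((n : ℝ) ^ b) n)) P :=
    (integrable_const _).sub hi
  rw [integral_add (integrable_const _) (hi1.const_mul _),
    integral_const_mul, integral_sub (integrable_const _) hi] at h1
  simp only [integral_const, probReal_univ, one_smul] at h1
  refine h1.trans ?_
  have h2 : 1 - ∫ x, prob β h (fun i y => ω i y x) n (tb v ((n : ℝ) ^ b) n) ∂P ≤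
      |C| * (n : ℝ) ^ (-p) := by
    have h3 := H n hn
    have h4 : C * (n : ℝ) ^ (-p) ≤ |C| * (n : ℝ) ^ (-p) :=
      mul_le_mul_of_nonneg_right (le_abs_self C) (by positivity)
    linarith
  have h3 : (n * ∑ k, (1 + |v k|)) ^ p *
      (1 - ∫ x, prob β h (fun i y => ω i y x) n (tb v ((n : ℝ) ^ b) n) ∂P) ≤
      (∑ k, (1 + |v k|)) ^ p * |C| := by
    rw [Real.mul_rpow hn0.le h0]
    calc (n : ℝ) ^ p * (∑ k, (1 + |v k|)) ^ p *
          (1 - ∫ x, prob β h (fun i y => ω i y x) n (tb v ((n : ℝ) ^ b) n) ∂P) ≤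
          (n : ℝ) ^ p * (∑ k, (1 + |v k|)) ^ p * (|C| * (n : ℝ) ^ (-p)) :=
          mul_le_mul_of_nonneg_left h2 (by positivity)
      _ = (∑ k, (1 + |v k|)) ^ p * |C| * ((n : ℝ) ^ p * (n : ℝ) ^ (-p)) := by ring
      _ = _ := by rw [← Real.rpow_add hn0, add_neg_cancel, Real.rpow_zero, mul_one]
  have h4 : ((d : ℝ) * (n : ℝ) ^ b) ^ p = (d : ℝ) ^ p * (n : ℝ) ^ (p * b) := by
    rw [Real.mul_rpow (Nat.cast_nonneg d) (by positivity), ← Real.rpow_mul hn0.le, mul_comm b p]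
  have h5 : (1 : ℝ) ≤ (n : ℝ) ^ (p * b) := Real.one_le_rpow hn1 (by positivity)
  have h6 : (∑ k, (1 + |v k|)) ^ p * |C| ≤ (∑ k, (1 + |v k|)) ^ p * |C| * (n : ℝ) ^ (p * b) :=
    le_mul_of_one_le_right (by positivity) h5
  rw [h4]
  linarith

end Pool.Agent.Z97H.KZ
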